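import Pool.Agent.N63.US.Stm

set_option autoImplicit false

/-!
# USK, task A4: one block of primes catches almost all `n` (helper558)
-/

namespace Pool.Agent.N63.US

open Finset Pool.Agent.H692R2.USS
open scoped Classical

namespace A4pAux

/-- the width of the interval of residues -/
def WW (K β p : ℕ) : ℕ := Nat.log 2 p / K - β

lemma count_block (a m β W : ℕ) (h : β + W ≤ a) :
    ((range (a * m)).filter (fun n => β ≤ n % a ∧ n % a < β + W)).card = m * W := by
  rw [← Nat.count_eq_card_filter_range]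
  induction m with
  | zero => simp
  | succ m ih =>
    rw [Nat.mul_succ, Nat.count_add, ih, Nat.succ_mul]
    congr 1
    rw [Nat.count_eq_card_filter_range]
    have h1 : (range a).filter (fun k => β ≤ (a * m + k) % a ∧ (a * m + k) % a < β + W) =
        Ico β (β + W) := by
      ext k
      rw [mem_filter, mem_range, mem_Ico, Nat.mul_add_mod]
      constructor
      · rintro ⟨h1, h2, h3⟩
        rw [Nat.mod_eq_of_lt h1] at h2 h3
        exact ⟨h2, h3⟩
      · rintro ⟨h1, h2⟩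
        have h3 : k < a := by omega
        rw [Nat.mod_eq_of_lt h3]
        exact ⟨h3, h1, h2⟩
    rw [h1, Nat.card_Ico]
    omega

lemma card_A (a M β W : ℕ) (ha : 0 < a) (hM : a ∣ M) (h : β + W ≤ a) :
    (((range M).filter (fun n => β ≤ n % a ∧ n % a < β + W)).card : ℝ) = M * ((W : ℝ) / a) := by
  obtain ⟨m, rfl⟩ := hM
  rw [count_block a m β W h]
  have : (a : ℝ) ≠ 0 := by exact_mod_cast ha.ne'
  push_cast
  field_simp

section

variable {K β p : ℕ} (hK : 0 < K) (hp : 2 * K * (β + 1) ≤ Nat.log 2 p)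

include hK hp

lemma ww_div : 2 * (β + 1) ≤ Nat.log 2 p / K := by
  rw [Nat.le_div_iff_mul_le hK]
  calc 2 * (β + 1) * K = 2 * K * (β + 1) := by ring
    _ ≤ _ := hp

lemma ww_add : β + WW K β p = Nat.log 2 p / K := by
  have := ww_div hK hp
  unfold WW
  omega

lemma ww_lower : Nat.log 2 p + 1 ≤ 4 * K * WW K β p := by
  have h1 := ww_div hK hp
  have h2 := ww_add hK hp
  have h3 : Nat.log 2 p < K * (Nat.log 2 p / K + 1) := by
    have := Nat.lt_mul_div_succ (Nat.log 2 p) hK
    exact this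
  generalize Nat.log 2 p / K = t at *
  generalize WW K β p = W at *
  have h4 : t ≤ 2 * W := by omega
  calc Nat.log 2 p + 1 ≤ K * (t + 1) := h3
    _ ≤ K * (4 * W) := Nat.mul_le_mul_left _ (by omega)
    _ = 4 * K * W := by ring

lemma ww_le : WW K β p ≤ Nat.log 2 p := by
  unfold WW
  exact (Nat.sub_le _ _).trans (Nat.div_le_self _ _)

lemma ww_fit (hp2 : 2 ≤ p) : β + WW K β p ≤ p - 1 := by
  rw [ww_add hK hp]
  have h1 := Nat.div_le_self (Nat.log 2 p) K
  have h2 : Nat.log 2 p < p := Nat.log_lt_self 2 (by omega)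
  omega

lemma ww_iff (r : ℕ) : (β ≤ r ∧ K * (r + 1) ≤ Nat.log 2 p) ↔ (β ≤ r ∧ r < β + WW K β p) := by
  rw [ww_add hK hp]
  refine and_congr Iff.rfl ?_
  rw [← Nat.succ_le_iff, Nat.le_div_iff_mul_le hK, mul_comm]

end

/-- the choice of `L` -/
lemma choose_L (c Cg D κ ε : ℝ) (hc : 0 < c) (hCg : 0 < Cg) (hκ : 0 < κ) (hε : 0 < ε)
    (hD : 0 ≤ D) :
    ∃ L : ℕ, 1 ≤ L ∧ 0 < c * Real.log L - D ∧
      3 * Cg * (1 + Real.log ((L : ℝ) + 1)) ≤ ε * ((c * Real.log L - D) / κ) ^ 2 := by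
  set y0 : ℝ := 1 + 2 * D / c + 36 * Cg * κ ^ 2 / (ε * c ^ 2) with hy0
  have hy1 : 1 ≤ y0 := by
    have h1 : 0 ≤ 2 * D / c := by positivity
    have h2 : 0 ≤ 36 * Cg * κ ^ 2 / (ε * c ^ 2) := by positivity
    linarith
  obtain ⟨L, hL⟩ := exists_nat_ge (Real.exp y0)
  have hL0 : (0 : ℝ) < L := lt_of_lt_of_le (Real.exp_pos _) hL
  have hL1 : 1 ≤ L := by
    have : (0 : ℕ) < L := by exact_mod_cast hL0
    omega
  have hy : y0 ≤ Real.log L := by
    rw [Real.le_log_iff_exp_le hL0]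
    exact hL
  set y := Real.log L with hydef
  have h1y : 1 ≤ y := hy1.trans hy
  have hcy : D ≤ c * y / 2 := by
    have h1 : 2 * D / c ≤ y := by
      have h2 : 0 ≤ 36 * Cg * κ ^ 2 / (ε * c ^ 2) := by positivity
      linarith
    rw [div_le_iff₀ hc] at h1
    linarith
  have hcy0 : 0 < c * y := by positivity
  refine ⟨L, hL1, by linarith, ?_⟩
  have hlog : Real.log ((L : ℝ) + 1) ≤ y + 1 := by
    have h1 : (L : ℝ) + 1 ≤ L * 2 := by
      have : (1 : ℝ) ≤ L := by exact_mod_cast hL1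
      linarith
    calc Real.log ((L : ℝ) + 1) ≤ Real.log (L * 2) := Real.log_le_log (by positivity) h1
      _ = y + Real.log 2 := by rw [Real.log_mul hL0.ne' (by norm_num)]
      _ ≤ y + 1 := by
        have := Real.log_two_lt_d9
        linarith
  have h3 : 36 * Cg * κ ^ 2 / (ε * c ^ 2) ≤ y := by
    have h1 : 0 ≤ 2 * D / c := by positivity
    linarith
  rw [div_le_iff₀ (by positivity)] at h3
  have h4 : (c * y / 2) ^ 2 ≤ (c * y - D) ^ 2 := by
    apply pow_le_pow_left₀ (by positivity)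
    linarith
  have h5 : ε * ((c * y - D) / κ) ^ 2 ≥ ε * ((c * y / 2) ^ 2 / κ ^ 2) := by
    rw [div_pow]
    gcongr
  refine le_trans ?_ h5
  have h6 : 3 * Cg * (1 + Real.log ((L : ℝ) + 1)) ≤ 9 * Cg * y := by
    have : 1 + Real.log ((L : ℝ) + 1) ≤ 3 * y := by linarith
    nlinarith
  refine h6.trans ?_
  rw [mul_div_assoc', le_div_iff₀ (by positivity)]
  have h7 : 36 * Cg * κ ^ 2 * y ≤ y * (ε * c ^ 2) * y := by
    apply mul_le_mul_of_nonneg_right h3 (by linarith)
  nlinarith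

end A4pAux

open A4pAux

theorem a4 : PairCount → Moment → Pool.Agent.TH997.US.A4 := by
  intro hPC hMo k hk hMass hG β x ε hε
  obtain ⟨c, C, hc, hMass⟩ := hMass
  obtain ⟨Cg, hCg, hG⟩ := hG
  set K : ℕ := 4 * k * (k + 1) with hK
  have hK0 : 0 < K := by positivity
  set x' : ℕ := max x (2 ^ (2 * K * (β + 1))) with hx'
  obtain ⟨L, hL1, hL2, hL3⟩ := choose_L c Cg (|C| + x') (4 * K) ε hc hCg (by positivity) hε
    (by positivity)
  refine ⟨L, fun M hM hdiv => ?_⟩
  have hMR : (0 : ℝ) < M := by exact_mod_cast hM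
  set P : Finset ℕ := (range (2 ^ L)).filter (fun p => p.Prime ∧ SplitAll k p ∧ x' ≤ p) with hP
  have hPlog : ∀ p ∈ P, 2 * K * (β + 1) ≤ Nat.log 2 p := by
    intro p hp
    rw [hP, mem_filter] at hp
    have h1 : 2 ^ (2 * K * (β + 1)) ≤ p := (le_max_right _ _).trans hp.2.2.2
    exact Nat.le_log_of_pow_le (by norm_num) h1
  have hPprime : ∀ p ∈ P, p.Prime := fun p hp => (mem_filter.1 hp).2.1
  have hP3 : ∀ p ∈ P, 3 ≤ p := by
    intro p hp
    have h1 := hPlog p hp
    by_contra h2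
    have h3 : Nat.log 2 p ≤ Nat.log 2 2 := Nat.log_mono_right (by omega)
    have h4 : Nat.log 2 2 = 1 := by
      rw [Nat.log_eq_one_iff]
      omega
    have h5 : 2 ≤ 2 * K * (β + 1) := by nlinarith
    omega
  have hPL : ∀ p ∈ P, p < 2 ^ L := fun p hp => mem_range.1 (mem_filter.1 hp).1
  have hPdiv : ∀ p ∈ P, (p - 1) ∣ M := fun p hp => hdiv p (hPprime p hp) (hPL p hp)
  have hp1 : ∀ p ∈ P, 0 < p - 1 := fun p hp => by have := hP3 p hp; omega
  have hcast : ∀ p ∈ P, ((p - 1 : ℕ) : ℝ) = (p : ℝ) - 1 := fun p hp => by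
    rw [Nat.cast_sub (by have := hP3 p hp; omega), Nat.cast_one]
  have hp1R : ∀ p ∈ P, (0 : ℝ) < ((p - 1 : ℕ) : ℝ) := fun p hp => by exact_mod_cast hp1 p hp
  set W : ℕ → ℕ := fun p => WW K β p with hW
  set w : ℕ → ℝ := fun p => 1 / ((Nat.log 2 p : ℝ) + 1) with hw
  set mm : ℕ → ℝ := fun p => (W p : ℝ) / ((p - 1 : ℕ) : ℝ) with hmm
  set e : ℕ → ℕ → ℝ := fun p q => ((Nat.gcd (p - 1) (q - 1) : ℕ) : ℝ) * (W (min p q) : ℝ) /
    (((p - 1 : ℕ) : ℝ) * ((q - 1 : ℕ) : ℝ)) with he
  set A : ℕ → Finset ℕ := fun p =>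
    (range M).filter (fun n => β ≤ n % (p - 1) ∧ n % (p - 1) < β + W p) with hA
  have hlogpos : ∀ p : ℕ, (0 : ℝ) < (Nat.log 2 p : ℝ) + 1 := fun p => by positivity
  have hpair : ∀ p ∈ P, ∀ q ∈ P, p < q → ((A p ∩ A q).card : ℝ) ≤ M * (mm p * mm q + e p q) := by
    intro p hp q hq hpq
    have h1 := hPC (p - 1) (q - 1) M β (W p) (W q) (hp1 p hp) (hp1 q hq) (hPdiv p hp) (hPdiv q hq)
      (ww_fit hK0 (hPlog p hp) (by have := hP3 p hp; omega))
      (ww_fit hK0 (hPlog q hq) (by have := hP3 q hq; omega))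
    have h2 : A p ∩ A q = (range M).filter (fun n => (β ≤ n % (p - 1) ∧ n % (p - 1) < β + W p) ∧
        (β ≤ n % (q - 1) ∧ n % (q - 1) < β + W q)) := by
      rw [hA, ← filter_and]
    rw [h2]
    refine h1.trans (le_of_eq ?_)
    simp only [hmm, he, min_eq_left hpq.le]
    rw [div_mul_div_comm]
  have hMom := hMo P M A w mm e (fun p _ => by simp only [hw]; positivity)
    (fun p _ => filter_subset _ _)
    (fun p hp => card_A (p - 1) M β (W p) (hp1 p hp) (hPdiv p hp)
      (ww_fit hK0 (hPlog p hp) (by have := hP3 p hp; omega)))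
    (fun p hp q hq hpq => by
      rcases lt_or_gt_of_ne hpq with h | h
      · exact hpair p hp q hq h
      · have h1 := hpair q hq p hp h
        rw [inter_comm]
        refine h1.trans (le_of_eq ?_)
        simp only [he]
        rw [Nat.gcd_comm, min_comm, mul_comm (mm q), mul_comm (((q - 1 : ℕ) : ℝ))])
  -- the gcd sum
  set h : ℕ → ℕ → ℝ := fun p q => ((Nat.gcd (p - 1) (q - 1) : ℕ) : ℝ) /
      (((p : ℝ) - 1) * ((q : ℝ) - 1) * ((Nat.log 2 q : ℝ) + 1)) with hh
  have hhnn : ∀ p q : ℕ, 1 ≤ p → 1 ≤ q → 0 ≤ h p q := by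
    intro p q h1 h2
    have h3 : (0 : ℝ) ≤ (p : ℝ) - 1 := by
      have : (1 : ℝ) ≤ p := by exact_mod_cast h1
      linarith
    have h4 : (0 : ℝ) ≤ (q : ℝ) - 1 := by
      have : (1 : ℝ) ≤ q := by exact_mod_cast h2
      linarith
    simp only [hh]
    positivity
  have hGL := hG L
  set GG : ℝ := ∑ q ∈ (Finset.range (2 ^ L)).filter Nat.Prime,
    ∑ p ∈ (Finset.range q).filter Nat.Prime, h p q with hGG
  have hGLb : GG ≤ Cg * (1 + Real.log ((L : ℝ) + 1)) := hGL
  have hPsub : P ⊆ (Finset.range (2 ^ L)).filter Nat.Prime := by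
    intro p hp
    rw [mem_filter, mem_range]
    exact ⟨hPL p hp, hPprime p hp⟩
  have hinner : ∀ q ∈ (Finset.range (2 ^ L)).filter Nat.Prime,
      0 ≤ ∑ p ∈ (Finset.range q).filter Nat.Prime, h p q := by
    intro q hq
    refine sum_nonneg fun p hp => hhnn p q (mem_filter.1 hp).2.one_lt.le
      (mem_filter.1 hq).2.one_lt.le
  -- the diagonal
  have hdiag : ∑ p ∈ P, w p ^ 2 * mm p ≤ GG := by
    calc ∑ p ∈ P, w p ^ 2 * mm p ≤ ∑ q ∈ P, ∑ p ∈ (Finset.range q).filter Nat.Prime, h p q := by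
          refine sum_le_sum fun q hq => ?_
          have h2q : 2 ∈ (Finset.range q).filter Nat.Prime := by
            rw [mem_filter, mem_range]
            exact ⟨hP3 q hq, Nat.prime_two⟩
          refine le_trans ?_ (single_le_sum (f := fun p => h p q) (fun p hp => hhnn p q
            (mem_filter.1 hp).2.one_lt.le (by have := hP3 q hq; omega)) h2q)
          have e1 : h 2 q = 1 / (((q - 1 : ℕ) : ℝ) * ((Nat.log 2 q : ℝ) + 1)) := by
            simp only [hh]
            rw [hcast q hq, show (2 - 1 : ℕ) = 1 by norm_num, Nat.gcd_one_left]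
            norm_num
          rw [e1]
          simp only [hw, hmm]
          have h5 : (W q : ℝ) ≤ (Nat.log 2 q : ℝ) + 1 := by
            have := ww_le hK0 (hPlog q hq)
            have h6 : (W q : ℝ) ≤ (Nat.log 2 q : ℝ) := by exact_mod_cast this
            linarith
          have h7 := hp1R q hq
          have h8 := hlogpos q
          rw [div_pow, one_pow, div_mul_div_comm, one_mul, div_le_div_iff₀ (by positivity)
            (by positivity), one_mul]
          calc (W q : ℝ) * (((q - 1 : ℕ) : ℝ) * ((Nat.log 2 q : ℝ) + 1))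
              ≤ ((Nat.log 2 q : ℝ) + 1) * (((q - 1 : ℕ) : ℝ) * ((Nat.log 2 q : ℝ) + 1)) := by
                gcongr
            _ = ((Nat.log 2 q : ℝ) + 1) ^ 2 * ((q - 1 : ℕ) : ℝ) := by ring
      _ ≤ GG := sum_le_sum_of_subset_of_nonneg hPsub fun q hq _ => hinner q hq
  -- the off-diagonal part
  have hterm : ∀ p ∈ P, ∀ q ∈ P, p < q → w p * w q * e p q ≤ h p q := by
    intro p hp q hq hpq
    simp only [hw, he, hh, min_eq_left hpq.le]
    rw [← hcast p hp, ← hcast q hq]
    have h5 : (W p : ℝ) ≤ (Nat.log 2 p : ℝ) + 1 := by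
      have := ww_le hK0 (hPlog p hp)
      have h6 : (W p : ℝ) ≤ (Nat.log 2 p : ℝ) := by exact_mod_cast this
      linarith
    have h7 := hp1R p hp
    have h7' := hp1R q hq
    have h8 := hlogpos p
    have h8' := hlogpos q
    rw [div_mul_div_comm, div_mul_div_comm, one_mul, one_mul,
      div_le_div_iff₀ (by positivity) (by positivity)]
    calc ((Nat.gcd (p - 1) (q - 1) : ℕ) : ℝ) * (W p : ℝ) *
          (((p - 1 : ℕ) : ℝ) * ((q - 1 : ℕ) : ℝ) * ((Nat.log 2 q : ℝ) + 1))
        ≤ ((Nat.gcd (p - 1) (q - 1) : ℕ) : ℝ) * ((Nat.log 2 p : ℝ) + 1) *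
          (((p - 1 : ℕ) : ℝ) * ((q - 1 : ℕ) : ℝ) * ((Nat.log 2 q : ℝ) + 1)) := by gcongr
      _ = _ := by ring
  have hhalf : ∑ q ∈ P, ∑ p ∈ P, (if p < q then h p q else 0) ≤ GG := by
    calc ∑ q ∈ P, ∑ p ∈ P, (if p < q then h p q else 0)
        ≤ ∑ q ∈ P, ∑ p ∈ (Finset.range q).filter Nat.Prime, h p q := by
          refine sum_le_sum fun q hq => ?_
          rw [← sum_filter]
          refine sum_le_sum_of_subset_of_nonneg ?_ fun p hp _ => hhnn p q
            (mem_filter.1 hp).2.one_lt.le (by have := hP3 q hq; omega)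
          intro p hp
          rw [mem_filter] at hp
          rw [mem_filter, mem_range]
          exact ⟨hp.2, hPprime p hp.1⟩
      _ ≤ GG := sum_le_sum_of_subset_of_nonneg hPsub fun q hq _ => hinner q hq
  have hesymm : ∀ p q, e p q = e q p := by
    intro p q
    simp only [he]
    rw [Nat.gcd_comm, min_comm, mul_comm (((p - 1 : ℕ) : ℝ))]
  have hoff : ∑ p ∈ P, ∑ q ∈ P, (if p ≠ q then w p * w q * e p q else 0) ≤ 2 * GG := by
    have h1 : ∑ p ∈ P, ∑ q ∈ P, (if p ≠ q then w p * w q * e p q else 0) ≤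
        ∑ p ∈ P, ∑ q ∈ P, ((if p < q then h p q else 0) + (if q < p then h q p else 0)) := by
      refine sum_le_sum fun p hp => sum_le_sum fun q hq => ?_
      rcases lt_trichotomy p q with h1 | h1 | h1
      · rw [if_pos h1.ne, if_pos h1, if_neg h1.le.not_gt, add_zero]
        exact hterm p hp q hq h1
      · subst h1
        simp
      · rw [if_pos h1.ne', if_neg h1.le.not_gt, if_pos h1, zero_add, hesymm, mul_comm (w p)]
        exact hterm q hq p hp h1
    refine h1.trans ?_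
    simp only [sum_add_distrib]
    have h2 : ∑ p ∈ P, ∑ q ∈ P, (if p < q then h p q else 0) ≤ GG := by
      rw [sum_comm]
      exact hhalf
    linarith
  -- the mean
  have hmean : (c * Real.log L - (|C| + x')) / (4 * K) ≤ ∑ p ∈ P, w p * mm p := by
    have h1 : ∑ p ∈ P, (1 / (4 * (K : ℝ))) * (1 / (p : ℝ)) ≤ ∑ p ∈ P, w p * mm p := by
      refine sum_le_sum fun p hp => ?_
      simp only [hw, hmm]
      have h7 := hp1R p hp
      have h8 := hlogpos p
      have hpp : (0 : ℝ) < p := by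
        have := hP3 p hp
        exact_mod_cast (by omega : 0 < p)
      have hle : ((p - 1 : ℕ) : ℝ) ≤ p := by exact_mod_cast Nat.sub_le p 1
      have hKR : (0 : ℝ) < K := by exact_mod_cast hK0
      have h5 : (Nat.log 2 p : ℝ) + 1 ≤ 4 * K * (W p : ℝ) := by
        exact_mod_cast ww_lower hK0 (hPlog p hp)
      rw [div_mul_div_comm, div_mul_div_comm, one_mul, one_mul, div_le_div_iff₀ (by positivity)
        (by positivity), one_mul]
      calc ((Nat.log 2 p : ℝ) + 1) * ((p - 1 : ℕ) : ℝ) ≤ (4 * K * (W p : ℝ)) * p := by gcongr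
        _ = (W p : ℝ) * (4 * K * p) := by ring
    rw [← mul_sum] at h1
    have h2 := hMass L hL1
    have h3 : ∑ p ∈ (Finset.range (2 ^ L)).filter (fun p => p.Prime ∧ SplitAll k p), (1 : ℝ) / p ≤
        ∑ p ∈ P, (1 / (p : ℝ)) + x' := by
      have h4 : (Finset.range (2 ^ L)).filter (fun p => p.Prime ∧ SplitAll k p) ⊆
          P ∪ (Finset.range x').filter Nat.Prime := by
        intro p hp
        rw [mem_filter] at hp
        rw [mem_union]
        by_cases h5 : x' ≤ p
        · left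
          exact mem_filter.2 ⟨hp.1, hp.2.1, hp.2.2, h5⟩
        · right
          exact mem_filter.2 ⟨mem_range.2 (by omega), hp.2.1⟩
      have h6 : ∑ p ∈ (Finset.range x').filter Nat.Prime, (1 : ℝ) / p ≤ x' := by
        calc ∑ p ∈ (Finset.range x').filter Nat.Prime, (1 : ℝ) / p
            ≤ ∑ p ∈ (Finset.range x').filter Nat.Prime, (1 : ℝ) := by
              refine sum_le_sum fun p hp => ?_
              have h7 : (1 : ℝ) ≤ p := by exact_mod_cast (mem_filter.1 hp).2.one_lt.le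
              rw [div_le_one (by linarith)]
              exact h7
          _ = (((Finset.range x').filter Nat.Prime).card : ℝ) := by simp
          _ ≤ x' := by
              have := card_filter_le (Finset.range x') Nat.Prime
              rw [card_range] at this
              exact_mod_cast this
      calc ∑ p ∈ (Finset.range (2 ^ L)).filter (fun p => p.Prime ∧ SplitAll k p), (1 : ℝ) / p
          ≤ ∑ p ∈ P ∪ (Finset.range x').filter Nat.Prime, (1 : ℝ) / p :=
            sum_le_sum_of_subset_of_nonneg h4 fun p _ _ => by positivity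
        _ ≤ ∑ p ∈ P, (1 / (p : ℝ)) + ∑ p ∈ (Finset.range x').filter Nat.Prime, (1 : ℝ) / p := by
            have := sum_union_inter (s₁ := P) (s₂ := (Finset.range x').filter Nat.Prime)
              (f := fun p : ℕ => (1 : ℝ) / p)
            have h8 : 0 ≤ ∑ p ∈ P ∩ (Finset.range x').filter Nat.Prime, (1 : ℝ) / p :=
              sum_nonneg fun p _ => by positivity
            linarith
        _ ≤ _ := by linarith
    refine le_trans ?_ h1
    have hKR : (0 : ℝ) < K := by exact_mod_cast hK0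
    rw [div_le_iff₀ (by positivity)]
    have h9 : 1 / (4 * (K : ℝ)) * (∑ p ∈ P, (1 / (p : ℝ))) * (4 * K) = ∑ p ∈ P, (1 / (p : ℝ)) := by
      field_simp
    rw [h9]
    have h10 := le_abs_self C
    linarith
  -- the conclusion
  set N0 : ℝ := (((range M).filter (fun n => ∀ p ∈ P, n ∉ A p)).card : ℝ) with hN0
  have hsub : (((Finset.range M).filter (fun n => ∀ p, p.Prime → SplitAll k p → x ≤ p →
      p < 2 ^ L → ¬ (β ≤ n % (p - 1) ∧ K * (n % (p - 1) + 1) ≤ Nat.log 2 p))).card : ℝ)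
      ≤ N0 := by
    rw [hN0]
    have : (Finset.range M).filter (fun n => ∀ p, p.Prime → SplitAll k p → x ≤ p →
      p < 2 ^ L → ¬ (β ≤ n % (p - 1) ∧ K * (n % (p - 1) + 1) ≤ Nat.log 2 p)) ⊆
      (range M).filter (fun n => ∀ p ∈ P, n ∉ A p) := by
      intro n hn
      rw [mem_filter] at hn ⊢
      refine ⟨hn.1, fun p hp hnA => ?_⟩
      have h1 := mem_filter.1 hp
      refine hn.2 p h1.2.1 h1.2.2.1 ((le_max_left _ _).trans h1.2.2.2) (hPL p hp) ?_
      rw [ww_iff hK0 (hPlog p hp)]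
      exact (mem_filter.1 hnA).2
    exact_mod_cast card_le_card this
  refine hsub.trans ?_
  set μ : ℝ := ∑ p ∈ P, w p * mm p with hμ
  set μ0 : ℝ := (c * Real.log L - (|C| + x')) / (4 * K) with hμ0
  have hμ0pos : 0 < μ0 := by
    rw [hμ0]
    have hKR : (0 : ℝ) < K := by exact_mod_cast hK0
    positivity
  have hfin : N0 * μ ^ 2 ≤ M * (3 * Cg * (1 + Real.log ((L : ℝ) + 1))) := by
    refine hMom.trans ?_
    apply mul_le_mul_of_nonneg_left _ hMR.le
    linarith
  have hN0nn : 0 ≤ N0 := by positivity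
  have h1 : N0 * μ0 ^ 2 ≤ M * (ε * μ0 ^ 2) := by
    calc N0 * μ0 ^ 2 ≤ N0 * μ ^ 2 := by gcongr
      _ ≤ M * (3 * Cg * (1 + Real.log ((L : ℝ) + 1))) := hfin
      _ ≤ M * (ε * μ0 ^ 2) := by gcongr
  have h2 : 0 < μ0 ^ 2 := by positivity
  have h3 : N0 * μ0 ^ 2 ≤ (ε * M) * μ0 ^ 2 := by linarith
  exact le_of_mul_le_mul_right h3 h2

end Pool.Agent.N63.US
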