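import Pool.Agent.N63.US.Stm

/-!
# Project USK: few numbers are non-generic for large primes
-/

set_option autoImplicit false

namespace Pool.Agent.N63.US

namespace A5pAux

open Finset

/-- numbers with prescribed residues modulo `p - 1` and `p` -/
lemma count_pair {p M w : ℕ} (hp : p.Prime) (hM : p * (p - 1) ∣ M) (B : Finset ℕ) :
    ((range M).filter (fun n => n % (p - 1) < w ∧ n % p ∈ B)).card ≤
      (M / (p * (p - 1))) * (w * B.card) := by
  classical
  have hp2 := hp.two_le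
  have hP : 0 < p * (p - 1) := Nat.mul_pos hp.pos (by omega)
  have hcop : Nat.Coprime p (p - 1) := (Nat.coprime_self_sub_right (by omega : 1 ≤ p)).2 (by simp)
  have h1 : ((range (M / (p * (p - 1)))) ×ˢ ((range w) ×ˢ B)).card =
      (M / (p * (p - 1))) * (w * B.card) := by
    rw [Finset.card_product, Finset.card_product, Finset.card_range, Finset.card_range]
  rw [← h1]
  refine Finset.card_le_card_of_injOn
    (fun n => (n / (p * (p - 1)), (n % (p - 1), n % p))) ?_ ?_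
  · intro n hn
    obtain ⟨hnM, hn1, hn2⟩ := Finset.mem_filter.1 hn
    rw [Finset.mem_coe, Finset.mem_product, Finset.mem_product, Finset.mem_range, Finset.mem_range]
    refine ⟨?_, hn1, hn2⟩
    rw [Finset.mem_range] at hnM
    exact Nat.div_lt_div_of_lt_of_dvd hM hnM
  · intro a _ b _ hab
    simp only [Prod.mk.injEq] at hab
    obtain ⟨h2, h3, h4⟩ := hab
    have h5 : a ≡ b [MOD p * (p - 1)] :=
      (Nat.modEq_and_modEq_iff_modEq_mul hcop).1 ⟨h4, h3⟩
    have h6 := Nat.div_add_mod a (p * (p - 1))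
    have h7 := Nat.div_add_mod b (p * (p - 1))
    have h8 : a % (p * (p - 1)) = b % (p * (p - 1)) := h5
    rw [← h6, ← h7, h2, h8]

lemma log_bound (p : ℕ) (hp : 2 ≤ p) : (Nat.log 2 p : ℝ) ≤ 8 * (p : ℝ) ^ (1 / 4 : ℝ) := by
  have hp0 : (0 : ℝ) < p := by positivity
  have h1 : (Nat.log 2 p : ℝ) * Real.log 2 ≤ Real.log p := by
    rw [← Real.log_pow]
    apply Real.log_le_log (by positivity)
    exact_mod_cast Nat.pow_log_le_self 2 (by omega)
  have h2 := Real.log_le_rpow_div hp0.le (show (0 : ℝ) < 1 / 4 by norm_num)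
  have h3 := Real.log_two_gt_d9
  have h4 : (0 : ℝ) ≤ Nat.log 2 p := Nat.cast_nonneg _
  have h5 : (Nat.log 2 p : ℝ) * (1 / 2) ≤ (Nat.log 2 p : ℝ) * Real.log 2 :=
    mul_le_mul_of_nonneg_left (by linarith) h4
  have h6 : (p : ℝ) ^ (1 / 4 : ℝ) / (1 / 4) = 4 * (p : ℝ) ^ (1 / 4 : ℝ) := by ring
  rw [h6] at h2
  linarith

end A5pAux

open Finset Pool.Agent.H692R2.USS A5pAux in
theorem a5 : BadCl → Pool.Agent.TH997.US.A5 := by
  classical
  intro hB k hk ε hε
  set Ck : ℝ := k * 2 ^ (k + 5) with hCk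
  have hCk0 : 0 ≤ Ck := by positivity
  have hsum : Summable (fun n : ℕ => 1 / (n : ℝ) ^ (3 / 2 : ℝ)) :=
    Real.summable_one_div_nat_rpow.2 (by norm_num)
  obtain ⟨s, hs⟩ := summable_iff_vanishing_norm.1 hsum (ε / (Ck + 1)) (by positivity)
  refine ⟨s.sup id + 2, fun L M hM hdiv => ?_⟩
  set x : ℕ := s.sup id + 2 with hx
  set PP : Finset ℕ := (range (2 ^ L)).filter (fun p => p.Prime ∧ x ≤ p) with hPP
  have hBex : ∀ p : ℕ, ∃ B : Finset ℕ, p.Prime → (B ⊆ range p ∧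
      (B.card : ℝ) ≤ k * 2 ^ (k + 1) * (p : ℝ) ^ (1 / 4 : ℝ) ∧
        ∀ n, ¬ Generic k p n → n % p ∈ B) := by
    intro p
    by_cases hp : p.Prime
    · obtain ⟨B, hB'⟩ := hB k p hk hp
      exact ⟨B, fun _ => hB'⟩
    · exact ⟨∅, fun h => absurd h hp⟩
  choose B hBp using hBex
  have hsub : (range M).filter (fun n => ∃ p, p.Prime ∧ x ≤ p ∧ p < 2 ^ L ∧
      4 * k * (k + 1) * (n % (p - 1) + 1) ≤ Nat.log 2 p ∧ ¬ Generic k p n) ⊆
      PP.biUnion (fun p => (range M).filter (fun n => n % (p - 1) < Nat.log 2 p ∧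
        n % p ∈ B p)) := by
    intro n hn
    obtain ⟨hnM, p, hp, hxp, hpL, hlog, hgen⟩ := Finset.mem_filter.1 hn
    rw [Finset.mem_biUnion]
    refine ⟨p, ?_, ?_⟩
    · rw [hPP, Finset.mem_filter, Finset.mem_range]
      exact ⟨hpL, hp, hxp⟩
    · rw [Finset.mem_filter]
      refine ⟨hnM, ?_, (hBp p hp).2.2 n hgen⟩
      have h1 : 1 ≤ 4 * k * (k + 1) := Nat.mul_pos (by omega) (by omega)
      calc n % (p - 1) < 1 * (n % (p - 1) + 1) := by omega
        _ ≤ 4 * k * (k + 1) * (n % (p - 1) + 1) := Nat.mul_le_mul_right _ h1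
        _ ≤ Nat.log 2 p := hlog
  have hone : ∀ p ∈ PP, (((range M).filter (fun n => n % (p - 1) < Nat.log 2 p ∧
      n % p ∈ B p)).card : ℝ) ≤ M * (Ck * (1 / (p : ℝ) ^ (3 / 2 : ℝ))) := by
    intro p hp
    rw [hPP, Finset.mem_filter, Finset.mem_range] at hp
    obtain ⟨hpL, hpp, _⟩ := hp
    have hp2 := hpp.two_le
    have hp0 : (0 : ℝ) < p := by exact_mod_cast hpp.pos
    have hdv := hdiv p hpp hpL
    have h1 := count_pair (w := Nat.log 2 p) hpp hdv (B p)
    have h2 := (hBp p hpp).2.1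
    have h3 := log_bound p hp2
    have h4 : ((M / (p * (p - 1)) : ℕ) : ℝ) ≤ M * (2 / (p : ℝ) ^ (2 : ℕ)) := by
      refine Nat.cast_div_le.trans ?_
      push_cast
      rw [Nat.cast_sub (by omega : 1 ≤ p), Nat.cast_one]
      have hp2' : (2 : ℝ) ≤ p := by exact_mod_cast hp2
      rw [div_eq_mul_one_div]
      refine mul_le_mul_of_nonneg_left ?_ (Nat.cast_nonneg _)
      rw [div_le_div_iff₀ (by nlinarith) (by positivity)]
      nlinarith
    calc (((range M).filter (fun n => n % (p - 1) < Nat.log 2 p ∧ n % p ∈ B p)).card : ℝ)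
        ≤ (((M / (p * (p - 1))) * (Nat.log 2 p * (B p).card) : ℕ) : ℝ) := by exact_mod_cast h1
      _ = ((M / (p * (p - 1)) : ℕ) : ℝ) * ((Nat.log 2 p : ℝ) * ((B p).card : ℝ)) := by push_cast; ring
      _ ≤ (M * (2 / (p : ℝ) ^ (2 : ℕ))) * ((8 * (p : ℝ) ^ (1 / 4 : ℝ)) *
          (k * 2 ^ (k + 1) * (p : ℝ) ^ (1 / 4 : ℝ))) := by
          gcongr
      _ = M * (Ck * (1 / (p : ℝ) ^ (3 / 2 : ℝ))) := by
          have h5 : (p : ℝ) ^ (1 / 4 : ℝ) * (p : ℝ) ^ (1 / 4 : ℝ) * (p : ℝ) ^ (3 / 2 : ℝ) =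
              (p : ℝ) ^ (2 : ℕ) := by
            rw [← Real.rpow_add hp0, ← Real.rpow_add hp0, ← Real.rpow_natCast]
            norm_num
          have h6 : (p : ℝ) ^ (3 / 2 : ℝ) ≠ 0 := (Real.rpow_pos_of_pos hp0 _).ne'
          rw [← h5, hCk]
          have h7 : (p : ℝ) ^ (1 / 4 : ℝ) ≠ 0 := (Real.rpow_pos_of_pos hp0 _).ne'
          field_simp
          ring
  calc _ ≤ (((PP.biUnion (fun p => (range M).filter (fun n => n % (p - 1) < Nat.log 2 p ∧
        n % p ∈ B p))).card : ℕ) : ℝ) := by exact_mod_cast Finset.card_le_card hsub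
    _ ≤ ∑ p ∈ PP, (((range M).filter (fun n => n % (p - 1) < Nat.log 2 p ∧
        n % p ∈ B p)).card : ℝ) := by exact_mod_cast Finset.card_biUnion_le
    _ ≤ ∑ p ∈ PP, M * (Ck * (1 / (p : ℝ) ^ (3 / 2 : ℝ))) := Finset.sum_le_sum hone
    _ = M * (Ck * ∑ p ∈ PP, 1 / (p : ℝ) ^ (3 / 2 : ℝ)) := by
        rw [← Finset.mul_sum, ← Finset.mul_sum]
    _ ≤ M * ε := by
        refine mul_le_mul_of_nonneg_left ?_ (Nat.cast_nonneg _)
        have hdis : Disjoint PP s := by
          rw [Finset.disjoint_left]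
          intro p hp hps
          rw [hPP, Finset.mem_filter] at hp
          have : p ≤ s.sup id := Finset.le_sup (f := id) hps
          omega
        have h8 := hs PP hdis
        have h9 : ∑ p ∈ PP, 1 / (p : ℝ) ^ (3 / 2 : ℝ) ≤ ε / (Ck + 1) :=
          (le_abs_self _).trans (by rw [← Real.norm_eq_abs]; exact h8.le)
        calc Ck * ∑ p ∈ PP, 1 / (p : ℝ) ^ (3 / 2 : ℝ) ≤ (Ck + 1) * (ε / (Ck + 1)) := by
              refine mul_le_mul (by linarith) h9 ?_ (by positivity)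
              exact Finset.sum_nonneg fun p _ => by positivity
          _ = ε := by field_simp
    _ = ε * M := mul_comm _ _

end Pool.Agent.N63.US
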