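import Pool.Agent.N63.US.Stm

set_option autoImplicit false

/-!
# Project USK: almost all `n` are good (helper273)
-/

namespace Pool.Agent.N63.US

open Finset Pool.Agent.H692R2.USS
open scoped Classical

namespace A6pAux

/-- the thresholds -/
def be (Lf : ℕ → ℕ) : ℕ → ℕ
  | 0 => 0
  | j + 1 => max (be Lf j) (Lf (be Lf j))

theorem be_mono (Lf : ℕ → ℕ) : Monotone (be Lf) :=
  monotone_nat_of_le_succ fun j => le_max_left _ _

theorem be_L (Lf : ℕ → ℕ) (j : ℕ) : Lf (be Lf j) ≤ be Lf (j + 1) := le_max_right _ _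

theorem dvd_fact {p i : ℕ} (hp : p.Prime) (h : p ≤ i) : p * (p - 1) ∣ i.factorial := by
  refine Dvd.dvd.trans ?_ (Nat.factorial_dvd_factorial h)
  have h1 : p.factorial = p * (p - 1).factorial := (Nat.mul_factorial_pred hp.ne_zero).symm
  rw [h1]
  exact Nat.mul_dvd_mul_left p (Nat.dvd_factorial (Nat.sub_pos_of_lt hp.one_lt) le_rfl)

end A6pAux

open A6pAux

theorem a6 : Pool.Agent.TH997.US.A6 := by
  intro hB hN k ε hε
  rcases Nat.eq_zero_or_pos k with hk | hk
  · subst hk
    refine ⟨0, fun i _ => ?_⟩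
    have h1 : (range i.factorial).filter (fun n => ¬ Good i 0 n) = ∅ := by
      apply Finset.filter_eq_empty_iff.2
      intro n _ h
      exact h ⟨∅, le_rfl, fun b hb => absurd hb (Finset.notMem_empty b)⟩
    rw [h1, Finset.card_empty, Nat.cast_zero]
    positivity
  · have hkR : (0 : ℝ) < k := by exact_mod_cast hk
    obtain ⟨x, hx⟩ := hN k hk (ε / 2) (by positivity)
    have hBx := fun β => hB k hk β x (ε / (2 * k)) (by positivity)
    choose Lf hLf using hBx
    set β := be Lf with hβ
    set L := β k with hL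
    have hLj : ∀ j < k, Lf (β j) ≤ L := fun j hj =>
      (be_L Lf j).trans (be_mono Lf (Nat.succ_le_of_lt hj))
    refine ⟨2 ^ L + 1, fun i hi => ?_⟩
    set M := i.factorial with hM
    have hMpos : 0 < M := Nat.factorial_pos i
    have hMR : (0 : ℝ) < M := by exact_mod_cast hMpos
    have hdv : ∀ p : ℕ, p.Prime → p < 2 ^ L → p * (p - 1) ∣ M := fun p hp h =>
      dvd_fact hp (by omega)
    set Xs : ℕ → Finset ℕ := fun j => (range M).filter (fun n => ∀ p, p.Prime → SplitAll k p →
      x ≤ p → p < 2 ^ (Lf (β j)) →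
      ¬ (β j ≤ n % (p - 1) ∧ 4 * k * (k + 1) * (n % (p - 1) + 1) ≤ Nat.log 2 p)) with hXs
    set Y : Finset ℕ := (range M).filter (fun n => ∃ p, p.Prime ∧ x ≤ p ∧ p < 2 ^ L ∧
      4 * k * (k + 1) * (n % (p - 1) + 1) ≤ Nat.log 2 p ∧ ¬ Generic k p n) with hY
    have hXc : ∀ j < k, ((Xs j).card : ℝ) ≤ ε / (2 * k) * M := fun j hj =>
      hLf (β j) M hMpos fun p hp h =>
        (dvd_mul_left (p - 1) p).trans (hdv p hp (h.trans_le (Nat.pow_le_pow_right (by norm_num)
          (hLj j hj))))
    have hYc : (Y.card : ℝ) ≤ ε / 2 * M := hx L M hMpos hdv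
    have hsub : (range M).filter (fun n => ¬ Good i k n) ⊆ (range k).biUnion Xs ∪ Y := by
      intro n hn
      rw [Finset.mem_filter] at hn
      by_contra hc
      rw [Finset.mem_union, Finset.mem_biUnion] at hc
      push Not at hc
      obtain ⟨hc1, hc2⟩ := hc
      apply hn.2
      have hgen : ∀ p : ℕ, p.Prime → x ≤ p → p < 2 ^ L →
          4 * k * (k + 1) * (n % (p - 1) + 1) ≤ Nat.log 2 p → Generic k p n := by
        intro p h1 h2 h3 h4
        by_contra h5
        exact hc2 (by rw [hY, Finset.mem_filter]; exact ⟨hn.1, p, h1, h2, h3, h4, h5⟩)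
      have hex : ∀ j, j < k → ∃ p : ℕ, p.Prime ∧ SplitAll k p ∧ x ≤ p ∧ p < 2 ^ (Lf (β j)) ∧
          β j ≤ n % (p - 1) ∧ 4 * k * (k + 1) * (n % (p - 1) + 1) ≤ Nat.log 2 p := by
        intro j hj
        have h1 := hc1 j (Finset.mem_range.2 hj)
        rw [hXs, Finset.mem_filter] at h1
        push Not at h1
        obtain ⟨p, h2, h3, h4, h5, h6, h7⟩ := h1 hn.1
        exact ⟨p, h2, h3, h4, h5, h6, h7⟩
      choose! pp h1 h2 h3 h4 h5 h6 using hex
      have hb : ∀ j < k, n % (pp j - 1) < Lf (β j) := by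
        intro j hj
        have e1 : Nat.log 2 (pp j) < Lf (β j) :=
          Nat.log_lt_of_lt_pow (h1 j hj).ne_zero (h4 j hj)
        have e2 := h6 j hj
        have e3 : n % (pp j - 1) + 1 ≤ 4 * k * (k + 1) * (n % (pp j - 1) + 1) :=
          Nat.le_mul_of_pos_left _ (by positivity)
        omega
      have hlt : ∀ j j' : ℕ, j < j' → j' < k → n % (pp j - 1) < n % (pp j' - 1) := by
        intro j j' hjj hj'
        have e1 := hb j (hjj.trans hj')
        have e2 := be_L Lf j
        have e3 : be Lf (j + 1) ≤ be Lf j' := be_mono Lf hjj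
        have e4 := h5 j' hj'
        rw [hβ] at e1 e4
        omega
      refine ⟨(range k).image fun j => n % (pp j - 1), ?_, ?_⟩
      · rw [Finset.card_image_of_injOn, Finset.card_range]
        intro j hj j' hj' he
        rw [Finset.coe_range, Set.mem_Iio] at hj hj'
        rcases lt_trichotomy j j' with h | h | h
        · exact absurd he (hlt j j' h hj').ne
        · exact h
        · exact absurd he.symm (hlt j' j h hj).ne
      · intro b hbm
        rw [Finset.mem_image] at hbm
        obtain ⟨j, hj, rfl⟩ := hbm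
        rw [Finset.mem_range] at hj
        have hpL : pp j < 2 ^ L :=
          (h4 j hj).trans_le (Nat.pow_le_pow_right (by norm_num) (hLj j hj))
        refine ⟨pp j, by omega, h1 j hj, h2 j hj, h6 j hj, Nat.mod_modEq _ _, ?_⟩
        exact hgen (pp j) (h1 j hj) (h3 j hj) hpL (h6 j hj)
    have hcard : (((range M).filter (fun n => ¬ Good i k n)).card : ℝ) ≤
        (∑ j ∈ range k, ((Xs j).card : ℝ)) + Y.card := by
      have e1 := (Finset.card_le_card hsub).trans (Finset.card_union_le _ _)
      have e2 : ((range k).biUnion Xs).card ≤ ∑ j ∈ range k, (Xs j).card :=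
        Finset.card_biUnion_le
      have e3 := e1.trans (Nat.add_le_add_right e2 _)
      exact_mod_cast e3
    refine hcard.trans ?_
    have e4 : (∑ j ∈ range k, ((Xs j).card : ℝ)) ≤ ∑ j ∈ range k, ε / (2 * k) * M :=
      Finset.sum_le_sum fun j hj => hXc j (Finset.mem_range.1 hj)
    rw [Finset.sum_const, Finset.card_range, nsmul_eq_mul] at e4
    have e5 : (k : ℝ) * (ε / (2 * k) * M) = ε / 2 * M := by field_simp
    rw [e5] at e4
    calc (∑ j ∈ range k, ((Xs j).card : ℝ)) + Y.card ≤ ε / 2 * M + ε / 2 * M :=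
          add_le_add e4 hYc
      _ = ε * M := by ring

end Pool.Agent.N63.US
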