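import Pool.Agent.N63.US.Stm
import Pool.Agent.H692R2.USS.W1

set_option autoImplicit false

/-!
# Universal Skolem sets of density one: the thresholds and the set `S` are computable (task B1)
-/

namespace Pool.Agent.N63.US

open Finset Pool.Agent.H692R2.USS
open Pool.Agent.Helper446.RE (cp_le cp_eq cp_comp cp_lt computable_of_graph)
open scoped Classical

namespace B1pAux

/-- the condition defining `iSeq` -/
def Q (k i : ℕ) : Prop :=
  (k + 1) * ((Finset.range i.factorial).filter (fun n => ¬ Good i k n)).card ≤ i.factorial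

theorem fact_computable : Computable Nat.factorial := by
  have h := Computable.nat_rec (f := fun n : ℕ => n) (g := fun _ : ℕ => (1 : ℕ))
    (h := fun (_ : ℕ) (y : ℕ × ℕ) => (y.1 + 1) * y.2) Computable.id (Computable.const 1)
    (Primrec.nat_mul.to_comp.comp
      (Computable.succ.comp (Computable.fst.comp Computable.snd))
      (Computable.snd.comp Computable.snd))
  refine h.of_eq fun n => ?_
  induction n with
  | zero => rfl
  | succ n ih =>
    rw [Nat.factorial_succ, ← ih]

@[fun_prop] theorem cfact {α : Type} [Primcodable α] {f : α → ℕ} (hf : Computable f) :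
    Computable (fun x => (f x).factorial) := fact_computable.comp hf

theorem q_computable : ComputablePred (fun x : ℕ × ℕ => Q x.1 x.2) := by
  unfold Q
  refine cp_le (Pool.Agent.Helper446.RE.cmul (by fun_prop) ?_) (by fun_prop)
  refine ccount (p := fun (x : ℕ × ℕ) n => ¬ Good x.2 x.1 n) ?_ (by fun_prop)
  exact ComputablePred.not (cp_comp good_computable
    (f := fun x : (ℕ × ℕ) × ℕ => (x.1.2, x.1.1, x.2)) (by fun_prop))

theorem q_exists (h : GoodDensity) (k : ℕ) : ∃ i, Q k i := by
  have hk : (0 : ℝ) < (k : ℝ) + 1 := by positivity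
  obtain ⟨i, hi⟩ := h k (1 / ((k : ℝ) + 1)) (by positivity)
  refine ⟨i, ?_⟩
  have h1 := hi i le_rfl
  unfold Q
  rw [div_mul_eq_mul_div, one_mul, le_div_iff₀ hk] at h1
  have h2 : (((k + 1) * ((Finset.range i.factorial).filter (fun n => ¬ Good i k n)).card : ℕ) : ℝ) ≤
      ((i.factorial : ℕ) : ℝ) := by
    push_cast
    linarith
  exact_mod_cast h2

theorem iSeq_spec (h : GoodDensity) (k : ℕ) : Q k (iSeq k) :=
  Nat.sInf_mem (s := {i | Q k i}) (q_exists h k)

theorem iSeq_min (k j : ℕ) (hj : j < iSeq k) : ¬ Q k j :=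
  fun hq => Nat.notMem_of_lt_sInf (s := {i | Q k i}) hj hq

theorem iSeq_iff (h : GoodDensity) (k i : ℕ) : iSeq k = i ↔ Q k i ∧ ∀ j < i, ¬ Q k j := by
  constructor
  · rintro rfl
    exact ⟨iSeq_spec h k, iSeq_min k⟩
  · rintro ⟨h1, h2⟩
    rcases lt_trichotomy (iSeq k) i with hlt | heq | hgt
    · exact absurd (iSeq_spec h k) (h2 _ hlt)
    · exact heq
    · exact absurd h1 (iSeq_min k i hgt)

theorem iSeq_computable (h : GoodDensity) : Computable iSeq := by
  refine computable_of_graph (ComputablePred.to_re ?_)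
  refine ComputablePred.of_eq (p := fun x : ℕ × ℕ => Q x.1 x.2 ∧ ∀ j < x.2, ¬ Q x.1 j) ?_ ?_
  · refine cp_and q_computable ?_
    refine cp_all (p := fun (x : ℕ × ℕ) j => ¬ Q x.1 j) ?_ (by fun_prop)
    exact ComputablePred.not (cp_comp q_computable
      (f := fun x : (ℕ × ℕ) × ℕ => (x.1.1, x.2)) (by fun_prop))
  · intro x
    exact (iSeq_iff h x.1 x.2).symm

theorem nSeq_computable (h : GoodDensity) : Computable NSeq := by
  have hi := iSeq_computable h
  have h2 := Computable.nat_rec (f := fun n : ℕ => n) (g := fun _ : ℕ => (0 : ℕ))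
    (h := fun (_ : ℕ) (y : ℕ × ℕ) =>
      (y.1 + 1) * (y.2 + (iSeq y.1).factorial + (iSeq (y.1 + 1)).factorial + 1))
    Computable.id (Computable.const 0) (by
      have h3 : Computable (fun z : ℕ × (ℕ × ℕ) => (z.2.1 + 1) *
          (z.2.2 + (iSeq z.2.1).factorial + (iSeq (z.2.1 + 1)).factorial + 1)) := by fun_prop
      exact h3)
  refine h2.of_eq fun n => ?_
  induction n with
  | zero => rfl
  | succ n ih =>
    show (n + 1) * (_ + (iSeq n).factorial + (iSeq (n + 1)).factorial + 1) = _
    rw [ih]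
    rfl

theorem lev_iff (n m : ℕ) : lev n = m ↔
    m ≤ n ∧ (m = 0 ∨ NSeq m ≤ n) ∧ ∀ j < n + 1, j ≤ m ∨ ¬ NSeq j ≤ n := by
  unfold lev
  rw [Nat.findGreatest_eq_iff]
  refine and_congr_right fun _ => and_congr ?_ ?_
  · tauto
  · constructor
    · intro h j hj
      rcases Nat.lt_or_ge m j with h1 | h1
      · exact Or.inr (h h1 (by omega))
      · exact Or.inl h1
    · intro h j hj hj2
      rcases h j (by omega) with h1 | h1
      · omega
      · exact h1

theorem lev_computable (h : GoodDensity) : Computable lev := by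
  have hN := nSeq_computable h
  refine computable_of_graph (ComputablePred.to_re ?_)
  refine ComputablePred.of_eq (p := fun x : ℕ × ℕ => x.2 ≤ x.1 ∧ (x.2 = 0 ∨ NSeq x.2 ≤ x.1) ∧
    ∀ j < x.1 + 1, j ≤ x.2 ∨ ¬ NSeq j ≤ x.1) ?_ ?_
  · refine cp_and (cp_le (by fun_prop) (by fun_prop)) (cp_and (cp_or (cp_eq (by fun_prop)
      (by fun_prop)) (cp_le (by fun_prop) (by fun_prop))) ?_)
    refine cp_all (p := fun (x : ℕ × ℕ) j => j ≤ x.2 ∨ ¬ NSeq j ≤ x.1) ?_ (by fun_prop)
    exact cp_or (cp_le (by fun_prop) (by fun_prop))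
      (ComputablePred.not (cp_le (by fun_prop) (by fun_prop)))
  · intro x
    exact (lev_iff x.1 x.2).symm

theorem s_computable (h : GoodDensity) : ComputablePred (fun n : ℕ => n ∈ S) := by
  have h1 := iSeq_computable h
  have h2 := lev_computable h
  exact cp_comp good_computable (f := fun n : ℕ => (iSeq (lev n), lev n, n)) (by fun_prop)

end B1pAux

/-- Task B1: the thresholds `NSeq` and the set `S` are computable. -/
theorem b1 : Pool.Agent.TH997.US.B1 := fun h =>
  ⟨B1pAux.nSeq_computable h, B1pAux.s_computable h⟩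

end Pool.Agent.N63.US
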