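import Pool.Agent.N63.US.Stm
import Pool.Agent.TH997.US.Sem

set_option autoImplicit false

/-!
# Project USK (helper63), part B2 (helper227): the set `S` has density one
-/

namespace Pool.Agent.N63.US

open Polynomial Finset Pool.Agent.H692R2.USS
open scoped Classical

namespace B2pAux

theorem generic_congr {k p n m : ℕ} (h : (p : ℤ) ∣ (m : ℤ) - n) :
    Generic k p n → Generic k p m := by
  intro hg f hf hd hc hdvd
  apply hg f hf hd hc
  have h1 : (p : ℤ) ∣ f.eval (m : ℤ) - f.eval (n : ℤ) := h.trans (Polynomial.sub_dvd_eval_sub _ _ f)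
  have h2 := dvd_sub hdvd h1
  rwa [sub_sub_cancel] at h2

theorem pair_congr {k p n m b : ℕ} (h : (p : ℤ) ∣ (m : ℤ) - n) (h2 : n ≡ m [MOD p - 1]) :
    GoodPair k p n b → GoodPair k p m b := by
  rintro ⟨h3, h4, h5, h6, h7⟩
  exact ⟨h3, h4, h5, h6.trans h2, generic_congr h h7⟩

theorem good_add (i k n : ℕ) : Good i k (n + i.factorial) ↔ Good i k n := by
  have key : ∀ p ≤ i, p.Prime → (p : ℤ) ∣ ((n + i.factorial : ℕ) : ℤ) - n ∧
      n ≡ n + i.factorial [MOD p - 1] := by
    intro p hp hpp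
    constructor
    · have h1 : p ∣ i.factorial := (Nat.Prime.dvd_factorial hpp).2 hp
      push_cast
      rw [add_sub_cancel_left]
      exact_mod_cast h1
    · have h1 : (p - 1) ∣ i.factorial :=
        Nat.dvd_factorial (by have := hpp.two_le; omega) (by omega)
      exact ((Nat.modEq_zero_iff_dvd.2 h1).symm.add_left n)
  unfold Good
  constructor
  · rintro ⟨B, hB, h⟩
    refine ⟨B, hB, fun b hb => ?_⟩
    obtain ⟨p, hp, hg⟩ := h b hb
    obtain ⟨h1, h2⟩ := key p hp hg.1
    refine ⟨p, hp, pair_congr ?_ h2.symm hg⟩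
    have h3 := (dvd_neg (α := ℤ)).2 h1
    rwa [neg_sub] at h3
  · rintro ⟨B, hB, h⟩
    refine ⟨B, hB, fun b hb => ?_⟩
    obtain ⟨p, hp, hg⟩ := h b hb
    obtain ⟨h1, h2⟩ := key p hp hg.1
    exact ⟨p, hp, pair_congr h1 h2 hg⟩

/-- the exceptional set of level `k` -/
def Ex (k n : ℕ) : Prop := ¬ Good (iSeq k) k n

theorem ex_add (k n q : ℕ) : Ex k (q * (iSeq k).factorial + n) ↔ Ex k n := by
  induction q with
  | zero => rw [Nat.zero_mul, Nat.zero_add]
  | succ q ih =>
    have e : (q + 1) * (iSeq k).factorial + n = (q * (iSeq k).factorial + n) +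
      (iSeq k).factorial := by ring
    rw [e]
    unfold Ex at ih ⊢
    rw [good_add, ih]

theorem dens (h : GoodDensity) (k : ℕ) :
    (k + 1) * Nat.count (Ex k) (iSeq k).factorial ≤ (iSeq k).factorial := by
  have hne : {i | (k + 1) * ((Finset.range i.factorial).filter (fun n => ¬ Good i k n)).card ≤
      i.factorial}.Nonempty := by
    obtain ⟨i0, hi⟩ := h k (1 / ((k : ℝ) + 1)) (by positivity)
    refine ⟨i0, ?_⟩
    have h1 := hi i0 le_rfl
    have hk : (0 : ℝ) < (k : ℝ) + 1 := by positivity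
    rw [one_div, inv_mul_eq_div, le_div_iff₀ hk] at h1
    show (k + 1) * ((Finset.range i0.factorial).filter (fun n => ¬ Good i0 k n)).card ≤
      i0.factorial
    have h2 : ((((k + 1) * ((Finset.range i0.factorial).filter
        (fun n => ¬ Good i0 k n)).card : ℕ)) : ℝ) ≤ ((i0.factorial : ℕ) : ℝ) := by
      push_cast
      linarith
    exact_mod_cast h2
  have h2 := Nat.sInf_mem hne
  have h3 : (k + 1) * ((Finset.range (iSeq k).factorial).filter
      (fun n => ¬ Good (iSeq k) k n)).card ≤ (iSeq k).factorial := h2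
  rw [Nat.count_eq_card_filter_range]
  convert h3 using 3
  ext n
  rw [Finset.mem_filter, Finset.mem_filter]
  rfl

theorem count_mul (k q : ℕ) : Nat.count (Ex k) (q * (iSeq k).factorial) =
    q * Nat.count (Ex k) (iSeq k).factorial := by
  induction q with
  | zero => rw [Nat.zero_mul, Nat.zero_mul, Nat.count_zero]
  | succ q ih =>
    rw [Nat.add_mul, Nat.one_mul, Nat.count_add, ih, Nat.add_mul, Nat.one_mul]
    congr 1
    rw [Nat.count_eq_card_filter_range, Nat.count_eq_card_filter_range]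
    congr 1
    ext n
    rw [Finset.mem_filter, Finset.mem_filter, ex_add]

theorem count_le (h : GoodDensity) (k N : ℕ) :
    (k + 1) * Nat.count (Ex k) N ≤ N + (iSeq k).factorial := by
  set M := (iSeq k).factorial with hM
  have hM0 : 0 < M := Nat.factorial_pos _
  have h1 : N ≤ (N / M + 1) * M := by
    have := Nat.div_add_mod N M
    have h2 := Nat.mod_lt N hM0
    rw [Nat.add_mul, Nat.one_mul, Nat.mul_comm (N / M) M]
    omega
  have h2 : Nat.count (Ex k) N ≤ (N / M + 1) * Nat.count (Ex k) M := by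
    rw [hM, ← count_mul]
    exact Nat.count_monotone _ h1
  calc (k + 1) * Nat.count (Ex k) N ≤ (k + 1) * ((N / M + 1) * Nat.count (Ex k) M) :=
        Nat.mul_le_mul_left _ h2
    _ = (N / M + 1) * ((k + 1) * Nat.count (Ex k) M) := by ring
    _ ≤ (N / M + 1) * M := Nat.mul_le_mul_left _ (dens h k)
    _ ≤ N + M := by
        rw [Nat.add_mul, Nat.one_mul]
        exact Nat.add_le_add_right (Nat.div_mul_le_self N M) M

theorem NSeq_lev (n : ℕ) : NSeq (lev n) ≤ n :=
  Nat.findGreatest_spec (P := fun k => NSeq k ≤ n) (Nat.zero_le n) (Nat.zero_le n)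

theorem lt_NSeq (n : ℕ) : n < NSeq (lev n + 1) := by
  by_cases h : lev n + 1 ≤ n
  · have h1 := Nat.findGreatest_is_greatest (P := fun k => NSeq k ≤ n) (n := n)
      (k := lev n + 1) (Nat.lt_succ_self _) h
    exact not_le.1 h1
  · exact (not_le.1 h).trans_le (Pool.Agent.TH997.US.le_NSeq _)

theorem NSeq_mono {a b : ℕ} (h : a ≤ b) : NSeq a ≤ NSeq b :=
  monotone_nat_of_le_succ (fun k => (Pool.Agent.TH997.US.NSeq_succ_lt k).le) h

theorem main_le (h : GoodDensity) {N : ℕ} (hN : NSeq 1 ≤ N) :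
    lev N * ((Finset.range N).filter (fun n => n ∉ S)).card ≤ 5 * N := by
  have hK := Pool.Agent.TH997.US.le_lev hN
  obtain ⟨j, hj⟩ : ∃ j, lev N = j + 1 := ⟨lev N - 1, by omega⟩
  have hNK : NSeq (j + 1) ≤ N := hj ▸ NSeq_lev N
  have hsub : (Finset.range N).filter (fun n => n ∉ S) ⊆ (Finset.range (NSeq j)) ∪
      ((Finset.range (NSeq (j + 1))).filter (Ex j) ∪ (Finset.range N).filter (Ex (j + 1))) := by
    intro n hn
    rw [Finset.mem_filter, Finset.mem_range] at hn
    obtain ⟨hnN, hnS⟩ := hn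
    have hE : Ex (lev n) n := hnS
    have hle : lev n ≤ j + 1 := by
      rw [← hj]
      exact Pool.Agent.TH997.US.le_lev ((NSeq_lev n).trans hnN.le)
    rw [Finset.mem_union, Finset.mem_union, Finset.mem_filter, Finset.mem_filter,
      Finset.mem_range, Finset.mem_range, Finset.mem_range]
    by_cases h1 : lev n = j + 1
    · right; right
      exact ⟨hnN, h1 ▸ hE⟩
    · by_cases h2 : lev n = j
      · right; left
        refine ⟨?_, h2 ▸ hE⟩
        have h3 := lt_NSeq n
        rwa [h2] at h3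
      · left
        exact (lt_NSeq n).trans_le (NSeq_mono (by omega))
  have hc := (Finset.card_le_card hsub).trans ((Finset.card_union_le _ _).trans
    (Nat.add_le_add_left (Finset.card_union_le _ _) _))
  rw [Finset.card_range] at hc
  have c1 := count_le h j (NSeq (j + 1))
  have c2 := count_le h (j + 1) N
  rw [Nat.count_eq_card_filter_range] at c1 c2
  have e1 : NSeq (j + 1) = (j + 1) * (NSeq j + (iSeq j).factorial + (iSeq (j + 1)).factorial + 1) :=
    rfl
  have d1 : (j + 1) * NSeq j ≤ N := by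
    refine le_trans ?_ hNK
    rw [e1]
    exact Nat.mul_le_mul_left _ (by omega)
  have d2 : (iSeq j).factorial ≤ N := by
    refine le_trans ?_ hNK
    rw [e1]
    refine le_trans ?_ (Nat.le_mul_of_pos_left _ (Nat.succ_pos j))
    omega
  have d3 : (iSeq (j + 1)).factorial ≤ N := by
    refine le_trans ?_ hNK
    rw [e1]
    refine le_trans ?_ (Nat.le_mul_of_pos_left _ (Nat.succ_pos j))
    omega
  rw [hj]
  set A := ((Finset.range N).filter (fun n => n ∉ S)).card
  set B := ((Finset.range (NSeq (j + 1))).filter (Ex j)).card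
  set C := ((Finset.range N).filter (Ex (j + 1))).card
  have c3 : (j + 1) * C ≤ (j + 1 + 1) * C := Nat.mul_le_mul_right _ (by omega)
  calc (j + 1) * A ≤ (j + 1) * (NSeq j + (B + C)) := Nat.mul_le_mul_left _ hc
    _ = (j + 1) * NSeq j + ((j + 1) * B + (j + 1) * C) := by ring
    _ ≤ 5 * N := by omega

end B2pAux

theorem b2 : Pool.Agent.TH997.US.B2 := by
  intro h
  rw [Metric.tendsto_atTop]
  intro ε hε
  obtain ⟨k, hk⟩ := exists_nat_gt (5 / ε)
  refine ⟨NSeq (k + 1), fun N hN => ?_⟩
  have h1 := B2pAux.main_le h (N := N) ((B2pAux.NSeq_mono (by omega)).trans hN)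
  have h2 := Pool.Agent.TH997.US.le_lev hN
  have hN1 : k + 1 ≤ N := (Pool.Agent.TH997.US.le_NSeq _).trans hN
  have hN0 : (0 : ℝ) < N := by
    have : 0 < N := by omega
    exact_mod_cast this
  rw [Real.dist_eq, sub_zero, abs_of_nonneg (by positivity), div_lt_iff₀ hN0]
  have h3 : (lev N : ℝ) * (((Finset.range N).filter (fun n => n ∉ S)).card : ℝ) ≤ 5 * N := by
    exact_mod_cast h1
  have h4 : (k : ℝ) < lev N := by exact_mod_cast h2
  have hk0 : (0 : ℝ) < k := lt_trans (by positivity) hk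
  rw [div_lt_iff₀ hε] at hk
  set A : ℝ := (((Finset.range N).filter (fun n => n ∉ S)).card : ℝ)
  have hA : 0 ≤ A := by positivity
  have hl : (0 : ℝ) < lev N := hk0.trans h4
  have h5 : 5 < lev N * ε := hk.trans (mul_lt_mul_of_pos_right h4 hε)
  by_contra hcon
  rw [not_lt] at hcon
  have h6 : (lev N : ℝ) * (ε * N) ≤ lev N * A := mul_le_mul_of_nonneg_left hcon hl.le
  have h7 : 5 * (N : ℝ) < lev N * ε * N := mul_lt_mul_of_pos_right h5 hN0
  linarith

end Pool.Agent.N63.US
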