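import Pool.Agent.N63.US.Stm

/-!
# Project USK: few residue classes modulo a prime are non-generic
-/

set_option autoImplicit false

namespace Pool.Agent.N63.US

namespace BadClPAux

open Polynomial Finset

/-- the polynomial with the coefficients `c` -/
noncomputable def pol {k : ℕ} (c : Fin (k + 1) → ℤ) : ℤ[X] := ∑ i, C (c i) * X ^ (i : ℕ)

lemma pol_coeff {k : ℕ} (c : Fin (k + 1) → ℤ) (i : Fin (k + 1)) : (pol c).coeff i = c i := by
  classical
  rw [pol, finsetSum_coeff, Finset.sum_eq_single i]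
  · simp
  · intro j _ hj
    rw [coeff_C_mul_X_pow, if_neg]
    intro h
    exact hj (Fin.ext h.symm)
  · simp

lemma pol_natDegree {k : ℕ} (c : Fin (k + 1) → ℤ) : (pol c).natDegree ≤ k := by
  refine natDegree_sum_le_of_forall_le _ _ fun i _ => ?_
  refine (natDegree_C_mul_X_pow_le _ _).trans ?_
  have := i.2
  omega

lemma pol_of {k : ℕ} (f : ℤ[X]) (hf : f.natDegree ≤ k) :
    pol (fun i : Fin (k + 1) => f.coeff i) = f := by
  rw [pol]
  conv_rhs => rw [f.as_sum_range_C_mul_X_pow' (Nat.lt_succ_of_le hf)]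
  rw [← Fin.sum_univ_eq_sum_range (fun i => C (f.coeff i) * X ^ i)]

lemma roots_card {k p : ℕ} [Fact p.Prime] (c : Fin (k + 1) → ℤ) (i : Fin (k + 1))
    (hi : ¬ (p : ℤ) ∣ c i) :
    ((range p).filter (fun r : ℕ => (p : ℤ) ∣ (pol c).eval (r : ℤ))).card ≤ k := by
  classical
  set g : (ZMod p)[X] := (pol c).map (Int.castRingHom (ZMod p)) with hg
  have hg0 : g ≠ 0 := by
    intro h
    apply hi
    have h1 : g.coeff i = 0 := by rw [h, coeff_zero]
    rw [hg, coeff_map, pol_coeff] at h1
    exact (ZMod.intCast_zmod_eq_zero_iff_dvd _ _).1 (by simpa using h1)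
  have h2 : ((range p).filter (fun r : ℕ => (p : ℤ) ∣ (pol c).eval (r : ℤ))).card ≤
      g.roots.toFinset.card := by
    refine Finset.card_le_card_of_injOn (fun r : ℕ => (r : ZMod p)) ?_ ?_
    · intro r hr
      have hr' := (Finset.mem_filter.1 hr).2
      simp only [Finset.mem_coe, Multiset.mem_toFinset, mem_roots hg0, IsRoot.def]
      have h3 : g.eval ((r : ℤ) : ZMod p) = (((pol c).eval (r : ℤ) : ℤ) : ZMod p) := by
        rw [hg, eval_map, eval₂_at_intCast]
        rfl
      rw [← Int.cast_natCast, h3]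
      exact (ZMod.intCast_zmod_eq_zero_iff_dvd _ _).2 hr'
    · intro a ha b hb hab
      have ha' := Finset.mem_range.1 (Finset.mem_filter.1 ha).1
      have hb' := Finset.mem_range.1 (Finset.mem_filter.1 hb).1
      have h4 := (ZMod.natCast_eq_natCast_iff a b p).1 hab
      exact Nat.ModEq.eq_of_lt_of_lt h4 ha' hb'
  calc _ ≤ g.roots.toFinset.card := h2
    _ ≤ Multiset.card g.roots := Multiset.toFinset_card_le _
    _ ≤ g.natDegree := card_roots' g
    _ ≤ (pol c).natDegree := natDegree_map_le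
    _ ≤ k := pol_natDegree c

end BadClPAux

open Polynomial Finset Pool.Agent.H692R2.USS BadClPAux in
theorem badCl : BadCl := by
  classical
  intro k p hk hp
  have : Fact p.Prime := ⟨hp⟩
  set H : ℕ := 2 ^ (Nat.log 2 p / (4 * (k + 1))) with hH
  have hH1 : H ^ (4 * (k + 1)) ≤ p := by
    rw [hH, ← pow_mul]
    calc 2 ^ (Nat.log 2 p / (4 * (k + 1)) * (4 * (k + 1))) ≤ 2 ^ Nat.log 2 p :=
          Nat.pow_le_pow_right (by norm_num) (Nat.div_mul_le_self _ _)
      _ ≤ p := Nat.pow_log_le_self 2 hp.ne_zero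
  have hHpos : 1 ≤ H := Nat.one_le_two_pow
  have hHp : H ≤ p := by
    calc H = H ^ 1 := (pow_one H).symm
      _ ≤ H ^ (4 * (k + 1)) := Nat.pow_le_pow_right hHpos (by omega)
      _ ≤ p := hH1
  set V : Finset (Fin (k + 1) → ℤ) :=
    Fintype.piFinset (fun _ => Finset.Ioo (-(H : ℤ)) (H : ℤ)) with hV
  refine ⟨(V.filter (fun c => c ≠ 0)).biUnion
    (fun c => (range p).filter (fun r : ℕ => (p : ℤ) ∣ (pol c).eval (r : ℤ))), ?_, ?_, ?_⟩
  · intro r hr
    obtain ⟨c, _, hc⟩ := Finset.mem_biUnion.1 hr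
    exact (Finset.mem_filter.1 hc).1
  · have h1 : ((V.filter (fun c => c ≠ 0)).biUnion
        (fun c => (range p).filter (fun r : ℕ => (p : ℤ) ∣ (pol c).eval (r : ℤ)))).card ≤
        (2 * H) ^ (k + 1) * k := by
      refine (Finset.card_biUnion_le_card_mul _ _ k ?_).trans ?_
      · intro c hc
        obtain ⟨hcV, hc0⟩ := Finset.mem_filter.1 hc
        obtain ⟨i, hi⟩ := Function.ne_iff.1 hc0
        have hi2 := Fintype.mem_piFinset.1 hcV i
        rw [Finset.mem_Ioo] at hi2
        refine roots_card c i fun hdvd => hi ?_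
        refine Int.eq_zero_of_abs_lt_dvd hdvd ?_
        rw [abs_lt]
        have : (H : ℤ) ≤ p := by exact_mod_cast hHp
        constructor <;> linarith [hi2.1, hi2.2]
      · refine Nat.mul_le_mul_right k ((Finset.card_filter_le _ _).trans ?_)
        rw [hV, Fintype.card_piFinset]
        simp only [Finset.prod_const, Finset.card_univ, Fintype.card_fin]
        refine Nat.pow_le_pow_left ?_ _
        rw [Int.card_Ioo]
        omega
    have h2 : ((H : ℝ) ^ (k + 1)) ≤ (p : ℝ) ^ (1 / 4 : ℝ) := by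
      have h3 : (((H : ℝ) ^ (k + 1)) ^ (4 : ℕ)) ≤ p := by
        rw [← pow_mul]
        have h4 : (H : ℝ) ^ (4 * (k + 1)) ≤ p := by exact_mod_cast hH1
        rwa [mul_comm 4 (k + 1)] at h4
      have h5 : ((H : ℝ) ^ (k + 1)) = ((((H : ℝ) ^ (k + 1)) ^ (4 : ℕ))) ^ (1 / 4 : ℝ) := by
        rw [← Real.rpow_natCast ((H : ℝ) ^ (k + 1)) 4, ← Real.rpow_mul (by positivity)]
        norm_num
      rw [h5]
      exact Real.rpow_le_rpow (by positivity) h3 (by norm_num)
    calc ((((V.filter (fun c => c ≠ 0)).biUnion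
        (fun c => (range p).filter (fun r : ℕ => (p : ℤ) ∣ (pol c).eval (r : ℤ)))).card : ℕ) : ℝ)
        ≤ (((2 * H) ^ (k + 1) * k : ℕ) : ℝ) := by exact_mod_cast h1
      _ = k * 2 ^ (k + 1) * (H : ℝ) ^ (k + 1) := by
          push_cast
          rw [mul_pow]
          ring
      _ ≤ k * 2 ^ (k + 1) * (p : ℝ) ^ (1 / 4 : ℝ) :=
          mul_le_mul_of_nonneg_left h2 (by positivity)
  · intro n hn
    unfold Generic at hn
    push Not at hn
    obtain ⟨f, hf0, hfd, hfc, hfp⟩ := hn
    rw [Finset.mem_biUnion]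
    refine ⟨fun i => f.coeff i, ?_, ?_⟩
    · rw [Finset.mem_filter]
      refine ⟨?_, ?_⟩
      · rw [hV, Fintype.mem_piFinset]
        intro i
        rw [Finset.mem_Ioo, ← abs_lt]
        have := hfc i
        rw [hH]
        push_cast
        exact this
      · intro h
        apply hf0
        rw [← pol_of f hfd, pol]
        refine Finset.sum_eq_zero fun i _ => ?_
        have := congrFun h i
        simp only [Pi.zero_apply] at this
        rw [this, C_0, zero_mul]
    · rw [Finset.mem_filter, Finset.mem_range]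
      refine ⟨Nat.mod_lt _ hp.pos, ?_⟩
      rw [pol_of f hfd]
      have h1 : (p : ℤ) ∣ ((n % p : ℕ) : ℤ) - n := by
        rw [Int.natCast_mod]
        have h5 : ((n : ℤ) % p) - n = -(p * ((n : ℤ) / p)) := by
          have := Int.emod_add_mul_ediv (n : ℤ) p
          linarith
        rw [h5]
        exact Dvd.dvd.neg_right (dvd_mul_right _ _)
      have h2 := h1.trans (f.sub_dvd_eval_sub ((n % p : ℕ) : ℤ) n)
      have h3 := dvd_add h2 hfp
      simpa using h3

end Pool.Agent.N63.US
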