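import Pool.Agent.N63.US.Stm

set_option autoImplicit false

/-!
# The gcd sum over pairs of primes as a triple sum (helper40)
-/

namespace Pool.Agent.N63.US

open Polynomial Finset Pool.Agent.H692R2.USS Pool.Agent.Erdos456.SM
open scoped Classical

namespace ConvPAux

lemma sum_blocks (h : ℕ → ℝ) (L : ℕ) :
    ∑ l ∈ range L, ∑ g ∈ Ico (2 ^ l : ℕ) (2 ^ (l + 1)), h g = ∑ g ∈ Ico 1 (2 ^ L), h g := by
  induction L with
  | zero => simp
  | succ L ih =>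
    rw [Finset.sum_range_succ, ih, Finset.sum_Ico_consecutive]
    · exact Nat.one_le_two_pow
    · exact Nat.pow_le_pow_right (by norm_num) (by omega)

/-- the pairs of primes -/
noncomputable def SA (L : ℕ) : Finset (Σ _ : ℕ, ℕ) :=
  ((Finset.range (2 ^ L)).filter Nat.Prime).sigma (fun p' => (Finset.range p').filter Nat.Prime)

/-- the triples -/
noncomputable def SB (L : ℕ) : Finset (Σ _ : ℕ, Σ _ : ℕ, ℕ) :=
  (Ico 1 (2 ^ L)).sigma (fun g => ((Ico 1 (2 ^ L)).filter (fun k' => (g * k' + 1).Prime)).sigma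
    (fun k' => (Ico 1 k').filter (fun k => (g * k + 1).Prime)))

noncomputable def G (x : Σ _ : ℕ, Σ _ : ℕ, ℕ) : ℝ :=
  (1 / (x.1 : ℝ)) * (1 / ((x.2.2 : ℝ) * x.2.1 * ((Nat.log 2 (x.1 * x.2.1 + 1) : ℝ) + 1)))

noncomputable def F (x : Σ _ : ℕ, ℕ) : ℝ :=
  ((Nat.gcd (x.2 - 1) (x.1 - 1) : ℕ) : ℝ) /
      (((x.2 : ℝ) - 1) * ((x.1 : ℝ) - 1) * ((Nat.log 2 x.1 : ℝ) + 1))

def mp (x : Σ _ : ℕ, ℕ) : Σ _ : ℕ, Σ _ : ℕ, ℕ :=
  ⟨Nat.gcd (x.2 - 1) (x.1 - 1), (x.1 - 1) / Nat.gcd (x.2 - 1) (x.1 - 1),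
    (x.2 - 1) / Nat.gcd (x.2 - 1) (x.1 - 1)⟩

lemma lhs_eq (L : ℕ) : ∑ p' ∈ (Finset.range (2 ^ L)).filter Nat.Prime,
    ∑ p ∈ (Finset.range p').filter Nat.Prime,
    ((Nat.gcd (p - 1) (p' - 1) : ℕ) : ℝ) /
      (((p : ℝ) - 1) * ((p' : ℝ) - 1) * ((Nat.log 2 p' : ℝ) + 1)) = ∑ x ∈ SA L, F x := by
  unfold SA F
  rw [Finset.sum_sigma]

lemma rhs_eq (L : ℕ) : ∑ g ∈ Ico (1 : ℕ) (2 ^ L), (1 / (g : ℝ)) * UU L g = ∑ x ∈ SB L, G x := by
  unfold SB G UU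
  rw [Finset.sum_sigma]
  apply Finset.sum_congr rfl
  intro g _
  rw [Finset.sum_sigma, Finset.mul_sum]
  apply Finset.sum_congr rfl
  intro k' _
  rw [Finset.mul_sum]

lemma facts {L : ℕ} {x : Σ _ : ℕ, ℕ} (hx : x ∈ SA L) :
    x.1.Prime ∧ x.2.Prime ∧ x.2 < x.1 ∧ x.1 < 2 ^ L ∧ 1 ≤ (mp x).1 ∧
      x.1 = (mp x).1 * (mp x).2.1 + 1 ∧ x.2 = (mp x).1 * (mp x).2.2 + 1 := by
  unfold SA at hx
  rw [Finset.mem_sigma, Finset.mem_filter, Finset.mem_filter, Finset.mem_range, Finset.mem_range] at hx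
  obtain ⟨⟨h1, h2⟩, h3, h4⟩ := hx
  have h5 := h2.one_lt
  have h6 := h4.one_lt
  refine ⟨h2, h4, h3, h1, Nat.gcd_pos_of_pos_left _ (by omega), ?_, ?_⟩
  · unfold mp
    simp only
    rw [Nat.mul_div_cancel' (Nat.gcd_dvd_right _ _)]
    omega
  · unfold mp
    simp only
    rw [Nat.mul_div_cancel' (Nat.gcd_dvd_left _ _)]
    omega

lemma mp_mem {L : ℕ} {x : Σ _ : ℕ, ℕ} (hx : x ∈ SA L) : mp x ∈ SB L := by
  obtain ⟨h1, h2, h3, h4, h5, h6, h7⟩ := facts hx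
  generalize hy : mp x = y at *
  obtain ⟨g, k', k⟩ := y
  simp only at h5 h6 h7
  have e1 := h1.one_lt
  have e2 := h2.one_lt
  have hk0 : 1 ≤ k := by
    rcases Nat.eq_zero_or_pos k with h | h
    · rw [h] at h7; omega
    · exact h
  have hk0' : 1 ≤ k' := by
    rcases Nat.eq_zero_or_pos k' with h | h
    · rw [h] at h6; omega
    · exact h
  have hkk : k < k' := by
    by_contra hcon
    push Not at hcon
    have := Nat.mul_le_mul_left g hcon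
    omega
  have hg : g < 2 ^ L := by nlinarith
  have hk' : k' < 2 ^ L := by nlinarith
  unfold SB
  rw [Finset.mem_sigma, Finset.mem_sigma, Finset.mem_filter, Finset.mem_filter, Finset.mem_Ico,
    Finset.mem_Ico, Finset.mem_Ico]
  simp only
  rw [← h6, ← h7]
  exact ⟨⟨h5, hg⟩, ⟨⟨hk0', hk'⟩, h1⟩, ⟨hk0, hkk⟩, h2⟩

lemma F_eq {L : ℕ} {x : Σ _ : ℕ, ℕ} (hx : x ∈ SA L) : F x = G (mp x) := by
  obtain ⟨h1, h2, h3, h4, h5, h6, h7⟩ := facts hx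
  have hF : F x = ((mp x).1 : ℝ) / (((x.2 : ℝ) - 1) * ((x.1 : ℝ) - 1) * ((Nat.log 2 x.1 : ℝ) + 1)) := rfl
  rw [hF]
  generalize hy : mp x = y at *
  obtain ⟨g, k', k⟩ := y
  simp only at h5 h6 h7
  unfold G
  simp only
  rw [← h6]
  have e1 : (x.1 : ℝ) - 1 = g * k' := by
    have : (x.1 : ℝ) = g * k' + 1 := by exact_mod_cast h6
    linarith
  have e2 : (x.2 : ℝ) - 1 = g * k := by
    have : (x.2 : ℝ) = g * k + 1 := by exact_mod_cast h7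
    linarith
  have hg : (g : ℝ) ≠ 0 := by
    have : 0 < g := h5
    exact_mod_cast this.ne'
  rw [e1, e2]
  generalize ((Nat.log 2 x.1 : ℝ) + 1) = l
  rcases eq_or_ne (k : ℝ) 0 with hk | hk
  · rw [hk]; simp
  rcases eq_or_ne (k' : ℝ) 0 with hk' | hk'
  · rw [hk']; simp
  rcases eq_or_ne l 0 with hl | hl
  · rw [hl]; simp
  field_simp

lemma G_nonneg (y : Σ _ : ℕ, Σ _ : ℕ, ℕ) : 0 ≤ G y := by
  unfold G
  positivity

end ConvPAux

open ConvPAux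

theorem conv : Conv := by
  intro L
  rw [sum_blocks (fun g => (1 / (g : ℝ)) * UU L g), lhs_eq, rhs_eq]
  rw [Finset.sum_congr rfl (fun x hx => F_eq hx)]
  have hinj : Set.InjOn mp (SA L : Set (Σ _ : ℕ, ℕ)) := by
    intro x hx y hy hxy
    obtain ⟨-, -, -, -, -, h6, h7⟩ := facts (Finset.mem_coe.1 hx)
    obtain ⟨-, -, -, -, -, h6', h7'⟩ := facts (Finset.mem_coe.1 hy)
    rw [hxy, ← h6'] at h6
    rw [hxy, ← h7'] at h7
    obtain ⟨a, b⟩ := x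
    obtain ⟨c, d⟩ := y
    simp only at h6 h7
    rw [h6, h7]
  rw [← Finset.sum_image (f := G) hinj]
  apply Finset.sum_le_sum_of_subset_of_nonneg
  · intro y hy
    rw [Finset.mem_image] at hy
    obtain ⟨x, hx, rfl⟩ := hy
    exact mp_mem hx
  · intro y _ _
    exact G_nonneg y

end Pool.Agent.N63.US
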