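import Pool.Agent.N63.US.D0p

set_option autoImplicit false

/-!
# Universal Skolem sets: the key lemma in local form

A good `n` for which `u n` is divisible by all primes up to `i` lies in a class on which all
components vanish, unless these components take only large nonzero values.
-/

namespace Pool.Agent.N63.US

open Polynomial Finset Pool.Agent.H692R2.USS Pool.Agent.TH997.US
open scoped Classical

namespace D0VAux

open D0pAux

/-- all components vanish at `b`, if `p` divides `u n` -/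
theorem vanish (hDa : Da) (hDc : Dc) {u : ℕ → ℤ} {k : ℕ} {g s t q w : ℤ[X]} {rr : ℤ}
    {m D p0 T : ℕ} {v : ℕ → ℕ → ℤ} {n p b : ℕ} (hcd : CD u k g s t q w rr m D p0 T v)
    (hp : GoodPair k p n b) (hkp : k < p) (hu : (p : ℤ) ∣ u n) : ∀ j < m, v j b = 0 := by
  obtain ⟨hpp, hsp, hlog, hmod, hgen⟩ := hp
  have hper : ∀ j < m, (p : ℤ) ∣ v j b - v j n := fun j hj =>
    per_modeq (hDa k p g s t rr (v j) hpp hsp hkp hcd.monic hcd.deg hcd.coeff hcd.coeff0 hcd.bez
      hcd.rr0 hcd.rrk (hcd.ann j hj)) hmod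
  obtain ⟨f, hf1, hf2, hf3⟩ := hDc m (fun j => v j b)
  have hev : (p : ℤ) ∣ f.eval (n : ℤ) := by
    rw [hf2 n]
    have h1 : ∑ j ∈ Finset.range m, (n.choose j : ℤ) * v j b =
        ∑ j ∈ Finset.range m, (n.choose j : ℤ) * (v j b - v j n) +
          ∑ j ∈ Finset.range m, (n.choose j : ℤ) * v j n := by
      rw [← Finset.sum_add_distrib]
      refine Finset.sum_congr rfl fun j _ => ?_
      ring
    rw [h1, ← hcd.dec n]
    refine Dvd.dvd.mul_left (dvd_add ?_ (hu.mul_left _)) _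
    refine Finset.dvd_sum fun j hj => ?_
    exact Dvd.dvd.mul_left (hper j (Finset.mem_range.1 hj)) _
  have hm1 : 1 ≤ m := hcd.m1
  have hsum : ∑ j ∈ Finset.range m, (m.factorial : ℤ) * |v j b| < 2 ^ (k * (b + 1)) := by
    have h1 : ∑ j ∈ Finset.range m, ((m : ℤ) * m.factorial * |v j b|) <
        ∑ j ∈ Finset.range m, (2 : ℤ) ^ (k * (b + 1)) :=
      Finset.sum_lt_sum_of_nonempty ⟨0, Finset.mem_range.2 (by omega)⟩
        (fun j hj => hcd.gro j (Finset.mem_range.1 hj) b)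
    rw [Finset.sum_const, Finset.card_range, nsmul_eq_mul] at h1
    have h2 : ∑ j ∈ Finset.range m, ((m : ℤ) * m.factorial * |v j b|) =
        (m : ℤ) * ∑ j ∈ Finset.range m, (m.factorial : ℤ) * |v j b| := by
      rw [Finset.mul_sum]
      refine Finset.sum_congr rfl fun j _ => ?_
      ring
    rw [h2] at h1
    exact lt_of_mul_lt_mul_left h1 (by positivity)
  have hexp : k * (b + 1) ≤ Nat.log 2 p / (4 * (k + 1)) := by
    rw [Nat.le_div_iff_mul_le (by positivity)]
    calc k * (b + 1) * (4 * (k + 1)) = 4 * k * (k + 1) * (b + 1) := by ring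
      _ ≤ Nat.log 2 p := hlog
  have hf0 : f = 0 := by
    by_contra hne
    refine hgen f hne (hf1.trans (by have := hcd.mle; omega)) (fun i => ?_) hev
    refine lt_of_le_of_lt (hf3 i) (lt_of_lt_of_le hsum ?_)
    exact_mod_cast Nat.pow_le_pow_right (by norm_num) hexp
  refine bin_zero (m := m) (x := fun j => v j b) (fun n' => ?_)
  have h1 := hf2 n'
  rw [hf0, eval_zero] at h1
  have h2 : (m.factorial : ℤ) ≠ 0 := by exact_mod_cast m.factorial_ne_zero
  rcases mul_eq_zero.1 h1.symm with h3 | h3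
  · exact absurd h3 h2
  · exact h3

end D0VAux

/-- the key lemma in local form -/
theorem d0V (hC9 : C9) (hDa : Da) (hDb : Db) (hDc : Dc) (u : ℕ → ℤ) (k : ℕ)
    (g s t q w : ℤ[X]) (rr : ℤ) (m D p0 T : ℕ) (v : ℕ → ℕ → ℤ) (i n : ℕ)
    (hcd : CD u k g s t q w rr m D p0 T v) (hgood : Good i k n)
    (hu : ∀ p ≤ i, p.Prime → (p : ℤ) ∣ u n) :
    ∀ j < m, ∀ l, v j (n % T + T * l) = 0 ∨ (3 : ℤ) ^ (k / 2) ≤ |v j (n % T + T * l)| := by
  intro j hj
  obtain ⟨B, hBk, hB⟩ := hgood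
  have hm1 := hcd.m1
  have hmk := hcd.mle
  have hkp : ∀ {p b : ℕ}, GoodPair k p n b → k < p := by
    intro p b hp
    have h1 := hp.2.2.1
    have h2 : Nat.log 2 p < p := Nat.log_lt_self 2 hp.1.ne_zero
    have h3 : k ≤ 4 * k * (k + 1) * (b + 1) := by nlinarith [Nat.zero_le (k * k), Nat.zero_le (k * b), Nat.zero_le (k * k * b)]
    omega
  have hb0 : ∀ b ∈ B, ∀ j < m, v j b = 0 := by
    intro b hb
    obtain ⟨p, hpi, hp⟩ := hB b hb
    exact D0VAux.vanish hDa hDc hcd hp (hkp hp) (hu p hpi hp.1)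
  have hT : ∀ b ∈ B, b = n % T + T * (b / T) := by
    intro b hb
    obtain ⟨p, _, hp⟩ := hB b hb
    have h1 : T ∣ p - 1 := hDb k p T hp.1 hp.2.1 (hkp hp) hcd.T1 hcd.Tk
    have h2 : b ≡ n [MOD T] := hp.2.2.2.1.of_dvd h1
    unfold Nat.ModEq at h2
    rw [← h2, Nat.mod_add_div]
  refine hC9 g q w p0 T (v j) (n % T) k (B.image (fun b => b / T)) hcd.monic hcd.p0p hcd.p03
    hcd.T1 hcd.per (hcd.ann j hj) ?_ ?_
  · rw [Finset.card_image_of_injOn]
    · exact hBk
    · intro b hb b' hb' h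
      simp only at h
      rw [hT b hb, hT b' hb', h]
  · intro l hl
    obtain ⟨b, hb, rfl⟩ := Finset.mem_image.1 hl
    rw [← hT b hb]
    exact hb0 b hb j hj

end Pool.Agent.N63.US
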