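import Pool.Agent.TH997.US.Stm

set_option autoImplicit false

/-!
# The key lemma (D0): a good `n` with `u n = 0` gives many zeros (by helper543)
-/

namespace Pool.Agent.N63.US

open Polynomial Finset Pool.Agent.H692R2.USS Pool.Agent.TH997.US

namespace D0pAux

/-- Periodicity modulo `p` transfers to congruent indices. -/
theorem per_modeq {p : ℕ} {x : ℕ → ℤ} (h : ∀ n, (p : ℤ) ∣ x (n + (p - 1)) - x n) {a b : ℕ}
    (hab : a ≡ b [MOD p - 1]) : (p : ℤ) ∣ x a - x b := by
  have key : ∀ c n : ℕ, (p : ℤ) ∣ x (n + (p - 1) * c) - x n := by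
    intro c
    induction c with
    | zero => intro n; simp
    | succ c ih =>
      intro n
      have h1 := ih n
      have h2 := h (n + (p - 1) * c)
      rw [show n + (p - 1) * (c + 1) = n + (p - 1) * c + (p - 1) by ring]
      have h3 := dvd_add h2 h1
      rw [sub_add_sub_cancel] at h3
      exact h3
  have h1 : ∀ a : ℕ, (p : ℤ) ∣ x a - x (a % (p - 1)) := by
    intro a
    have h2 := key (a / (p - 1)) (a % (p - 1))
    rw [Nat.mod_add_div] at h2
    exact h2
  have h2 := dvd_sub (h1 a) (h1 b)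
  unfold Nat.ModEq at hab
  rw [hab, sub_sub_sub_cancel_right] at h2
  exact h2

/-- Binomial sums which vanish identically have zero coefficients. -/
theorem bin_zero {m : ℕ} {x : ℕ → ℤ}
    (h : ∀ n : ℕ, ∑ j ∈ Finset.range m, (n.choose j : ℤ) * x j = 0) : ∀ j < m, x j = 0 := by
  intro j
  induction j using Nat.strong_induction_on with
  | _ j ih =>
    intro hj
    have h1 := h j
    rw [Finset.sum_eq_single j] at h1
    · simpa using h1
    · intro i hi hij
      rcases Nat.lt_or_gt_of_ne hij with h2 | h2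
      · rw [ih i h2 (by simpa using hi), mul_zero]
      · rw [Nat.choose_eq_zero_of_lt h2]; simp
    · intro h2
      exact absurd (Finset.mem_range.2 hj) h2

/-- Step 1: all components vanish at `b`. -/
theorem vanish (hDa : Da) (hDc : Dc) {u : ℕ → ℤ} {k : ℕ} {g s t q w : ℤ[X]} {rr : ℤ}
    {m D p0 T : ℕ} {v : ℕ → ℕ → ℤ} {n p b : ℕ} (hcd : CD u k g s t q w rr m D p0 T v)
    (hp : GoodPair k p n b) (hkp : k < p) (hu : u n = 0) : ∀ j < m, v j b = 0 := by
  obtain ⟨hpp, hsp, hlog, hmod, hgen⟩ := hp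
  have hper : ∀ j < m, (p : ℤ) ∣ v j b - v j n := fun j hj =>
    per_modeq (hDa k p g s t rr (v j) hpp hsp hkp hcd.monic hcd.deg hcd.coeff hcd.coeff0 hcd.bez
      hcd.rr0 hcd.rrk (hcd.ann j hj)) hmod
  obtain ⟨f, hf1, hf2, hf3⟩ := hDc m (fun j => v j b)
  have hev : (p : ℤ) ∣ f.eval (n : ℤ) := by
    rw [hf2 n]
    have h1 : ∑ j ∈ Finset.range m, (n.choose j : ℤ) * v j b =
        ∑ j ∈ Finset.range m, (n.choose j : ℤ) * (v j b - v j n) +
          ∑ j ∈ Finset.range m, (n.choose j : ℤ) * v j n := by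
      rw [← Finset.sum_add_distrib]
      refine Finset.sum_congr rfl fun j _ => ?_
      ring
    rw [h1, ← hcd.dec n, hu, mul_zero, add_zero]
    refine Dvd.dvd.mul_left ?_ _
    refine Finset.dvd_sum fun j hj => ?_
    exact Dvd.dvd.mul_left (hper j (Finset.mem_range.1 hj)) _
  have hm1 : 1 ≤ m := hcd.m1
  have hsum : ∑ j ∈ Finset.range m, (m.factorial : ℤ) * |v j b| < 2 ^ (k * (b + 1)) := by
    have h1 : ∑ j ∈ Finset.range m, ((m : ℤ) * m.factorial * |v j b|) <
        ∑ j ∈ Finset.range m, (2 : ℤ) ^ (k * (b + 1)) :=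
      Finset.sum_lt_sum_of_nonempty ⟨0, Finset.mem_range.2 (by omega)⟩
        (fun j hj => hcd.gro j (Finset.mem_range.1 hj) b)
    rw [Finset.sum_const, Finset.card_range, nsmul_eq_mul] at h1
    have h2 : ∑ j ∈ Finset.range m, ((m : ℤ) * m.factorial * |v j b|) =
        (m : ℤ) * ∑ j ∈ Finset.range m, (m.factorial : ℤ) * |v j b| := by
      rw [Finset.mul_sum]
      refine Finset.sum_congr rfl fun j _ => ?_
      ring
    rw [h2] at h1
    exact lt_of_mul_lt_mul_left h1 (by positivity)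
  have hexp : k * (b + 1) ≤ Nat.log 2 p / (4 * (k + 1)) := by
    rw [Nat.le_div_iff_mul_le (by positivity)]
    calc k * (b + 1) * (4 * (k + 1)) = 4 * k * (k + 1) * (b + 1) := by ring
      _ ≤ Nat.log 2 p := hlog
  have hf0 : f = 0 := by
    by_contra hne
    refine hgen f hne (hf1.trans (by have := hcd.mle; omega)) (fun i => ?_) hev
    refine lt_of_le_of_lt (hf3 i) (lt_of_lt_of_le hsum ?_)
    exact_mod_cast Nat.pow_le_pow_right (by norm_num) hexp
  refine bin_zero (m := m) (x := fun j => v j b) (fun n' => ?_)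
  have h1 := hf2 n'
  rw [hf0, eval_zero] at h1
  have h2 : (m.factorial : ℤ) ≠ 0 := by exact_mod_cast m.factorial_ne_zero
  rcases mul_eq_zero.1 h1.symm with h3 | h3
  · exact absurd h3 h2
  · exact h3

end D0pAux

open D0pAux in
/-- The key lemma. -/
theorem d0 : Pool.Agent.TH997.US.D0 := by
  intro hC9 hDa hDb hDc u k g s t q w rr m D p0 T v i n hcd hgood hu j hj
  obtain ⟨B, hBk, hB⟩ := hgood
  have hm1 := hcd.m1
  have hmk := hcd.mle
  have hkp : ∀ {p b : ℕ}, GoodPair k p n b → k < p := by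
    intro p b hp
    have h1 := hp.2.2.1
    have h2 : Nat.log 2 p < p := Nat.log_lt_self 2 hp.1.ne_zero
    have h3 : k ≤ 4 * k * (k + 1) * (b + 1) := by nlinarith [Nat.zero_le (k * k), Nat.zero_le (k * b), Nat.zero_le (k * k * b)]
    omega
  have hb0 : ∀ b ∈ B, ∀ j < m, v j b = 0 := by
    intro b hb
    obtain ⟨p, _, hp⟩ := hB b hb
    exact vanish hDa hDc hcd hp (hkp hp) hu
  have hT : ∀ b ∈ B, b = n % T + T * (b / T) := by
    intro b hb
    obtain ⟨p, _, hp⟩ := hB b hb
    have h1 : T ∣ p - 1 := hDb k p T hp.1 hp.2.1 (hkp hp) hcd.T1 hcd.Tk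
    have h2 : b ≡ n [MOD T] := hp.2.2.2.1.of_dvd h1
    unfold Nat.ModEq at h2
    rw [← h2, Nat.mod_add_div]
  refine hC9 g q w p0 T (v j) (n % T) k (B.image (fun b => b / T)) hcd.monic hcd.p0p hcd.p03
    hcd.T1 hcd.per (hcd.ann j hj) ?_ ?_
  · rw [Finset.card_image_of_injOn]
    · exact hBk
    · intro b hb b' hb' h
      simp only at h
      rw [hT b hb, hT b' hb', h]
  · intro l hl
    obtain ⟨b, hb, rfl⟩ := Finset.mem_image.1 hl
    rw [← hT b hb]
    exact hb0 b hb j hj

end Pool.Agent.N63.US
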