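import Pool.Agent.TH997.US.Stm

set_option autoImplicit false

/-!
# Periodicity modulo a prime which splits all small polynomials (helper40)
-/

namespace Pool.Agent.N63.US

open Polynomial Finset Pool.Agent.H692R2.USS

theorem da : Pool.Agent.TH997.US.Da := by
  intro k p g s t rr v hp hsplit hkp hgm hdeg hcoeff h0 hbez hrr hrrk hann n
  have : Fact p.Prime := ⟨hp⟩
  have hsmall : ∀ z : ℤ, z ≠ 0 → |z| ≤ k → ((z : ZMod p)) ≠ 0 := by
    intro z hz hzk h
    rw [ZMod.intCast_zmod_eq_zero_iff_dvd] at h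
    have h1 := Int.le_of_dvd (abs_pos.2 hz) ((dvd_abs _ _).2 h)
    have h2 : (k : ℤ) < p := by exact_mod_cast hkp
    omega
  obtain ⟨φ, hφ⟩ : ∃ φ : ℤ →+* ZMod p, φ = Int.castRingHom (ZMod p) := ⟨_, rfl⟩
  obtain ⟨gb, hgb⟩ : ∃ gb : (ZMod p)[X], gb = g.map φ := ⟨_, rfl⟩
  have hs : gb.Splits := by
    rw [hgb, hφ]
    exact hsplit g hgm hdeg hcoeff
  have hgb0 : gb ≠ 0 := by
    rw [hgb]
    exact (hgm.map φ).ne_zero
  have hrr' : (rr : ZMod p) ≠ 0 := hsmall rr hrr hrrk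
  have hsep : gb.Separable := by
    have h1 := congrArg (Polynomial.map φ) hbez
    rw [Polynomial.map_add, Polynomial.map_mul, Polynomial.map_mul, ← derivative_map, map_C, ← hgb] at h1
    have h2 : φ rr = (rr : ZMod p) := by rw [hφ]; rfl
    rw [h2] at h1
    refine ⟨C ((rr : ZMod p)⁻¹) * s.map φ, C ((rr : ZMod p)⁻¹) * t.map φ, ?_⟩
    calc C ((rr : ZMod p)⁻¹) * s.map φ * gb + C ((rr : ZMod p)⁻¹) * t.map φ * derivative gb
        = C ((rr : ZMod p)⁻¹) * (s.map φ * gb + t.map φ * derivative gb) := by ring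
      _ = 1 := by rw [h1, ← C_mul, inv_mul_cancel₀ hrr', C_1]
  have hdvd : gb ∣ X ^ (p - 1) - 1 := by
    apply hs.dvd_of_roots_le_roots hgb0
    rw [Multiset.le_iff_subset (nodup_roots hsep)]
    intro a ha
    have ha' := (mem_roots hgb0).1 ha
    have hXne : (X ^ (p - 1) - 1 : (ZMod p)[X]) ≠ 0 := by
      have h1 := X_pow_sub_C_ne_zero (R := ZMod p) (n := p - 1) (Nat.sub_pos_of_lt hp.one_lt) 1
      rwa [C_1] at h1
    rw [mem_roots hXne]
    have ha0 : a ≠ 0 := by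
      intro h
      rw [h, IsRoot.def, hgb, ← coeff_zero_eq_eval_zero, coeff_map] at ha'
      have h2 : φ (g.coeff 0) = ((g.coeff 0 : ℤ) : ZMod p) := by rw [hφ]; rfl
      rw [h2] at ha'
      exact hsmall _ h0 (hcoeff 0) ha'
    rw [IsRoot.def, eval_sub, eval_pow, eval_X, eval_one, ZMod.pow_card_sub_one_eq_one ha0, sub_self]
  have h1 := (hann.map φ)
  rw [← hgb] at h1
  have h2 := h1.of_dvd hdvd
  unfold Ann at h2
  have h3 := congrFun h2 n
  rw [map_sub, map_pow, aeval_X, map_one, LinearMap.sub_apply, Pi.sub_apply, E_pow_apply] at h3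
  have h4 : ((v (n + (p - 1)) - v n : ℤ) : ZMod p) = 0 := by
    rw [Int.cast_sub]
    have h5 : ∀ z : ℤ, φ z = (z : ZMod p) := fun z => by rw [hφ]; rfl
    rw [← h5, ← h5]
    exact h3
  exact (ZMod.intCast_zmod_eq_zero_iff_dvd _ p).1 h4

end Pool.Agent.N63.US
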