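import Pool.Agent.TH997.US.Stm

/-!
# Project USK (helper63), task Db: if `X ^ T - 1` splits modulo `p` then `T` divides `p - 1`
-/

set_option autoImplicit false

namespace Pool.Agent.N63.US

open Polynomial Pool.Agent.H692R2.USS

namespace DbPAux

theorem core (p T : ℕ) [Fact p.Prime] (hT0 : T ≠ 0) (hT : (T : ZMod p) ≠ 0)
    (h1 : (X ^ T - 1 : (ZMod p)[X]).Splits) : T ∣ p - 1 := by
  classical
  have : NeZero T := ⟨hT0⟩
  have h2 : (X ^ T - 1 : (ZMod p)[X]).Separable := X_pow_sub_one_separable_iff.2 hT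
  have h3 : (nthRoots T (1 : ZMod p)).card = T := by
    unfold nthRoots
    rw [C_1, ← h1.natDegree_eq_card_roots]
    have h4 := natDegree_X_pow_sub_C (n := T) (r := (1 : ZMod p))
    rwa [C_1] at h4
  have h4 : (nthRoots T (1 : ZMod p)).Nodup := by
    unfold nthRoots
    rw [C_1]
    exact nodup_roots h2
  have h5 : Nat.card (rootsOfUnity T (ZMod p)) = T := by
    rw [Nat.card_congr (rootsOfUnityEquivNthRoots (ZMod p) T)]
    have h6 : Nat.card {x // x ∈ nthRoots T (1 : ZMod p)} =
        Nat.card {x // x ∈ (nthRoots T (1 : ZMod p)).toFinset} :=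
      Nat.card_congr (Equiv.subtypeEquivRight fun x => Multiset.mem_toFinset.symm)
    rw [h6, Nat.card_eq_fintype_card, Fintype.card_coe, Multiset.toFinset_card_of_nodup h4, h3]
  have h6 := Subgroup.card_subgroup_dvd_card (rootsOfUnity T (ZMod p))
  rw [h5, Nat.card_eq_fintype_card, ZMod.card_units] at h6
  exact h6

end DbPAux

theorem db : Pool.Agent.TH997.US.Db := by
  intro k p T hp hs hkp hT1 hTk
  have : Fact p.Prime := ⟨hp⟩
  have hk1 : 1 ≤ k := hT1.trans hTk
  have hT0 : T ≠ 0 := by omega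
  have hm : (X ^ T - 1 : ℤ[X]).Monic := by
    have h := monic_X_pow_sub_C (1 : ℤ) hT0
    rwa [C_1] at h
  have hd : (X ^ T - 1 : ℤ[X]).natDegree = T := by
    have h := natDegree_X_pow_sub_C (n := T) (r := (1 : ℤ))
    rwa [C_1] at h
  have hc : ∀ i, |(X ^ T - 1 : ℤ[X]).coeff i| ≤ k := by
    intro i
    have h : (1 : ℤ) ≤ k := by exact_mod_cast hk1
    rw [coeff_sub, coeff_X_pow, coeff_one]
    split_ifs
    · simp
    · simp only [sub_zero, abs_one]
      exact h
    · simp only [zero_sub, abs_neg, abs_one]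
      exact h
    · simp
  have h1 := hs _ hm (by rw [hd]; exact hTk) hc
  rw [Polynomial.map_sub, Polynomial.map_pow, map_X, Polynomial.map_one] at h1
  refine DbPAux.core p T hT0 ?_ h1
  rw [Ne, ZMod.natCast_eq_zero_iff]
  intro h
  have := Nat.le_of_dvd (by omega) h
  omega

end Pool.Agent.N63.US
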