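import Pool.Agent.TH997.US.Stm

set_option autoImplicit false

/-!
# Part Dc: integer polynomial with the values `m! ∑ C(n,j) x_j` (helper953)
-/

namespace Pool.Agent.N63.US

open Polynomial Finset

namespace DcPAux

lemma coeff_sum (j : ℕ) : ∀ N : ℕ, ∑ i ∈ range N, |(descPochhammer ℤ j).coeff i| ≤
    (j.factorial : ℤ) := by
  induction j with
  | zero =>
    intro N
    rw [descPochhammer_zero]
    cases N with
    | zero => simp
    | succ N =>
      rw [sum_range_succ']
      simp [coeff_one]
  | succ j ih =>
    intro N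
    cases N with
    | zero => simp
    | succ N =>
      have e : descPochhammer ℤ (j + 1) = descPochhammer ℤ j * (X - C (j : ℤ)) := by
        rw [descPochhammer_succ_right]
        simp
      have h0 : |(descPochhammer ℤ (j + 1)).coeff 0| = (j : ℤ) * |(descPochhammer ℤ j).coeff 0| := by
        rw [e, mul_coeff_zero, abs_mul]
        simp [mul_comm]
      have h1 : ∀ i, |(descPochhammer ℤ (j + 1)).coeff (i + 1)| ≤
          |(descPochhammer ℤ j).coeff i| + (j : ℤ) * |(descPochhammer ℤ j).coeff (i + 1)| := by
        intro i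
        rw [e, coeff_mul_X_sub_C]
        refine (abs_sub _ _).trans ?_
        rw [abs_mul, Nat.abs_cast, mul_comm (j : ℤ)]
      rw [sum_range_succ', h0]
      have h2 : ∑ i ∈ range N, |(descPochhammer ℤ (j + 1)).coeff (i + 1)| ≤
          ∑ i ∈ range N, |(descPochhammer ℤ j).coeff i| +
            (j : ℤ) * ∑ i ∈ range N, |(descPochhammer ℤ j).coeff (i + 1)| := by
        rw [mul_sum, ← sum_add_distrib]
        exact sum_le_sum fun i _ => h1 i
      have h3 := ih N
      have h4 := ih (N + 1)
      rw [sum_range_succ'] at h4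
      have h5 := mul_le_mul_of_nonneg_left h4 (Int.natCast_nonneg j)
      rw [Nat.factorial_succ]
      push_cast
      linarith

lemma coeff_le (j i : ℕ) : |(descPochhammer ℤ j).coeff i| ≤ (j.factorial : ℤ) :=
  (single_le_sum (f := fun i => |(descPochhammer ℤ j).coeff i|) (fun i _ => abs_nonneg _)
    (mem_range.2 (Nat.lt_succ_self i))).trans (coeff_sum j (i + 1))

end DcPAux

open DcPAux in
theorem dc : Pool.Agent.TH997.US.Dc := by
  intro m x
  have hdiv : ∀ j ∈ range m, ((m.factorial / j.factorial : ℕ) : ℤ) * (j.factorial : ℤ) =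
      (m.factorial : ℤ) := by
    intro j hj
    rw [← Nat.cast_mul, Nat.div_mul_cancel (Nat.factorial_dvd_factorial (mem_range.1 hj).le)]
  refine ⟨∑ j ∈ range m, C (((m.factorial / j.factorial : ℕ) : ℤ) * x j) * descPochhammer ℤ j,
    ?_, ?_, ?_⟩
  · refine natDegree_sum_le_of_forall_le _ _ fun j hj => ?_
    refine (natDegree_C_mul_le _ _).trans ?_
    rw [descPochhammer_natDegree]
    have := mem_range.1 hj
    omega
  · intro n
    rw [eval_finset_sum, mul_sum]
    refine sum_congr rfl fun j hj => ?_
    rw [eval_mul, eval_C, descPochhammer_eval_eq_descFactorial,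
      Nat.descFactorial_eq_factorial_mul_choose, Nat.cast_mul, ← hdiv j hj]
    ring
  · intro i
    rw [finset_sum_coeff]
    refine (abs_sum_le_sum_abs _ _).trans (sum_le_sum fun j hj => ?_)
    rw [coeff_C_mul, abs_mul, abs_mul, Nat.abs_cast]
    calc ((m.factorial / j.factorial : ℕ) : ℤ) * |x j| * |(descPochhammer ℤ j).coeff i| ≤
        ((m.factorial / j.factorial : ℕ) : ℤ) * |x j| * (j.factorial : ℤ) :=
          mul_le_mul_of_nonneg_left (coeff_le j i) (by positivity)
      _ = (m.factorial : ℤ) * |x j| := by rw [← hdiv j hj]; ring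

end Pool.Agent.N63.US
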