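import Pool.Agent.N63.US.Stm

/-!
# The radical of a monic integer polynomial, with a Bezout identity
-/

set_option autoImplicit false

namespace Pool.Agent.N63.US

open Polynomial

namespace E1aPAux

/-- a squarefree monic integer polynomial stays squarefree over the rational numbers -/
theorem squarefree_map {g : ℤ[X]} (hg : g.Monic) (hs : Squarefree g) :
    Squarefree (g.map (algebraMap ℤ ℚ)) := by
  intro d hd
  have hd1 : d ∣ g.map (algebraMap ℤ ℚ) := (dvd_mul_right d d).trans hd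
  obtain ⟨d', hd'⟩ := IsIntegrallyClosed.eq_map_mul_C_of_dvd ℚ hg hd1
  have hg0 : g.map (algebraMap ℤ ℚ) ≠ 0 := (hg.map _).ne_zero
  have hd0 : d ≠ 0 := by
    rintro rfl
    rw [zero_dvd_iff] at hd1
    exact hg0 hd1
  have hlc : d.leadingCoeff ≠ 0 := leadingCoeff_ne_zero.2 hd0
  have hm : (d'.map (algebraMap ℤ ℚ)).Monic := by
    have h1 : (d'.map (algebraMap ℤ ℚ) * C d.leadingCoeff).leadingCoeff = d.leadingCoeff := by
      rw [hd']
    rw [leadingCoeff_mul, leadingCoeff_C] at h1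
    exact mul_right_cancel₀ hlc (by rw [h1, one_mul])
  have hinj : Function.Injective (algebraMap ℤ ℚ) := (algebraMap ℤ ℚ).injective_int
  have hm' : d'.Monic := Polynomial.monic_of_injective hinj hm
  have h2 : (d' * d').map (algebraMap ℤ ℚ) ∣ g.map (algebraMap ℤ ℚ) := by
    refine dvd_trans ?_ hd
    have e : d * d = (d' * d').map (algebraMap ℤ ℚ) * (C d.leadingCoeff * C d.leadingCoeff) := by
      calc d * d = (d'.map (algebraMap ℤ ℚ) * C d.leadingCoeff) *
            (d'.map (algebraMap ℤ ℚ) * C d.leadingCoeff) := by rw [hd']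
        _ = _ := by rw [Polynomial.map_mul]; ring
    exact Dvd.intro _ e.symm
  have h3 : d' * d' ∣ g := (Polynomial.map_dvd_map _ hinj (hm'.mul hm')).1 h2
  have h4 : d' = 1 := by
    have := hs d' h3
    exact hm'.eq_one_of_isUnit this
  rw [h4, Polynomial.map_one, one_mul] at hd'
  rw [← hd']
  exact Polynomial.isUnit_C.2 (isUnit_iff_ne_zero.2 hlc)

/-- the radical -/
theorem exists_rad (χ : ℤ[X]) (hχ : χ.Monic) :
    ∃ (g : ℤ[X]) (m : ℕ), g.Monic ∧ Squarefree g ∧ g ∣ χ ∧ 1 ≤ m ∧ χ ∣ g ^ m := by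
  classical
  have hex : ∃ d : ℕ, ∃ (g : ℤ[X]) (m : ℕ), g.natDegree = d ∧ g.Monic ∧ g ∣ χ ∧ 1 ≤ m ∧ χ ∣ g ^ m :=
    ⟨χ.natDegree, χ, 1, rfl, hχ, dvd_rfl, le_rfl, by rw [pow_one]⟩
  obtain ⟨g, m, hdeg, hg, hgχ, hm, hχg⟩ := Nat.find_spec hex
  refine ⟨g, m, hg, ?_, hgχ, hm, hχg⟩
  intro a ha
  obtain ⟨b, hb⟩ := ha
  -- leading coefficients
  have hl : a.leadingCoeff * a.leadingCoeff * b.leadingCoeff = 1 := by
    rw [← leadingCoeff_mul, ← leadingCoeff_mul, ← hb]
    exact hg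
  have hu : IsUnit a.leadingCoeff := IsUnit.of_mul_eq_one (a.leadingCoeff * b.leadingCoeff)
    (by rw [← mul_assoc]; exact hl)
  by_contra hna
  have hmin : ∀ g' : ℤ[X], g'.Monic → g' ∣ χ → g ∣ g' ^ 2 → g.natDegree ≤ g'.natDegree := by
    intro g' h1 h2 h3
    rw [hdeg]
    apply Nat.find_min' hex
    refine ⟨g', 2 * m, rfl, h1, h2, by omega, hχg.trans ?_⟩
    rw [pow_mul]
    exact pow_dvd_pow_of_dvd h3 m
  -- the product `a * b`, normalized
  obtain ⟨g', hg'⟩ : ∃ g', g' = C a.leadingCoeff * (a * b) := ⟨_, rfl⟩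
  have h1 : g'.Monic := by
    rw [hg', Monic, leadingCoeff_mul, leadingCoeff_C, leadingCoeff_mul, ← mul_assoc]
    exact hl
  have hCu : IsUnit (C a.leadingCoeff : ℤ[X]) := Polynomial.isUnit_C.2 hu
  have h2 : g' ∣ χ := by
    refine dvd_trans ?_ hgχ
    rw [hg', hCu.mul_left_dvd, hb]
    exact ⟨a, by ring⟩
  have h3 : g ∣ g' ^ 2 := by
    rw [hg', hb]
    exact ⟨C a.leadingCoeff ^ 2 * b, by ring⟩
  have h4 := hmin g' h1 h2 h3
  have ha0 : a ≠ 0 := by
    rintro rfl
    simp at hl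
  have hb0 : b ≠ 0 := by
    rintro rfl
    simp at hl
  have h5 : g'.natDegree = a.natDegree + b.natDegree := by
    rw [hg', natDegree_C_mul hu.ne_zero, natDegree_mul ha0 hb0]
  have h6 : g.natDegree = a.natDegree + a.natDegree + b.natDegree := by
    rw [hb, natDegree_mul (mul_ne_zero ha0 ha0) hb0, natDegree_mul ha0 ha0]
  have h7 : a.natDegree = 0 := by omega
  apply hna
  rw [Polynomial.eq_C_of_natDegree_eq_zero h7]
  apply Polynomial.isUnit_C.2
  have : a.coeff 0 = a.leadingCoeff := by rw [leadingCoeff, h7]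
  rw [this]
  exact hu

/-- clearing denominators -/
theorem bezout {g : ℤ[X]} (h : (g.map (algebraMap ℤ ℚ)).Separable) :
    ∃ (s t : ℤ[X]) (rr : ℤ), s * g + t * derivative g = C rr ∧ rr ≠ 0 := by
  obtain ⟨a, b, hab⟩ := h
  obtain ⟨u, hum, hu⟩ := IsLocalization.integerNormalization_spec (nonZeroDivisors ℤ) a
  obtain ⟨v, hvm, hv⟩ := IsLocalization.integerNormalization_spec (nonZeroDivisors ℤ) b
  have hinj : Function.Injective (algebraMap ℤ ℚ) := (algebraMap ℤ ℚ).injective_int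
  have hu0 : (u : ℤ) ≠ 0 := nonZeroDivisors.ne_zero hum
  have hv0 : (v : ℤ) ≠ 0 := nonZeroDivisors.ne_zero hvm
  refine ⟨C (v : ℤ) * IsLocalization.integerNormalization (nonZeroDivisors ℤ) a,
    C (u : ℤ) * IsLocalization.integerNormalization (nonZeroDivisors ℤ) b, (u : ℤ) * v, ?_,
    mul_ne_zero hu0 hv0⟩
  apply Polynomial.map_injective _ hinj
  rw [Polynomial.derivative_map] at hab
  have e1 : ∀ (z : ℤ) (p : ℚ[X]), z • p = C (algebraMap ℤ ℚ z) * p := by
    intro z p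
    simp
  rw [Polynomial.map_add, Polynomial.map_mul, Polynomial.map_mul, Polynomial.map_mul,
    Polynomial.map_mul, hu, hv, Polynomial.map_C, Polynomial.map_C, Polynomial.map_C, e1, e1,
    map_mul, C_mul]
  calc _ = C ((algebraMap ℤ ℚ) ↑u) * C ((algebraMap ℤ ℚ) ↑v) *
        (a * map (algebraMap ℤ ℚ) g + b * map (algebraMap ℤ ℚ) (derivative g)) := by ring
    _ = _ := by rw [hab, mul_one]

end E1aPAux

open E1aPAux in
/-- the radical of a monic polynomial -/
theorem e1a : E1a := by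
  intro χ hχ h0
  obtain ⟨g, m, hg, hs, hgχ, hm, hχg⟩ := exists_rad χ hχ
  obtain ⟨s, t, rr, h1, h2⟩ := bezout (PerfectField.separable_iff_squarefree.2
    (squarefree_map hg hs))
  refine ⟨g, s, t, rr, m, hg, ?_, h1, h2, hm, hχg⟩
  intro h3
  obtain ⟨c, hc⟩ := hgχ
  apply h0
  rw [hc, mul_coeff_zero, h3, zero_mul]

end Pool.Agent.N63.US
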