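import Pool.Agent.N63.US.Stm

set_option autoImplicit false

/-!
# The decomposition of the sequences killed by a power of `g`
-/

namespace Pool.Agent.N63.US

open Polynomial Finset Pool.Agent.H692R2.USS

namespace E1bPAux

/-- multiplication by a binomial coefficient -/
def Gam (a : ℕ) (w : ℕ → ℤ) : ℕ → ℤ := fun n => (n.choose a : ℤ) * w n

lemma ann_def {g : ℤ[X]} {u : ℕ → ℤ} : Ann g u ↔ aeval (E ℤ) g u = 0 := Iff.rfl

lemma ann_aeval {g : ℤ[X]} {u : ℕ → ℤ} (hu : Ann g u) (f : ℤ[X]) :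
    Ann g (aeval (E ℤ) f u) := by
  rw [ann_def] at *
  rw [← Module.End.mul_apply, ← map_mul, mul_comm, map_mul, Module.End.mul_apply, hu, map_zero]

lemma ann_dvd {g f : ℤ[X]} {u : ℕ → ℤ} (h : Ann g u) (hd : g ∣ f) : Ann f u := by
  obtain ⟨q, rfl⟩ := hd
  rw [ann_def] at *
  rw [mul_comm, map_mul, Module.End.mul_apply, h, map_zero]

lemma aeval_mul' (f g : ℤ[X]) (u : ℕ → ℤ) :
    aeval (E ℤ) (f * g) u = aeval (E ℤ) f (aeval (E ℤ) g u) := by
  rw [map_mul, Module.End.mul_apply]

lemma gam_step (hL : Leib) (g : ℤ[X]) (a : ℕ) (w : ℕ → ℤ) (hw : Ann g w) :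
    aeval (E ℤ) g (Gam (a + 1) w) = Gam a (aeval (E ℤ) (X * derivative g) w) +
      ∑ b ∈ range a, Gam (a - 1 - b) (aeval (E ℤ) (X ^ (b + 2) * hasseDeriv (b + 2) g) w) := by
  funext n
  have h1 := hL g (a + 1) w n
  change aeval (E ℤ) g (fun n => (n.choose (a + 1) : ℤ) * w n) n = _
  rw [h1, Finset.sum_range_succ', Finset.sum_range_succ']
  have h0 : aeval (E ℤ) (X ^ 0 * hasseDeriv 0 g) w = 0 := by
    rw [pow_zero, one_mul, hasseDeriv_zero']
    exact hw
  rw [h0]
  simp only [Pi.zero_apply, mul_zero, add_zero, Pi.add_apply, Finset.sum_apply]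
  rw [add_comm]
  congr 1
  · rw [zero_add, pow_one, hasseDeriv_one]
    rfl
  · apply Finset.sum_congr rfl
    intro b hb
    rw [Finset.mem_range] at hb
    have e1 : a + 1 - (b + 1 + 1) = a - 1 - b := by omega
    rw [e1]
    rfl

lemma gam_pow (hL : Leib) (hB : BinAnn) (g : ℤ[X]) (a : ℕ) : ∀ w : ℕ → ℤ, Ann g w →
    aeval (E ℤ) (g ^ a) (Gam a w) = aeval (E ℤ) ((X * derivative g) ^ a) w := by
  induction a with
  | zero =>
    intro w _
    rw [pow_zero, pow_zero]
    congr 1
    funext n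
    simp [Gam]
  | succ a ih =>
    intro w hw
    rw [pow_succ, aeval_mul', gam_step hL g a w hw, map_add, ih _ (ann_aeval hw _), map_sum,
      Finset.sum_eq_zero, add_zero, ← aeval_mul', ← pow_succ]
    intro b hb
    rw [Finset.mem_range] at hb
    have h1 := hB g (aeval (E ℤ) (X ^ (b + 2) * hasseDeriv (b + 2) g) w) (a - 1 - b)
      (ann_aeval hw _)
    exact ann_dvd h1 (pow_dvd_pow g (by omega))

lemma decomp (hL : Leib) (hB : BinAnn) (g s t : ℤ[X]) (rr : ℤ) (hg : g.coeff 0 ≠ 0)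
    (hst : s * g + t * derivative g = C rr) (hrr : rr ≠ 0) (m : ℕ) : ∀ u : ℕ → ℤ,
    Ann (g ^ m) u → ∃ (D : ℤ) (v : ℕ → ℕ → ℤ), D ≠ 0 ∧ (∀ j < m, Ann g (v j)) ∧
      ∀ n : ℕ, D * u n = ∑ j ∈ Finset.range m, (n.choose j : ℤ) * v j n := by
  induction m with
  | zero =>
    intro u hu
    refine ⟨1, fun _ _ => 0, one_ne_zero, fun j hj => absurd hj (Nat.not_lt_zero j), fun n => ?_⟩
    rw [pow_zero, ann_def, map_one, Module.End.one_apply] at hu
    rw [hu]
    simp
  | succ a ih =>
    intro u hu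
    set x : ℤ[X] := (divX g * t) * (X * derivative g) with hx
    set c₀ : ℤ := -(g.coeff 0 * rr) with hc₀
    have hc0 : c₀ ≠ 0 := neg_ne_zero.2 (mul_ne_zero hg hrr)
    have hgx : g ∣ x - C c₀ := by
      refine ⟨C rr + C (g.coeff 0) * s - s * g, ?_⟩
      have h1 : divX g * X = g - C (g.coeff 0) :=
        eq_sub_of_add_eq (divX_mul_X_add g)
      have h2 : t * derivative g = C rr - s * g := by rw [← hst]; ring
      have h3 : x = (divX g * X) * (t * derivative g) := by rw [hx]; ring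
      rw [h3, h1, h2, hc₀, C_neg, C_mul]
      ring
    have hxa : ∀ w : ℕ → ℤ, Ann g w → aeval (E ℤ) (x ^ a) w = c₀ ^ a • w := by
      intro w hw
      have h1 : g ∣ x ^ a - (C c₀) ^ a := hgx.trans (sub_dvd_pow_sub_pow _ _ a)
      have h2 := ann_dvd hw h1
      rw [ann_def, map_sub, LinearMap.sub_apply, sub_eq_zero] at h2
      rw [h2, ← C_pow, aeval_C]
      rfl
    set y := aeval (E ℤ) (g ^ a) u with hy
    have hyg : Ann g y := by
      rw [ann_def, hy, ← aeval_mul', ← pow_succ']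
      exact hu
    set w := aeval (E ℤ) ((divX g * t) ^ a) y with hw
    have hwg : Ann g w := ann_aeval hyg _
    have h1 : aeval (E ℤ) (g ^ a) (Gam a w) = c₀ ^ a • y := by
      rw [gam_pow hL hB g a w hwg, hw, ← aeval_mul', ← mul_pow, mul_comm (X * derivative g), ← hx]
      exact hxa y hyg
    have h2 : Ann (g ^ a) (c₀ ^ a • u - Gam a w) := by
      rw [ann_def, map_sub, h1, map_smul, ← hy, sub_self]
    obtain ⟨D, v, hD, hv, hs⟩ := ih _ h2
    refine ⟨D * c₀ ^ a, fun j => if j < a then v j else D • w, mul_ne_zero hD (pow_ne_zero _ hc0),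
      ?_, ?_⟩
    · intro j _
      change Ann g (if j < a then v j else D • w)
      by_cases hj : j < a
      · rw [if_pos hj]
        exact hv j hj
      · rw [if_neg hj, ann_def, map_smul, hwg, smul_zero]
    · intro n
      rw [Finset.sum_range_succ]
      have h3 : ∑ j ∈ Finset.range a, (n.choose j : ℤ) * (if j < a then v j else D • w) n =
          ∑ j ∈ Finset.range a, (n.choose j : ℤ) * v j n := by
        apply Finset.sum_congr rfl
        intro j hj
        rw [if_pos (Finset.mem_range.1 hj)]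
      have h4 := hs n
      have h5 : (fun j => if j < a then v j else D • w) a = D • w := if_neg (lt_irrefl a)
      rw [h3, ← h4, h5]
      simp only [Pi.sub_apply, Pi.smul_apply, smul_eq_mul, Gam]
      ring

end E1bPAux

open E1bPAux in
/-- **E1b** -/
theorem e1b : Leib → BinAnn → E1b := by
  intro hL hB g s t rr hg hst hrr m u _ hu
  obtain ⟨D, v, hD, hv, hs⟩ := decomp hL hB g s t rr hg hst hrr m u hu
  refine ⟨D.natAbs * D.natAbs, fun j => D • v j, ?_, ?_, ?_⟩
  · exact Nat.mul_pos (Int.natAbs_pos.2 hD) (Int.natAbs_pos.2 hD)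
  · intro j hj
    have h1 := hv j hj
    rw [ann_def] at *
    rw [map_smul, h1, smul_zero]
  · intro n
    rw [Int.natAbs_mul_self, mul_assoc, hs n, Finset.mul_sum]
    apply Finset.sum_congr rfl
    intro j _
    simp only [Pi.smul_apply, smul_eq_mul]
    ring

end Pool.Agent.N63.US
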