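import Pool.Agent.N63.US.Stm

set_option autoImplicit false

/-!
# Soundness of the certificate check (helper322 for project USK)
-/

namespace Pool.Agent.N63.US

open Polynomial Finset Pool.Agent.H692R2.USS Pool.Agent.TH997.US
open scoped Classical

namespace F1pAux

/-- the polynomial coded by a list -/
noncomputable def PL (A : List Z) : ℤ[X] :=
  ∑ i ∈ range A.length, C (iv (lc A i)) * X ^ i

theorem lc_of_le {A : List Z} {i : ℕ} (h : A.length ≤ i) : lc A i = (0, 0) := by
  unfold lc
  rw [List.getD_eq_getElem?_getD, List.getElem?_eq_none h]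
  rfl

theorem PL_coeff (A : List Z) (i : ℕ) : (PL A).coeff i = iv (lc A i) := by
  unfold PL
  rw [finsetSum_coeff]
  simp only [coeff_C_mul, coeff_X_pow]
  by_cases h : i < A.length
  · rw [Finset.sum_eq_single i]
    · simp
    · intro j _ hj
      rw [if_neg (by omega), mul_zero]
    · intro hi
      exact absurd (Finset.mem_range.2 h) hi
  · rw [lc_of_le (not_lt.1 h), iv_zero]
    apply Finset.sum_eq_zero
    intro j hj
    rw [Finset.mem_range] at hj
    rw [if_neg (by omega), mul_zero]

theorem PL_natDegree (A : List Z) : (PL A).natDegree ≤ A.length := by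
  rw [natDegree_le_iff_coeff_eq_zero]
  intro N hN
  rw [PL_coeff, lc_of_le hN.le, iv_zero]

theorem gc_eq (G : List Z) (i : ℕ) : iv (gc G i) = (PG G).coeff i := by
  rw [PG_coeff]
  unfold gc
  split_ifs
  · rfl
  · rw [iv_nat]; rfl
  · rfl

theorem ez_iff (x y : Z) : ez x y ↔ iv x = iv y := by
  unfold ez iv
  omega

theorem lez_iff (x : Z) (k : ℕ) : lez x k ↔ |iv x| ≤ k := by
  unfold lez iv
  rw [abs_le]
  omega

theorem coeff_mul' (f g : ℤ[X]) (i : ℕ) :
    (f * g).coeff i = ∑ a ∈ range (i + 1), f.coeff a * g.coeff (i - a) := by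
  rw [coeff_mul, Finset.Nat.sum_antidiagonal_eq_sum_range_succ_mk]

theorem bez {G Sg Tg : List Z} {R : Z}
    (h : ∀ i < G.length + Sg.length + Tg.length + 2, BezAt G Sg Tg R i) :
    PL Sg * PG G + PL Tg * derivative (PG G) = C (iv R) := by
  ext i
  rw [coeff_add, coeff_C]
  by_cases hi : i < G.length + Sg.length + Tg.length + 2
  · have h1 := h i hi
    unfold BezAt at h1
    rw [ez_iff, iv_za, iv_zsum, iv_zsum] at h1
    have h2 : iv (if i = 0 then R else (0, 0)) = if i = 0 then iv R else 0 := by
      split_ifs <;> rfl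
    rw [h2] at h1
    rw [← h1, coeff_mul', coeff_mul']
    congr 1
    · refine Finset.sum_congr rfl fun a _ => ?_
      rw [iv_zm, PL_coeff, gc_eq]
    · refine Finset.sum_congr rfl fun a _ => ?_
      rw [iv_zm, iv_zm, PL_coeff, gc_eq, coeff_derivative, iv_nat]
      push_cast
      ring
  · rw [if_neg (by omega)]
    have h1 : (PL Sg * PG G).natDegree ≤ Sg.length + G.length := by
      refine natDegree_mul_le.trans ?_
      rw [PG_natDegree]
      exact Nat.add_le_add_right (PL_natDegree _) _
    have h2 : (PL Tg * derivative (PG G)).natDegree ≤ Tg.length + G.length := by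
      refine natDegree_mul_le.trans ?_
      refine Nat.add_le_add (PL_natDegree _) ?_
      refine (natDegree_derivative_le _).trans ?_
      rw [PG_natDegree]
      omega
    rw [coeff_eq_zero_of_natDegree_lt (by omega), coeff_eq_zero_of_natDegree_lt (by omega),
      add_zero]

theorem per {G Q W : List Z} {p0 T : ℕ}
    (h : ∀ i < G.length + Q.length + W.length + T + 2, PerAt G Q W p0 T i) :
    X ^ T - 1 = PG G * PL Q + C (p0 : ℤ) * PL W := by
  rw [sub_eq_iff_eq_add]
  ext i
  rw [coeff_add, coeff_add, coeff_X_pow, coeff_C_mul, coeff_one]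
  by_cases hi : i < G.length + Q.length + W.length + T + 2
  · have h1 := h i hi
    unfold PerAt at h1
    rw [ez_iff, iv_za, iv_za, iv_zsum, iv_zm, iv_nat] at h1
    have h2 : iv (if i = T then (1, 0) else (0, 0)) = if i = T then 1 else 0 := by
      split_ifs <;> rfl
    have h3 : iv (if i = 0 then (1, 0) else (0, 0)) = if i = 0 then 1 else 0 := by
      split_ifs <;> rfl
    rw [h2, h3] at h1
    rw [h1, coeff_mul', PL_coeff]
    congr 2
    refine Finset.sum_congr rfl fun a _ => ?_
    rw [iv_zm, PL_coeff, gc_eq]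
  · rw [if_neg (by omega), if_neg (by omega)]
    have h1 : (PG G * PL Q).natDegree ≤ G.length + Q.length := by
      refine natDegree_mul_le.trans ?_
      rw [PG_natDegree]
      exact Nat.add_le_add_left (PL_natDegree _) _
    have h2 := PL_natDegree W
    rw [coeff_eq_zero_of_natDegree_lt (by omega), coeff_eq_zero_of_natDegree_lt (by omega)]
    simp

/-- growth of the sequences from the initial values -/
theorem grow {G a : List Z} {k Vb : ℕ} (h1 : 1 ≤ G.length) (hk : G.length ≤ k)
    (hG : ∀ i < G.length, lez (lc G i) k) (hl : a.length = G.length)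
    (ha : ∀ i < G.length, lez (lc a i) Vb) (b : ℕ) :
    ∀ i < G.length, |iv (run G a (b + i))| ≤ Vb * ((k : ℤ) * k) ^ b := by
  have hk1 : (1 : ℤ) ≤ k := by exact_mod_cast h1.trans hk
  have hkk : (1 : ℤ) ≤ (k : ℤ) * k := by nlinarith
  induction b with
  | zero =>
    intro i hi
    rw [Nat.zero_add, pow_zero, mul_one, run_init (by omega)]
    exact (lez_iff _ _).1 (ha i hi)
  | succ b ih =>
    intro i hi
    by_cases h2 : i + 1 < G.length
    · have h3 := ih (i + 1) h2
      rw [show b + 1 + i = b + (i + 1) by ring]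
      refine h3.trans ?_
      refine mul_le_mul_of_nonneg_left ?_ (by positivity)
      exact pow_le_pow_right₀ hkk (Nat.le_succ b)
    · have h3 := ann_PG.1 (run_ann (G := G) (a := a) (by omega) hl) b
      rw [show b + 1 + i = b + G.length by omega, h3, abs_neg]
      calc |∑ i ∈ range G.length, iv (G.getD i (0, 0)) * iv (run G a (b + i))|
          ≤ ∑ i ∈ range G.length, |iv (G.getD i (0, 0)) * iv (run G a (b + i))| :=
            Finset.abs_sum_le_sum_abs _ _
        _ ≤ ∑ i ∈ range G.length, (k : ℤ) * (Vb * ((k : ℤ) * k) ^ b) := by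
            refine Finset.sum_le_sum fun i hi => ?_
            rw [Finset.mem_range] at hi
            rw [abs_mul]
            exact mul_le_mul ((lez_iff _ _).1 (hG i hi)) (ih i hi) (abs_nonneg _)
              (by positivity)
        _ = (G.length : ℤ) * ((k : ℤ) * (Vb * ((k : ℤ) * k) ^ b)) := by
            rw [Finset.sum_const, card_range, nsmul_eq_mul]
        _ ≤ (k : ℤ) * ((k : ℤ) * (Vb * ((k : ℤ) * k) ^ b)) := by
            refine mul_le_mul_of_nonneg_right ?_ (by positivity)
            exact_mod_cast hk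
        _ = Vb * ((k : ℤ) * k) ^ (b + 1) := by ring

theorem sq_le_two_pow {k : ℕ} (h : 5 ≤ k) : k * k ≤ 2 ^ k := by
  induction k, h using Nat.le_induction with
  | base => norm_num
  | succ n hn ih =>
    rw [pow_succ]
    nlinarith

end F1pAux

open F1pAux in
theorem f1 : BinAnn → Pool.Agent.TH997.US.F1 := by
  intro hBin p k m D p0 T Vb Bd G Sg Tg Q W R V hp12 hp1 hchk
  obtain ⟨hk5, hG1, hGk, hGc, hG0, hbez, hR0, hRk, hm1, hmk, hD, hV, hVb, hdec, hp0, hp03, hT1,
    hTk, hper, hlast⟩ := hchk
  have hann : ∀ j < m, Ann (PG G) (fun n => iv (run G (V.getD j []) n)) := by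
    intro j hj
    exact run_ann (by rw [(hV j hj).1]; exact hG1) (hV j hj).1
  refine ⟨PG G, PL Sg, PL Tg, PL Q, PL W, iv R, fun j n => iv (run G (V.getD j []) n),
    ⟨PG_monic G, ?_, ?_, ?_, bez hbez, ?_, (lez_iff _ _).1 hRk, hm1, hmk, hD, hann, ?_, ?_, hp0,
      hp03, hT1, hTk, per hper⟩, ?_⟩
  · rw [PG_natDegree]; exact hGk
  · intro i
    rw [PG_coeff]
    split_ifs with h1 h2
    · exact (lez_iff _ _).1 (hGc i h1)
    · rw [abs_one]; exact_mod_cast (by omega : 1 ≤ k)
    · rw [abs_zero]; positivity
  · rw [PG_coeff, if_pos (by omega)]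
    intro h
    apply hG0
    unfold iv at h
    unfold lc
    omega
  · intro h
    apply hR0
    unfold iv at h
    omega
  · have hF1 : (Pool.Agent.H884R2.Sko.Fq p.1).length = p.1.length :=
      Pool.Agent.H884R2.Sko.Fq_length _
    have hFann : Ann (PG (Pool.Agent.H884R2.Sko.Fq p.1)) (sq p) :=
      run_ann (by omega) (by omega)
    have hgm : (PG G ^ m).Monic := (PG_monic G).pow m
    have hFm : (PG (Pool.Agent.H884R2.Sko.Fq p.1)).Monic := PG_monic _
    have hleft : Ann (PG (Pool.Agent.H884R2.Sko.Fq p.1) * PG G ^ m) ((D : ℤ) • sq p) :=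
      (hFann.smul _).mul_right _
    have hright : Ann (PG (Pool.Agent.H884R2.Sko.Fq p.1) * PG G ^ m)
        (∑ j ∈ range m, fun n : ℕ => (n.choose j : ℤ) * iv (run G (V.getD j []) n)) := by
      refine Ann.mul_left ?_ _
      refine Ann.sum _ fun j hj => ?_
      rw [Finset.mem_range] at hj
      exact (hBin _ _ j (hann j hj)).of_dvd (pow_dvd_pow _ hj)
    have hdeg : (PG (Pool.Agent.H884R2.Sko.Fq p.1) * PG G ^ m).natDegree =
        p.1.length + m * G.length := by
      rw [hFm.natDegree_mul hgm, (PG_monic G).natDegree_pow, PG_natDegree, PG_natDegree, hF1]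
    have h := hleft.ext (hFm.mul hgm) hright (fun n hn => ?_)
    · intro n
      have h1 := h n
      rw [Finset.sum_apply] at h1
      exact h1
    · rw [hdeg] at hn
      have h1 := hdec n hn
      unfold DecAt at h1
      rw [ez_iff, iv_zm, iv_nat, iv_zsum] at h1
      rw [Finset.sum_apply]
      show (D : ℤ) * iv (run (Pool.Agent.H884R2.Sko.Fq p.1) p.2 n) = _
      rw [h1]
      refine Finset.sum_congr rfl fun j _ => ?_
      rw [iv_zm, iv_nat]
  · intro j hj b
    have h1 := grow hG1 hGk hGc (hV j hj).1 (hV j hj).2 b 0 (by omega)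
    rw [Nat.add_zero] at h1
    have h2 : ((k : ℤ) * k) ^ b ≤ (2 ^ k) ^ b := by
      refine pow_le_pow_left₀ (by positivity) ?_ b
      exact_mod_cast sq_le_two_pow hk5
    have h3 : (m : ℤ) * m.factorial * Vb < 2 ^ k := by exact_mod_cast hVb
    calc (m : ℤ) * m.factorial * |iv (run G (V.getD j []) b)|
        ≤ (m : ℤ) * m.factorial * (Vb * (2 ^ k) ^ b) := by
          refine mul_le_mul_of_nonneg_left (h1.trans ?_) (by positivity)
          exact mul_le_mul_of_nonneg_left h2 (by positivity)
      _ = (m : ℤ) * m.factorial * Vb * (2 ^ k) ^ b := by ring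
      _ < 2 ^ k * (2 ^ k) ^ b := mul_lt_mul_of_pos_right h3 (by positivity)
      _ = 2 ^ (k * (b + 1)) := by
          rw [← pow_mul, ← pow_add]
          congr 1
          ring
  · intro r hr
    obtain ⟨j, hj, l, -, h1, h2⟩ := hlast r hr
    refine ⟨j, hj, l, ?_, ?_⟩
    · intro h
      apply h1
      simp only [iv] at h
      omega
    · rw [abs_lt]
      rw [not_or, not_le, not_le] at h2
      have h3 : ((run G (V.getD j []) (r + T * l)).1 : ℤ) <
          (run G (V.getD j []) (r + T * l)).2 + 3 ^ (k / 2) := by exact_mod_cast h2.1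
      have h4 : ((run G (V.getD j []) (r + T * l)).2 : ℤ) <
          (run G (V.getD j []) (r + T * l)).1 + 3 ^ (k / 2) := by exact_mod_cast h2.2
      simp only [iv]
      constructor <;> linarith

end Pool.Agent.N63.US
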