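import Pool.Agent.N63.US.Stm2
import Pool.Agent.N63.US.F1p

set_option autoImplicit false

/-!
# Soundness of the certificate check with classes of zeros (helper456 for project USK)
-/

namespace Pool.Agent.N63.US

open Polynomial Finset Pool.Agent.H692R2.USS Pool.Agent.TH997.US
open scoped Classical

open F1pAux in
theorem f1V : BinAnn → SubZ → F1V := by
  intro hBin hSub p k m D p0 T Vb Bd G Sg Tg Q W R V hp12 hp1 hchk
  obtain ⟨hk5, hG1, hGk, hGc, hG0, hbez, hR0, hRk, hm1, hmk, hD, hV, hVb, hdec, hp0, hp03, hT1,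
    hTk, hper, hlast⟩ := hchk
  have hann : ∀ j < m, Ann (PG G) (fun n => iv (run G (V.getD j []) n)) := by
    intro j hj
    exact run_ann (by rw [(hV j hj).1]; exact hG1) (hV j hj).1
  refine ⟨PG G, PL Sg, PL Tg, PL Q, PL W, iv R, fun j n => iv (run G (V.getD j []) n),
    ⟨PG_monic G, ?_, ?_, ?_, bez hbez, ?_, (lez_iff _ _).1 hRk, hm1, hmk, hD, hann, ?_, ?_, hp0,
      hp03, hT1, hTk, per hper⟩, ?_⟩
  · rw [PG_natDegree]; exact hGk
  · intro i
    rw [PG_coeff]
    split_ifs with h1 h2
    · exact (lez_iff _ _).1 (hGc i h1)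
    · rw [abs_one]; exact_mod_cast (by omega : 1 ≤ k)
    · rw [abs_zero]; positivity
  · rw [PG_coeff, if_pos (by omega)]
    intro h
    apply hG0
    unfold iv at h
    unfold lc
    omega
  · intro h
    apply hR0
    unfold iv at h
    omega
  · have hF1 : (Pool.Agent.H884R2.Sko.Fq p.1).length = p.1.length :=
      Pool.Agent.H884R2.Sko.Fq_length _
    have hFann : Ann (PG (Pool.Agent.H884R2.Sko.Fq p.1)) (sq p) :=
      run_ann (by omega) (by omega)
    have hgm : (PG G ^ m).Monic := (PG_monic G).pow m
    have hFm : (PG (Pool.Agent.H884R2.Sko.Fq p.1)).Monic := PG_monic _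
    have hleft : Ann (PG (Pool.Agent.H884R2.Sko.Fq p.1) * PG G ^ m) ((D : ℤ) • sq p) :=
      (hFann.smul _).mul_right _
    have hright : Ann (PG (Pool.Agent.H884R2.Sko.Fq p.1) * PG G ^ m)
        (∑ j ∈ range m, fun n : ℕ => (n.choose j : ℤ) * iv (run G (V.getD j []) n)) := by
      refine Ann.mul_left ?_ _
      refine Ann.sum _ fun j hj => ?_
      rw [Finset.mem_range] at hj
      exact (hBin _ _ j (hann j hj)).of_dvd (pow_dvd_pow _ hj)
    have hdeg : (PG (Pool.Agent.H884R2.Sko.Fq p.1) * PG G ^ m).natDegree =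
        p.1.length + m * G.length := by
      rw [hFm.natDegree_mul hgm, (PG_monic G).natDegree_pow, PG_natDegree, PG_natDegree, hF1]
    have h := hleft.ext (hFm.mul hgm) hright (fun n hn => ?_)
    · intro n
      have h1 := h n
      rw [Finset.sum_apply] at h1
      exact h1
    · rw [hdeg] at hn
      have h1 := hdec n hn
      unfold DecAt at h1
      rw [ez_iff, iv_zm, iv_nat, iv_zsum] at h1
      rw [Finset.sum_apply]
      show (D : ℤ) * iv (run (Pool.Agent.H884R2.Sko.Fq p.1) p.2 n) = _
      rw [h1]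
      refine Finset.sum_congr rfl fun j _ => ?_
      rw [iv_zm, iv_nat]
  · intro j hj b
    have h1 := grow hG1 hGk hGc (hV j hj).1 (hV j hj).2 b 0 (by omega)
    rw [Nat.add_zero] at h1
    have h2 : ((k : ℤ) * k) ^ b ≤ (2 ^ k) ^ b := by
      refine pow_le_pow_left₀ (by positivity) ?_ b
      exact_mod_cast sq_le_two_pow hk5
    have h3 : (m : ℤ) * m.factorial * Vb < 2 ^ k := by exact_mod_cast hVb
    calc (m : ℤ) * m.factorial * |iv (run G (V.getD j []) b)|
        ≤ (m : ℤ) * m.factorial * (Vb * (2 ^ k) ^ b) := by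
          refine mul_le_mul_of_nonneg_left (h1.trans ?_) (by positivity)
          exact mul_le_mul_of_nonneg_left h2 (by positivity)
      _ = (m : ℤ) * m.factorial * Vb * (2 ^ k) ^ b := by ring
      _ < 2 ^ k * (2 ^ k) ^ b := mul_lt_mul_of_pos_right h3 (by positivity)
      _ = 2 ^ (k * (b + 1)) := by
          rw [← pow_mul, ← pow_add]
          congr 1
          ring
  · intro r hr
    constructor
    · intro hvan j hj l
      refine hSub (PG G) (fun n => iv (run G (V.getD j []) n)) r T (PG_monic G) (hann j hj) hT1 ?_ l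
      intro l' hl'
      rw [PG_natDegree] at hl'
      have h := hvan j hj l' hl'
      simp only [iv]
      rw [h, sub_self]
    · intro hnv
      obtain ⟨j, hj, l, -, h1, h2⟩ := (hlast r hr).resolve_left hnv
      refine ⟨j, hj, l, ?_, ?_⟩
      · intro h
        apply h1
        simp only [iv] at h
        omega
      · rw [abs_lt]
        rw [not_or, not_le, not_le] at h2
        have h3 : ((run G (V.getD j []) (r + T * l)).1 : ℤ) <
            (run G (V.getD j []) (r + T * l)).2 + 3 ^ (k / 2) := by exact_mod_cast h2.1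
        have h4 : ((run G (V.getD j []) (r + T * l)).2 : ℤ) <
            (run G (V.getD j []) (r + T * l)).1 + 3 ^ (k / 2) := by exact_mod_cast h2.2
        simp only [iv]
        constructor <;> linarith

end Pool.Agent.N63.US
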