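import Pool.Agent.TH997.US.Stm

/-!
# Completeness of the certificate check (helper711)
-/

set_option autoImplicit false

namespace Pool.Agent.N63.US

open Polynomial Finset Pool.Agent.H692R2.USS Pool.Agent.TH997.US
open scoped Classical

namespace F2pAux

theorem getD_map_range {β : Type} (f : ℕ → β) (d : β) (n i : ℕ) :
    ((List.range n).map f).getD i d = if i < n then f i else d := by
  rw [List.getD_eq_getElem?_getD, List.getElem?_map]
  by_cases h : i < n
  · rw [List.getElem?_range h, if_pos h]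
    rfl
  · rw [List.getElem?_eq_none (by simpa using h), if_neg h]
    rfl

theorem ez_iff (x y : Z) : ez x y ↔ iv x = iv y := by
  unfold ez iv
  omega

theorem lez_iff (x : Z) (k : ℕ) : lez x k ↔ |iv x| ≤ k := by
  unfold lez iv
  rw [abs_le]
  omega

theorem ne_iff (x : Z) : x.1 ≠ x.2 ↔ iv x ≠ 0 := by
  unfold iv
  omega

/-- the list of the coefficients -/
noncomputable def pl (f : ℤ[X]) : List Z := (List.range (f.natDegree + 1)).map fun i => zc (f.coeff i)

theorem iv_pl (f : ℤ[X]) (i : ℕ) : iv (lc (pl f) i) = f.coeff i := by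
  unfold lc pl
  rw [getD_map_range]
  split_ifs with h
  · exact iv_zc _
  · rw [iv_zero, coeff_eq_zero_of_natDegree_lt (by omega)]

/-- the list of the lower coefficients of a monic polynomial -/
noncomputable def pm (g : ℤ[X]) : List Z := (List.range g.natDegree).map fun i => zc (g.coeff i)

theorem length_pm (g : ℤ[X]) : (pm g).length = g.natDegree := by simp [pm]

theorem iv_pm {g : ℤ[X]} (hg : g.Monic) (i : ℕ) : iv (gc (pm g) i) = g.coeff i := by
  unfold gc
  rw [length_pm]
  unfold pm
  split_ifs with h1 h2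
  · rw [getD_map_range, if_pos h1, iv_zc]
  · rw [h2]
    rw [hg.coeff_natDegree]
    rfl
  · rw [coeff_eq_zero_of_natDegree_lt (by omega)]
    rfl

theorem PG_pm {g : ℤ[X]} (hg : g.Monic) : PG (pm g) = g := by
  ext i
  rw [PG_coeff, length_pm, ← iv_pm hg]
  unfold gc
  rw [length_pm]
  split_ifs <;> rfl

theorem coeff_mul_range (a b : ℤ[X]) (i : ℕ) :
    (a * b).coeff i = ∑ c ∈ range (i + 1), a.coeff c * b.coeff (i - c) := by
  rw [coeff_mul, Finset.Nat.sum_antidiagonal_eq_sum_range_succ (fun x y => a.coeff x * b.coeff y)]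

end F2pAux

open F2pAux

theorem f2 : Pool.Agent.TH997.US.F2 := by
  intro p k g s t q w rr m D p0 T v hl h1 cd hz
  have hT := cd.T1
  have he : 1 ≤ g.natDegree := by
    by_contra hcon
    have h2 : g = 1 := cd.monic.natDegree_eq_zero.1 (by omega)
    obtain ⟨j, hj, l, h3, -⟩ := hz 0 (by omega)
    apply h3
    have h4 := cd.ann j hj
    rw [h2] at h4
    unfold Ann at h4
    rw [map_one] at h4
    exact congrFun h4 _
  -- bound for the exceptional indices
  have hz' : ∀ r, ∃ l, r < T → ∃ j < m, v j (r + T * l) ≠ 0 ∧ |v j (r + T * l)| < 3 ^ (k / 2) := by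
    intro r
    by_cases hr : r < T
    · obtain ⟨j, hj, l, h3⟩ := hz r hr
      exact ⟨l, fun _ => ⟨j, hj, h3⟩⟩
    · exact ⟨0, fun h => absurd h hr⟩
  choose lf hlf using hz'
  set Vb : ℕ := ∑ j ∈ range m, ∑ i ∈ range g.natDegree, (v j i).natAbs with hVb
  set V : List (List Z) :=
    (List.range m).map (fun j => (List.range g.natDegree).map fun i => zc (v j i)) with hV
  have hVj : ∀ j < m, V.getD j [] = (List.range g.natDegree).map fun i => zc (v j i) := by
    intro j hj
    rw [hV, getD_map_range, if_pos hj]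
  have hrun : ∀ j < m, ∀ n, iv (run (pm g) (V.getD j []) n) = v j n := by
    intro j hj n
    rw [hVj j hj]
    refine run_eq (by simpa using he) (by simp [length_pm]) ?_ ?_ n
    · rw [PG_pm cd.monic]
      exact cd.ann j hj
    · intro i hi
      rw [List.length_map, List.length_range] at hi
      rw [getD_map_range, if_pos hi, iv_zc]
  set k' : ℕ := k + 5 + m * m.factorial * Vb with hk'
  have hkk : k ≤ k' := by omega
  refine ⟨k', Vb, 1 + ∑ r ∈ range T, lf r, pm g, pl s, pl t, pl q, pl w, zc rr, V, by omega, ?_, ?_,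
    ?_, ?_, ?_, ?_, ?_, cd.m1, cd.mle.trans hkk, cd.D1, ?_, ?_, ?_, cd.p0p, cd.p03, cd.T1,
    cd.Tk.trans hkk, ?_, ?_⟩
  · rw [length_pm]
    exact he
  · rw [length_pm]
    exact cd.deg.trans hkk
  · intro i hi
    rw [length_pm] at hi
    rw [lez_iff]
    unfold lc pm
    rw [getD_map_range, if_pos hi, iv_zc]
    exact (cd.coeff i).trans (by exact_mod_cast hkk)
  · rw [ne_iff]
    unfold lc pm
    rw [getD_map_range, if_pos (by omega), iv_zc]
    exact cd.coeff0
  · intro i _
    unfold BezAt
    rw [ez_iff, iv_za, iv_zsum, iv_zsum]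
    simp only [iv_zm, iv_pl, iv_pm cd.monic, iv_nat]
    have h2 := congrArg (fun f : ℤ[X] => f.coeff i) cd.bez
    simp only [coeff_add, coeff_mul_range, coeff_derivative, coeff_C] at h2
    have h3 : iv (if i = 0 then zc rr else (0, 0)) = if i = 0 then rr else 0 := by
      split_ifs
      · exact iv_zc _
      · rfl
    rw [h3, ← h2]
    congr 1
    refine sum_congr rfl fun a _ => ?_
    push_cast
    ring
  · rw [ne_iff, iv_zc]
    exact cd.rr0
  · rw [lez_iff, iv_zc]
    exact cd.rrk.trans (by exact_mod_cast hkk)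
  · intro j hj
    rw [hVj j hj, length_pm]
    refine ⟨by simp, fun i hi => ?_⟩
    rw [lez_iff]
    unfold lc
    rw [getD_map_range, if_pos hi, iv_zc, Int.abs_eq_natAbs]
    have h2 : (v j i).natAbs ≤ ∑ i ∈ range g.natDegree, (v j i).natAbs :=
      single_le_sum (f := fun i => (v j i).natAbs) (fun _ _ => Nat.zero_le _) (mem_range.2 hi)
    have h3 : ∑ i ∈ range g.natDegree, (v j i).natAbs ≤ Vb :=
      single_le_sum (f := fun j => ∑ i ∈ range g.natDegree, (v j i).natAbs)
        (fun _ _ => Nat.zero_le _) (mem_range.2 hj)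
    exact_mod_cast h2.trans h3
  · refine (Nat.lt_two_pow_self (n := m * m.factorial * Vb)).trans_le ?_
    exact Nat.pow_le_pow_right (by norm_num) (by omega)
  · intro n _
    unfold DecAt
    rw [ez_iff, iv_zm, iv_nat, iv_zsum]
    have h2 := cd.dec n
    unfold Pool.Agent.TH997.US.sq at h2
    rw [h2]
    refine sum_congr rfl fun j hj => ?_
    rw [iv_zm, iv_nat, hrun j (mem_range.1 hj)]
  · intro i _
    unfold PerAt
    rw [ez_iff, iv_za, iv_za, iv_zsum, iv_zm, iv_nat, iv_pl]
    simp only [iv_zm, iv_pl, iv_pm cd.monic]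
    have h2 := congrArg (fun f : ℤ[X] => f.coeff i) cd.per
    simp only [coeff_add, coeff_sub, coeff_mul_range, coeff_C_mul, coeff_X_pow, coeff_one] at h2
    have h3 : iv (if i = T then (1, 0) else (0, 0)) = if i = T then 1 else 0 := by
      split_ifs <;> rfl
    have h4 : iv (if i = 0 then (1, 0) else (0, 0)) = if i = 0 then 1 else 0 := by
      split_ifs <;> rfl
    rw [h3, h4]
    linarith
  · intro r hr
    obtain ⟨j, hj, h2, h3⟩ := hlf r hr
    have h4 : lf r ≤ ∑ r ∈ range T, lf r :=
      single_le_sum (f := lf) (fun _ _ => Nat.zero_le _) (mem_range.2 hr)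
    refine ⟨j, hj, lf r, by omega, ?_, ?_⟩
    · rw [ne_iff, hrun j hj]
      exact h2
    · have h5 := hrun j hj (r + T * lf r)
      have h6 : |v j (r + T * lf r)| < (3 : ℤ) ^ (k' / 2) :=
        h3.trans_le (pow_le_pow_right₀ (by norm_num) (Nat.div_le_div_right hkk))
      rw [← h5, abs_lt] at h6
      unfold iv at h6
      have h7 : ((3 ^ (k' / 2) : ℕ) : ℤ) = (3 : ℤ) ^ (k' / 2) := by push_cast; rfl
      rw [← h7] at h6
      omega

end Pool.Agent.N63.US
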