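import Pool.Agent.N63.US.Stm2
import Pool.Agent.N63.US.F2p

/-!
# Completeness of the certificate check with classes of zeros (helper607)
-/

set_option autoImplicit false

namespace Pool.Agent.N63.US

open Polynomial Finset Pool.Agent.H692R2.USS Pool.Agent.TH997.US
open scoped Classical

open F2pAux

namespace F2VpAux

/-- completeness for sequences killed by a polynomial of positive degree -/
theorem pos (p : List Z × List Z) (k : ℕ) (g s t q w : ℤ[X]) (rr : ℤ) (m D p0 T : ℕ)
    (v : ℕ → ℕ → ℤ) (cd : CD (Pool.Agent.TH997.US.sq p) k g s t q w rr m D p0 T v)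
    (hz : ∀ r < T, (∀ j < m, ∀ l, v j (r + T * l) = 0) ∨
      ∃ j < m, ∃ l, v j (r + T * l) ≠ 0 ∧ |v j (r + T * l)| < 3 ^ (k / 2))
    (he : 1 ≤ g.natDegree) :
    ∃ (k' Vb Bd : ℕ) (G Sg Tg Q W : List Z) (R : Z) (V : List (List Z)),
      ChkV p k' m D p0 T Vb Bd G Sg Tg Q W R V := by
  have hT := cd.T1
  -- bound for the exceptional indices
  have hz' : ∀ r, ∃ l, r < T → (∀ j < m, ∀ l, v j (r + T * l) = 0) ∨
      ∃ j < m, v j (r + T * l) ≠ 0 ∧ |v j (r + T * l)| < 3 ^ (k / 2) := by
    intro r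
    by_cases hr : r < T
    · rcases hz r hr with h0 | ⟨j, hj, l, h3⟩
      · exact ⟨0, fun _ => Or.inl h0⟩
      · exact ⟨l, fun _ => Or.inr ⟨j, hj, h3⟩⟩
    · exact ⟨0, fun h => absurd h hr⟩
  choose lf hlf using hz'
  set Vb : ℕ := ∑ j ∈ range m, ∑ i ∈ range g.natDegree, (v j i).natAbs with hVb
  set V : List (List Z) :=
    (List.range m).map (fun j => (List.range g.natDegree).map fun i => zc (v j i)) with hV
  have hVj : ∀ j < m, V.getD j [] = (List.range g.natDegree).map fun i => zc (v j i) := by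
    intro j hj
    rw [hV, getD_map_range, if_pos hj]
  have hrun : ∀ j < m, ∀ n, iv (run (pm g) (V.getD j []) n) = v j n := by
    intro j hj n
    rw [hVj j hj]
    refine run_eq (by simpa using he) (by simp [length_pm]) ?_ ?_ n
    · rw [PG_pm cd.monic]
      exact cd.ann j hj
    · intro i hi
      rw [List.length_map, List.length_range] at hi
      rw [getD_map_range, if_pos hi, iv_zc]
  set k' : ℕ := k + 5 + m * m.factorial * Vb with hk'
  have hkk : k ≤ k' := by omega
  refine ⟨k', Vb, 1 + ∑ r ∈ range T, lf r, pm g, pl s, pl t, pl q, pl w, zc rr, V, by omega, ?_, ?_,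
    ?_, ?_, ?_, ?_, ?_, cd.m1, cd.mle.trans hkk, cd.D1, ?_, ?_, ?_, cd.p0p, cd.p03, cd.T1,
    cd.Tk.trans hkk, ?_, ?_⟩
  · rw [length_pm]
    exact he
  · rw [length_pm]
    exact cd.deg.trans hkk
  · intro i hi
    rw [length_pm] at hi
    rw [lez_iff]
    unfold lc pm
    rw [getD_map_range, if_pos hi, iv_zc]
    exact (cd.coeff i).trans (by exact_mod_cast hkk)
  · rw [ne_iff]
    unfold lc pm
    rw [getD_map_range, if_pos (by omega), iv_zc]
    exact cd.coeff0
  · intro i _
    unfold BezAt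
    rw [ez_iff, iv_za, iv_zsum, iv_zsum]
    simp only [iv_zm, iv_pl, iv_pm cd.monic, iv_nat]
    have h2 := congrArg (fun f : ℤ[X] => f.coeff i) cd.bez
    simp only [coeff_add, coeff_mul_range, coeff_derivative, coeff_C] at h2
    have h3 : iv (if i = 0 then zc rr else (0, 0)) = if i = 0 then rr else 0 := by
      split_ifs
      · exact iv_zc _
      · rfl
    rw [h3, ← h2]
    congr 1
    refine sum_congr rfl fun a _ => ?_
    push_cast
    ring
  · rw [ne_iff, iv_zc]
    exact cd.rr0
  · rw [lez_iff, iv_zc]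
    exact cd.rrk.trans (by exact_mod_cast hkk)
  · intro j hj
    rw [hVj j hj, length_pm]
    refine ⟨by simp, fun i hi => ?_⟩
    rw [lez_iff]
    unfold lc
    rw [getD_map_range, if_pos hi, iv_zc, Int.abs_eq_natAbs]
    have h2 : (v j i).natAbs ≤ ∑ i ∈ range g.natDegree, (v j i).natAbs :=
      single_le_sum (f := fun i => (v j i).natAbs) (fun _ _ => Nat.zero_le _) (mem_range.2 hi)
    have h3 : ∑ i ∈ range g.natDegree, (v j i).natAbs ≤ Vb :=
      single_le_sum (f := fun j => ∑ i ∈ range g.natDegree, (v j i).natAbs)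
        (fun _ _ => Nat.zero_le _) (mem_range.2 hj)
    exact_mod_cast h2.trans h3
  · refine (Nat.lt_two_pow_self (n := m * m.factorial * Vb)).trans_le ?_
    exact Nat.pow_le_pow_right (by norm_num) (by omega)
  · intro n _
    unfold DecAt
    rw [ez_iff, iv_zm, iv_nat, iv_zsum]
    have h2 := cd.dec n
    unfold Pool.Agent.TH997.US.sq at h2
    rw [h2]
    refine sum_congr rfl fun j hj => ?_
    rw [iv_zm, iv_nat, hrun j (mem_range.1 hj)]
  · intro i _
    unfold PerAt
    rw [ez_iff, iv_za, iv_za, iv_zsum, iv_zm, iv_nat, iv_pl]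
    simp only [iv_zm, iv_pl, iv_pm cd.monic]
    have h2 := congrArg (fun f : ℤ[X] => f.coeff i) cd.per
    simp only [coeff_add, coeff_sub, coeff_mul_range, coeff_C_mul, coeff_X_pow, coeff_one] at h2
    have h3 : iv (if i = T then (1, 0) else (0, 0)) = if i = T then 1 else 0 := by
      split_ifs <;> rfl
    have h4 : iv (if i = 0 then (1, 0) else (0, 0)) = if i = 0 then 1 else 0 := by
      split_ifs <;> rfl
    rw [h3, h4]
    linarith
  · intro r hr
    rcases hlf r hr with h0 | ⟨j, hj, h2, h3⟩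
    · refine Or.inl fun j hj l _ => ?_
      have h5 := hrun j hj (r + T * l)
      rw [h0 j hj l] at h5
      unfold iv at h5
      omega
    have h4 : lf r ≤ ∑ r ∈ range T, lf r :=
      single_le_sum (f := lf) (fun _ _ => Nat.zero_le _) (mem_range.2 hr)
    refine Or.inr ⟨j, hj, lf r, by omega, ?_, ?_⟩
    · rw [ne_iff, hrun j hj]
      exact h2
    · have h5 := hrun j hj (r + T * lf r)
      have h6 : |v j (r + T * lf r)| < (3 : ℤ) ^ (k' / 2) :=
        h3.trans_le (pow_le_pow_right₀ (by norm_num) (Nat.div_le_div_right hkk))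
      rw [← h5, abs_lt] at h6
      unfold iv at h6
      have h7 : ((3 ^ (k' / 2) : ℕ) : ℤ) = (3 : ℤ) ^ (k' / 2) := by push_cast; rfl
      rw [← h7] at h6
      omega

end F2VpAux

theorem f2V : F2V := by
  intro p k g s t q w rr m D p0 T v hl h1 cd hz
  by_cases he : 1 ≤ g.natDegree
  · exact F2VpAux.pos p k g s t q w rr m D p0 T v cd hz he
  have h2 : g = 1 := cd.monic.natDegree_eq_zero.1 (by omega)
  have hv : ∀ j < m, v j = 0 := by
    intro j hj
    have h4 := cd.ann j hj
    rw [h2] at h4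
    unfold Ann at h4
    rw [map_one] at h4
    exact h4
  have hk : 1 ≤ max k 1 := le_max_right _ _
  have hkk : k ≤ max k 1 := le_max_left _ _
  have hdeg : (X - 1 : ℤ[X]).natDegree = 1 := by
    have := natDegree_X_sub_C (1 : ℤ)
    rwa [map_one] at this
  have cd' : CD (Pool.Agent.TH997.US.sq p) (max k 1) (X - 1) 0 1
      (∑ i ∈ range T, (X : ℤ[X]) ^ i) 0 1 m D p0 T (fun _ => 0) := by
    refine ⟨?_, ?_, ?_, ?_, ?_, one_ne_zero, ?_, cd.m1, cd.mle.trans hkk, cd.D1, ?_, ?_, ?_,
      cd.p0p, cd.p03, cd.T1, cd.Tk.trans hkk, ?_⟩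
    · have := monic_X_sub_C (1 : ℤ)
      rwa [map_one] at this
    · rw [hdeg]
      exact hk
    · intro i
      have h3 : |(X - 1 : ℤ[X]).coeff i| ≤ 1 := by
        rw [coeff_sub, coeff_X, coeff_one]
        rcases i with _ | _ | i
        · simp
        · simp
        · simp
      refine h3.trans ?_
      exact_mod_cast hk
    · rw [coeff_sub, coeff_X, coeff_one]
      simp
    · simp
    · rw [abs_one]
      exact_mod_cast hk
    · intro j _
      unfold Ann
      exact map_zero _
    · intro n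
      rw [cd.dec n]
      refine sum_congr rfl fun j hj => ?_
      rw [hv j (mem_range.1 hj)]
    · intro j _ b
      simp
    · rw [mul_zero, add_zero, mul_geom_sum]
  exact F2VpAux.pos p (max k 1) (X - 1) 0 1 _ 0 1 m D p0 T (fun _ => 0) cd'
    (fun r _ => Or.inl fun _ _ _ => rfl) (by rw [hdeg])

end Pool.Agent.N63.US
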