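import Pool.Agent.N63.US.Stm2
import Pool.Agent.TH997.US.F3

set_option autoImplicit false

/-!
# The certificate check with classes of zeros is computable
-/

namespace Pool.Agent.N63.US

open Polynomial Finset Pool.Agent.H692R2.USS Pool.Agent.TH997.US
open scoped Classical

namespace F3VpAux

open Pool.Agent.Helper446.RE (cp_eq cp_le cp_lt cp_comp cite)
open Pool.Agent.TH997.US.F3

section gen

variable {α : Type} [Primcodable α]

attribute [local fun_prop] cfact cchoose clc cgc

attribute [local irreducible] lc gc zm za Nat.choose Nat.factorial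

theorem cVan {m T : α → ℕ} {G : α → List Z} {V : α → List (List Z)} {r : α → ℕ}
    (hm : Computable m) (hT : Computable T) (hG : Computable G) (hV : Computable V)
    (hr : Computable r) :
    ComputablePred (fun x => Van (m x) (T x) (G x) (V x) (r x)) := by
  unfold Van
  refine cp_all (p := fun x j => ∀ l < (G x).length,
    (run (G x) ((V x).getD j []) (r x + T x * l)).1 =
      (run (G x) ((V x).getD j []) (r x + T x * l)).2) ?_ hm
  refine cp_all (p := fun (x : α × ℕ) l =>
    (run (G x.1) ((V x.1).getD x.2 []) (r x.1 + T x.1 * l)).1 =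
      (run (G x.1) ((V x.1).getD x.2 []) (r x.1 + T x.1 * l)).2) ?_ (by fun_prop)
  have hrun : Computable (fun x : (α × ℕ) × ℕ =>
      run (G x.1.1) ((V x.1.1).getD x.1.2 []) (r x.1.1 + T x.1.1 * x.2)) := by
    fun_prop
  exact cp_eq (by fun_prop) (by fun_prop)

theorem cfilter {p : α → ℕ → Prop} (hp : ComputablePred (fun x : α × ℕ => p x.1 x.2))
    {f : α → ℕ} (hf : Computable f) :
    Computable (fun a => (List.range (f a)).filter (fun r => decide (p a r))) := by
  have hc : Computable (fun x : α × (ℕ × List ℕ) =>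
      if p x.1 x.2.1 then x.2.2 ++ [x.2.1] else x.2.2) := by
    refine cite (p := fun x : α × (ℕ × List ℕ) => p x.1 x.2.1) ?_ ?_ ?_
    · exact cp_comp hp (f := fun x : α × (ℕ × List ℕ) => (x.1, x.2.1)) (by fun_prop)
    · exact Computable.list_concat.comp (Computable.snd.comp Computable.snd)
        (Computable.fst.comp Computable.snd)
    · fun_prop
  have h := Computable.nat_rec (f := f) (g := fun _ : α => ([] : List ℕ))
    (h := fun (a : α) (y : ℕ × List ℕ) => if p a y.1 then y.2 ++ [y.1] else y.2) hf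
    (Computable.const []) hc
  refine h.of_eq fun a => ?_
  generalize f a = n
  induction n with
  | zero => rfl
  | succ n ih =>
    rw [List.range_succ, List.filter_append, ← ih]
    by_cases hn : p a n
    · simp [hn]
    · simp [hn]

theorem cChkV {p : α → List Z × List Z} {k m D p0 T Vb Bd : α → ℕ}
    {G Sg Tg Q W : α → List Z} {R : α → Z} {V : α → List (List Z)} (hp : Computable p)
    (hk : Computable k) (hm : Computable m) (hD : Computable D) (hp0 : Computable p0)
    (hT : Computable T) (hVb : Computable Vb) (hBd : Computable Bd) (hG : Computable G)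
    (hSg : Computable Sg) (hTg : Computable Tg) (hQ : Computable Q) (hW : Computable W)
    (hR : Computable R) (hV : Computable V) :
    ComputablePred (fun x => ChkV (p x) (k x) (m x) (D x) (p0 x) (T x) (Vb x) (Bd x) (G x)
      (Sg x) (Tg x) (Q x) (W x) (R x) (V x)) := by
  unfold ChkV
  refine cp_and (cp_le (by fun_prop) hk) ?_
  refine cp_and (cp_le (by fun_prop) (by fun_prop)) ?_
  refine cp_and (cp_le (by fun_prop) hk) ?_
  refine cp_and ?_ ?_
  · refine cp_all (p := fun x i => lez (lc (G x) i) (k x)) ?_ (by fun_prop)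
    exact clez (by fun_prop) (by fun_prop)
  refine cp_and (ComputablePred.not (cp_eq (by fun_prop) (by fun_prop))) ?_
  refine cp_and ?_ ?_
  · refine cp_all (p := fun x i => BezAt (G x) (Sg x) (Tg x) (R x) i) ?_ (by fun_prop)
    exact cBez (by fun_prop) (by fun_prop) (by fun_prop) (by fun_prop) (by fun_prop)
  refine cp_and (ComputablePred.not (cp_eq (by fun_prop) (by fun_prop))) ?_
  refine cp_and (clez hR hk) ?_
  refine cp_and (cp_le (by fun_prop) hm) ?_
  refine cp_and (cp_le hm hk) ?_
  refine cp_and (cp_le (by fun_prop) hD) ?_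
  refine cp_and ?_ ?_
  · refine cp_all (p := fun x j => ((V x).getD j []).length = (G x).length ∧
      ∀ i < (G x).length, lez (lc ((V x).getD j []) i) (Vb x)) ?_ hm
    refine cp_and (cp_eq (by fun_prop) (by fun_prop)) ?_
    refine cp_all (p := fun (x : α × ℕ) i => lez (lc ((V x.1).getD x.2 []) i) (Vb x.1)) ?_
      (by fun_prop)
    exact clez (by fun_prop) (by fun_prop)
  refine cp_and (cp_lt (by fun_prop) (by fun_prop)) ?_
  refine cp_and ?_ ?_
  · refine cp_all (p := fun x n => DecAt (p x) (m x) (D x) (G x) (V x) n) ?_ (by fun_prop)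
    exact cDec (by fun_prop) (by fun_prop) (by fun_prop) (by fun_prop) (by fun_prop)
      (by fun_prop)
  refine cp_and (cp_prime hp0) ?_
  refine cp_and (cp_le (by fun_prop) hp0) ?_
  refine cp_and (cp_le (by fun_prop) hT) ?_
  refine cp_and (cp_le hT hk) ?_
  refine cp_and ?_ ?_
  · refine cp_all (p := fun x i => PerAt (G x) (Q x) (W x) (p0 x) (T x) i) ?_ (by fun_prop)
    exact cPer (by fun_prop) (by fun_prop) (by fun_prop) (by fun_prop) (by fun_prop)
      (by fun_prop)
  · refine cp_all (p := fun x r => Van (m x) (T x) (G x) (V x) r ∨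
      ∃ j < m x, ∃ l < Bd x,
      (run (G x) ((V x).getD j []) (r + T x * l)).1 ≠
        (run (G x) ((V x).getD j []) (r + T x * l)).2 ∧
      ¬ ((run (G x) ((V x).getD j []) (r + T x * l)).2 + 3 ^ (k x / 2) ≤
          (run (G x) ((V x).getD j []) (r + T x * l)).1 ∨
        (run (G x) ((V x).getD j []) (r + T x * l)).1 + 3 ^ (k x / 2) ≤
          (run (G x) ((V x).getD j []) (r + T x * l)).2)) ?_ hT
    refine cp_or (cVan (by fun_prop) (by fun_prop) (by fun_prop) (by fun_prop)
      (by fun_prop)) ?_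
    refine cp_ex (p := fun (x : α × ℕ) j => ∃ l < Bd x.1,
      (run (G x.1) ((V x.1).getD j []) (x.2 + T x.1 * l)).1 ≠
        (run (G x.1) ((V x.1).getD j []) (x.2 + T x.1 * l)).2 ∧
      ¬ ((run (G x.1) ((V x.1).getD j []) (x.2 + T x.1 * l)).2 + 3 ^ (k x.1 / 2) ≤
          (run (G x.1) ((V x.1).getD j []) (x.2 + T x.1 * l)).1 ∨
        (run (G x.1) ((V x.1).getD j []) (x.2 + T x.1 * l)).1 + 3 ^ (k x.1 / 2) ≤
          (run (G x.1) ((V x.1).getD j []) (x.2 + T x.1 * l)).2)) ?_ (by fun_prop)
    refine cp_ex (p := fun (x : (α × ℕ) × ℕ) l =>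
      (run (G x.1.1) ((V x.1.1).getD x.2 []) (x.1.2 + T x.1.1 * l)).1 ≠
        (run (G x.1.1) ((V x.1.1).getD x.2 []) (x.1.2 + T x.1.1 * l)).2 ∧
      ¬ ((run (G x.1.1) ((V x.1.1).getD x.2 []) (x.1.2 + T x.1.1 * l)).2 + 3 ^ (k x.1.1 / 2) ≤
          (run (G x.1.1) ((V x.1.1).getD x.2 []) (x.1.2 + T x.1.1 * l)).1 ∨
        (run (G x.1.1) ((V x.1.1).getD x.2 []) (x.1.2 + T x.1.1 * l)).1 + 3 ^ (k x.1.1 / 2) ≤
          (run (G x.1.1) ((V x.1.1).getD x.2 []) (x.1.2 + T x.1.1 * l)).2)) ?_ (by fun_prop)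
    have hrun : Computable (fun x : ((α × ℕ) × ℕ) × ℕ =>
        run (G x.1.1.1) ((V x.1.1.1).getD x.1.2 []) (x.1.1.2 + T x.1.1.1 * x.2)) := by
      fun_prop
    refine cp_and (ComputablePred.not (cp_eq (by fun_prop) (by fun_prop)))
      (ComputablePred.not (cp_or (cp_le (by fun_prop) (by fun_prop))
        (cp_le (by fun_prop) (by fun_prop))))

end gen

end F3VpAux

theorem f3V : F3V := by
  refine ⟨?_, ?_⟩
  · exact F3VpAux.cChkV (by fun_prop) (by fun_prop) (by fun_prop) (by fun_prop) (by fun_prop)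
      (by fun_prop) (by fun_prop) (by fun_prop) (by fun_prop) (by fun_prop) (by fun_prop)
      (by fun_prop) (by fun_prop) (by fun_prop) (by fun_prop)
  · refine F3VpAux.cfilter (α := CT)
      (p := fun c r => Van c.1.2.1 c.1.2.2.2.2.1 c.2.1.1 c.2.2.2 r) ?_ (by fun_prop)
    exact F3VpAux.cVan (by fun_prop) (by fun_prop) (by fun_prop) (by fun_prop) (by fun_prop)

end Pool.Agent.N63.US
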