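import Pool.Agent.N63.US.Stm2
import Pool.Agent.N63.US.D0Vp
import Pool.Agent.TH997.US.Fin

set_option autoImplicit false

/-!
# Universal Skolem sets: the complete computation of the zeros in `S`
-/

namespace Pool.Agent.N63.US

open Polynomial Finset Pool.Agent.H692R2.USS Pool.Agent.TH997.US Pool.Agent.Helper446
open scoped Classical

/-- `u` is the integer linear recurrence sequence coded by `p` (coefficients, initial values) -/
def IsLRS (p : List ℤ × List ℤ) (u : ℕ → ℤ) : Prop :=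
  p.1.length = p.2.length ∧ 1 ≤ p.1.length ∧ p.1.getD (p.1.length - 1) 0 ≠ 0 ∧
    (∀ i, i < p.1.length → u i = p.2.getD i 0) ∧
    ∀ n : ℕ, u (n + p.1.length) =
      ∑ j ∈ Finset.range p.1.length, p.1.getD j 0 * u (n + p.1.length - 1 - j)

/-- `ChkV` for a certificate -/
abbrev ChkC (p : List Z × List Z) (c : CT) : Prop :=
  ChkV p c.1.1 c.1.2.1 c.1.2.2.1 c.1.2.2.2.1 c.1.2.2.2.2.1 c.1.2.2.2.2.2.1
    c.1.2.2.2.2.2.2 c.2.1.1 c.2.1.2.1 c.2.1.2.2.1 c.2.1.2.2.2.1 c.2.1.2.2.2.2 c.2.2.1 c.2.2.2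

theorem exists_cert (hE1 : E1) (hE2 : E2) (hF2 : F2V) {p : List Z × List Z} (hp : Val p) :
    ∃ c : CT, ChkC p c := by
  obtain ⟨k, g, s, t, q, w, rr, m, D, p0, T, v, hcd, hw⟩ :=
    hE2 hE1 _ _ (PG_monic _) (coeff0_sq hp) (ann_sq hp)
  obtain ⟨k', Vb, Bd, G, Sg, Tg, Q, W, R, V, h⟩ :=
    hF2 p k g s t q w rr m D p0 T v hp.1 hp.2.1 hcd hw
  exact ⟨((k', m, D, p0, T, Vb, Bd), (G, Sg, Tg, Q, W), R, V), h⟩

theorem select (hE1 : E1) (hE2 : E2) (hF2 : F2V) (hF3 : F3V) :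
    ∃ f : List Z × List Z → CT, Computable f ∧ ∀ p, Val p → ChkC p (f p) := by
  have hr : REPred fun x : (List Z × List Z) × CT => ¬ Val x.1 ∨ ChkC x.1 x.2 := by
    refine RE.or ?_ hF3.1.to_re
    exact RE.comp (p := fun p : List Z × List Z => ¬ Val p) cp_val.not.to_re Computable.fst
  obtain ⟨f, hf, hd, hs⟩ := RE.uniformize (r := fun p c => ¬ Val p ∨ ChkC p c) hr
  have htot : ∀ p, (f p).Dom := by
    intro p
    refine (hd p).2 ?_
    by_cases hv : Val p
    · obtain ⟨c, hc⟩ := exists_cert hE1 hE2 hF2 hv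
      exact ⟨c, Or.inr hc⟩
    · exact ⟨default, Or.inl hv⟩
  refine ⟨fun p => (f p).get (htot p), hf.of_eq_tot (fun p => Part.get_mem _), ?_⟩
  intro p hv
  rcases hs p _ (Part.get_mem (htot p)) with h | h
  · exact absurd hv h
  · exact h

/-- the zeros in `S` are computed completely -/
theorem zerosV (hN : Computable NSeq) (hC9 : C9) (hDa : Da) (hDb : Db) (hDc : Dc)
    (hE1 : E1) (hE2 : E2) (hF1 : F1V) (hF2 : F2V) (hF3 : F3V) :
    ∃ A : List ℤ × List ℤ → (ℕ × ℕ) × ℕ × List ℕ, Computable A ∧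
      ∀ (p : List ℤ × List ℤ) (u : ℕ → ℤ), IsLRS p u →
        1 ≤ (A p).2.1 ∧
        (∀ r ∈ (A p).2.2, r < (A p).2.1 ∧ ∀ l, u (r + (A p).2.1 * l) = 0) ∧
        (∀ i k n, (A p).1.1 ≤ k → Good i k n → (∀ q ≤ i, q.Prime → (q : ℤ) ∣ u n) →
          n % (A p).2.1 ∈ (A p).2.2) ∧
        (∀ n ∈ S, (A p).1.2 ≤ n → (∀ q ≤ iSeq (lev n), q.Prime → (q : ℤ) ∣ u n) →
          n % (A p).2.1 ∈ (A p).2.2) := by
  obtain ⟨f, hf, hfc⟩ := select hE1 hE2 hF2 hF3
  refine ⟨fun p => (((f (cv p)).1.1, NSeq (f (cv p)).1.1), (f (cv p)).1.2.2.2.2.1,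
    (List.range (f (cv p)).1.2.2.2.2.1).filter
      (fun r => decide (Van (f (cv p)).1.2.1 (f (cv p)).1.2.2.2.2.1 (f (cv p)).2.1.1
        (f (cv p)).2.2.2 r))), ?_, ?_⟩
  · have h1 : Computable fun p : List ℤ × List ℤ => f (cv p) := hf.comp computable_cv
    have h2 : Computable fun p : List ℤ × List ℤ => (f (cv p)).1.1 :=
      Computable.fst.comp (Computable.fst.comp h1)
    have h3 : Computable fun p : List ℤ × List ℤ => (f (cv p)).1.2.2.2.2.1 := by
      exact Computable.fst.comp (Computable.snd.comp (Computable.snd.comp (Computable.snd.comp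
        (Computable.snd.comp (Computable.fst.comp h1)))))
    exact (h2.pair (hN.comp h2)).pair (h3.pair (hF3.2.comp h1))
  · intro p u hu
    have hv : Val (cv p) := (val_cv p).2 ⟨hu.1, hu.2.1, hu.2.2.1⟩
    have husq : ∀ n, u n = sq (cv p) n := (rec_iff hv u).1 hu.2.2.2
    have hu' : u = sq (cv p) := funext husq
    have hc := hfc (cv p) hv
    obtain ⟨g, s, t, q, w, rr, v, hcd, hst⟩ := hF1 _ _ _ _ _ _ _ _ _ _ _ _ _ _ _ hv.1 hv.2.1 hc
    rw [← hu'] at hcd
    simp only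
    generalize hcc : f (cv p) = c at *
    have hT := hcd.T1
    have hmem : ∀ r, r ∈ (List.range c.1.2.2.2.2.1).filter
        (fun r => decide (Van c.1.2.1 c.1.2.2.2.2.1 c.2.1.1 c.2.2.2 r)) ↔
        r < c.1.2.2.2.2.1 ∧ Van c.1.2.1 c.1.2.2.2.2.1 c.2.1.1 c.2.2.2 r := by
      intro r
      rw [List.mem_filter, List.mem_range, decide_eq_true_eq]
    have key : ∀ i k n, c.1.1 ≤ k → Good i k n → (∀ q ≤ i, q.Prime → (q : ℤ) ∣ u n) →
        n % c.1.2.2.2.2.1 ∈ (List.range c.1.2.2.2.2.1).filter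
          (fun r => decide (Van c.1.2.1 c.1.2.2.2.2.1 c.2.1.1 c.2.2.2 r)) := by
      intro i k n hk hg hq
      rw [hmem]
      refine ⟨Nat.mod_lt n hT, ?_⟩
      by_contra hnv
      obtain ⟨j, hj, l, hl0, hl1⟩ := (hst (n % c.1.2.2.2.2.1) (Nat.mod_lt n hT)).2 hnv
      rcases d0V hC9 hDa hDb hDc _ _ _ _ _ _ _ _ _ _ _ _ _ _ _ (hcd.mono hk) hg hq j hj l
        with h | h
      · exact hl0 h
      · have h3 : (3 : ℤ) ^ (c.1.1 / 2) ≤ 3 ^ (k / 2) :=
          pow_le_pow_right₀ (by norm_num) (Nat.div_le_div_right hk)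
        omega
    refine ⟨hT, ?_, key, ?_⟩
    · intro r hr
      rw [hmem] at hr
      refine ⟨hr.1, fun l => ?_⟩
      have h1 := (hst r hr.1).1 hr.2
      have h2 := hcd.dec (r + c.1.2.2.2.2.1 * l)
      rw [Finset.sum_eq_zero (fun j hj => by rw [h1 j (Finset.mem_range.1 hj) l, mul_zero])] at h2
      rcases mul_eq_zero.1 h2 with h3 | h3
      · have := hcd.D1
        have h4 : (c.1.2.2.1 : ℤ) = 0 := h3
        omega
      · exact h3
    · intro n hn hNn hq
      exact key _ _ n (le_lev hNn) hn hq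

/-- the existence of a zero in `S` is decidable, from the complete description of the zeros -/
theorem decV (hS : ComputablePred (fun n : ℕ => n ∈ S)) (hB2 : Filter.Tendsto
    (fun N : ℕ => (((Finset.range N).filter (fun n => n ∉ S)).card : ℝ) / N) Filter.atTop (nhds 0))
    {A : List ℤ × List ℤ → (ℕ × ℕ) × ℕ × List ℕ} (hA : Computable A)
    (h : ∀ (p : List ℤ × List ℤ) (u : ℕ → ℤ), IsLRS p u →
        1 ≤ (A p).2.1 ∧
        (∀ r ∈ (A p).2.2, r < (A p).2.1 ∧ ∀ l, u (r + (A p).2.1 * l) = 0) ∧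
        (∀ n ∈ S, (A p).1.2 ≤ n → (u n = 0 ↔ n % (A p).2.1 ∈ (A p).2.2))) :
    ComputablePred (fun p : List ℤ × List ℤ => ∃ u : ℕ → ℤ, IsLRS p u ∧ ∃ n ∈ S, u n = 0) := by
  have h1 : ComputablePred (fun p : List ℤ × List ℤ => Val (cv p) ∧
      ((∃ n < (A p).1.2, n ∈ S ∧ (run (Pool.Agent.H884R2.Sko.Fq (cv p).1) (cv p).2 n).1 =
        (run (Pool.Agent.H884R2.Sko.Fq (cv p).1) (cv p).2 n).2) ∨ ¬ (A p).2.2.length = 0)) := by
    refine cp_and (RE.cp_comp cp_val computable_cv) (cp_or ?_ (ComputablePred.not ?_))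
    · refine cp_ex (p := fun (p : List ℤ × List ℤ) n => n ∈ S ∧
        (run (Pool.Agent.H884R2.Sko.Fq (cv p).1) (cv p).2 n).1 =
        (run (Pool.Agent.H884R2.Sko.Fq (cv p).1) (cv p).2 n).2) ?_ ?_
      · refine cp_and (RE.cp_comp hS Computable.snd) ?_
        have hcv : Computable fun x : (List ℤ × List ℤ) × ℕ => cv x.1 :=
          computable_cv.comp Computable.fst
        have hF : Computable fun x : (List ℤ × List ℤ) × ℕ =>
            Pool.Agent.H884R2.Sko.Fq (cv x.1).1 :=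
          Pool.Agent.H884R2.Sko.cFq (Computable.fst.comp hcv)
        have hr : Computable fun x : (List ℤ × List ℤ) × ℕ =>
            run (Pool.Agent.H884R2.Sko.Fq (cv x.1).1) (cv x.1).2 x.2 :=
          crun hF (Computable.snd.comp hcv) Computable.snd
        exact RE.cp_eq (Computable.fst.comp hr) (Computable.snd.comp hr)
      · exact Computable.snd.comp (Computable.fst.comp hA)
    · refine RE.cp_eq ?_ (Computable.const 0)
      have h2 : Computable fun p : List ℤ × List ℤ => (A p).2.2 :=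
        Computable.snd.comp (Computable.snd.comp hA)
      exact Computable.list_length.comp h2
  refine h1.of_eq fun p => ?_
  constructor
  · rintro ⟨hv, hz⟩
    have hv' := (val_cv p).1 hv
    have hu : IsLRS p (sq (cv p)) :=
      ⟨hv'.1, hv'.2.1, hv'.2.2, (rec_iff hv (sq (cv p))).2 fun _ => rfl⟩
    refine ⟨sq (cv p), hu, ?_⟩
    obtain ⟨hT, hR, -⟩ := h p _ hu
    rcases hz with ⟨n, -, hn, h0⟩ | hne
    · exact ⟨n, hn, (sq_eq_zero _ n).2 h0⟩
    · obtain ⟨r, hr⟩ := List.exists_mem_of_length_pos (Nat.pos_of_ne_zero hne)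
      obtain ⟨hrT, hr0⟩ := hR r hr
      obtain ⟨l, hl⟩ := meets hB2 hT r hrT
      exact ⟨_, hl, hr0 l⟩
  · rintro ⟨u, hu, n, hn, h0⟩
    have hv : Val (cv p) := (val_cv p).2 ⟨hu.1, hu.2.1, hu.2.2.1⟩
    have husq : ∀ n, u n = sq (cv p) n := (rec_iff hv u).1 hu.2.2.2
    obtain ⟨hT, hR, hz⟩ := h p u hu
    refine ⟨hv, ?_⟩
    by_cases hlt : n < (A p).1.2
    · left
      refine ⟨n, hlt, hn, (sq_eq_zero _ n).1 ?_⟩
      rw [← husq]
      exact h0
    · right
      have h3 := (hz n hn (not_lt.1 hlt)).1 h0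
      exact (List.length_pos_of_mem h3).ne'

end Pool.Agent.N63.US
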