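import Pool.Agent.N63.US.Stm

set_option autoImplicit false

/-!
# Universal Skolem sets: the gcd sum from its parts
-/

namespace Pool.Agent.N63.US

open Polynomial Finset Pool.Agent.H692R2.USS Pool.Agent.Erdos456.SM
open scoped Classical

namespace GcdAux

theorem one_le_Gr {n : ℕ} (hn : 0 < n) : 1 ≤ Gr n := by
  unfold Gr
  have h : (0 : ℝ) < Nat.totient n := by exact_mod_cast Nat.totient_pos.mpr hn
  rw [one_le_div h]
  exact_mod_cast Nat.totient_le n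

theorem grSum : ∃ C : ℝ, 0 < C ∧ ∀ l : ℕ,
    ∑ g ∈ Ico (2 ^ l : ℕ) (2 ^ (l + 1)), (1 / (g : ℝ)) * Gr g ^ 2 ≤ C := by
  obtain ⟨C, hC⟩ := Pool.Agent.Erdos456.Mert.totRatio_moment
  have hC' : ∀ N : ℕ, ∑ n ∈ Icc 1 N, Gr n ^ 6 ≤ C * N := hC
  have hC0 : 0 < C := by
    have := hC' 1
    simp [Gr] at this
    linarith
  refine ⟨2 * C, by positivity, fun l => ?_⟩
  have h2 : (0 : ℝ) < 2 ^ l := by positivity
  have h1 : ∑ g ∈ Ico (2 ^ l : ℕ) (2 ^ (l + 1)), (1 / (g : ℝ)) * Gr g ^ 2 ≤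
      ∑ g ∈ Ico (2 ^ l : ℕ) (2 ^ (l + 1)), (1 / (2 : ℝ) ^ l) * Gr g ^ 6 := by
    refine Finset.sum_le_sum fun g hg => ?_
    rw [mem_Ico] at hg
    have hg0 : 0 < g := lt_of_lt_of_le (by positivity) hg.1
    have hg1 : (2 : ℝ) ^ l ≤ g := by exact_mod_cast hg.1
    have h3 : 1 / (g : ℝ) ≤ 1 / 2 ^ l := one_div_le_one_div_of_le h2 hg1
    have h4 : Gr g ^ 2 ≤ Gr g ^ 6 := pow_le_pow_right₀ (one_le_Gr hg0) (by norm_num)
    exact mul_le_mul h3 h4 (by positivity) (by positivity)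
  refine h1.trans ?_
  rw [← Finset.mul_sum]
  have h3 : ∑ g ∈ Ico (2 ^ l : ℕ) (2 ^ (l + 1)), Gr g ^ 6 ≤ C * ((2 ^ (l + 1) : ℕ) : ℝ) := by
    refine le_trans ?_ (hC' (2 ^ (l + 1)))
    refine Finset.sum_le_sum_of_subset_of_nonneg ?_ (fun n _ _ => pow_nonneg (Gr_nonneg n) 6)
    intro g hg
    rw [mem_Ico] at hg
    rw [mem_Icc]
    have : 0 < 2 ^ l := by positivity
    omega
  calc 1 / (2 : ℝ) ^ l * ∑ g ∈ Ico (2 ^ l : ℕ) (2 ^ (l + 1)), Gr g ^ 6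
      ≤ 1 / (2 : ℝ) ^ l * (C * ((2 ^ (l + 1) : ℕ) : ℝ)) :=
        mul_le_mul_of_nonneg_left h3 (by positivity)
    _ = 2 * C := by
        push_cast
        rw [pow_succ]
        field_simp

theorem harm (L : ℕ) : ∑ l ∈ range L, 1 / ((l : ℝ) + 1) ≤ 1 + Real.log ((L : ℝ) + 1) := by
  have h := harmonic_le_one_add_log L
  have h2 : ((harmonic L : ℚ) : ℝ) = ∑ l ∈ range L, 1 / ((l : ℝ) + 1) := by
    rw [harmonic]
    push_cast
    refine Finset.sum_congr rfl fun i _ => ?_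
    rw [one_div]
  rw [h2] at h
  rcases Nat.eq_zero_or_pos L with rfl | hL
  · simp
  · have hL' : (0 : ℝ) < L := by exact_mod_cast hL
    have : Real.log L ≤ Real.log ((L : ℝ) + 1) := Real.log_le_log hL' (by linarith)
    linarith

end GcdAux

open GcdAux

theorem gcdSum (hConv : Conv) (hLX : LX) (hTri : TriG) : GcdSum := by
  obtain ⟨C1, hC1, h1⟩ := hLX
  obtain ⟨C2, hC2, h2⟩ := hTri
  obtain ⟨C3, hC3, h3⟩ := grSum
  refine ⟨C2 * (C1 + C3), by positivity, fun L => (hConv L).trans ?_⟩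
  have h4 : ∀ l ∈ range L, ∑ g ∈ Ico (2 ^ l : ℕ) (2 ^ (l + 1)), (1 / (g : ℝ)) * UU L g ≤
      C2 * (C1 + C3) * (1 / ((l : ℝ) + 1)) := by
    intro l _
    have h5 : ∑ g ∈ Ico (2 ^ l : ℕ) (2 ^ (l + 1)), (1 / (g : ℝ)) * UU L g ≤
        ∑ g ∈ Ico (2 ^ l : ℕ) (2 ^ (l + 1)), (C2 / ((l : ℝ) + 1)) *
          ((1 / (g : ℝ)) * FF l g ^ 2 + (1 / (g : ℝ)) * Gr g ^ 2) := by
      refine Finset.sum_le_sum fun g hg => ?_
      rw [mem_Ico] at hg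
      have h6 := h2 L l g hg.1 hg.2
      calc (1 / (g : ℝ)) * UU L g ≤ (1 / (g : ℝ)) * (C2 * (FF l g ^ 2 + Gr g ^ 2) / ((l : ℝ) + 1)) :=
            mul_le_mul_of_nonneg_left h6 (by positivity)
        _ = _ := by ring
    refine h5.trans ?_
    rw [← Finset.mul_sum, Finset.sum_add_distrib]
    calc C2 / ((l : ℝ) + 1) * (∑ g ∈ Ico (2 ^ l : ℕ) (2 ^ (l + 1)), (1 / (g : ℝ)) * FF l g ^ 2 +
          ∑ g ∈ Ico (2 ^ l : ℕ) (2 ^ (l + 1)), (1 / (g : ℝ)) * Gr g ^ 2)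
        ≤ C2 / ((l : ℝ) + 1) * (C1 + C3) :=
          mul_le_mul_of_nonneg_left (add_le_add (h1 l) (h3 l)) (by positivity)
      _ = _ := by ring
  refine (Finset.sum_le_sum h4).trans ?_
  rw [← Finset.mul_sum]
  exact mul_le_mul_of_nonneg_left (harm L) (by positivity)

end Pool.Agent.N63.US
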