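import Pool.Agent.N63.US.Stm

set_option autoImplicit false

/-!
# Project USK: the weighted off-diagonal sum
-/

namespace Pool.Agent.N63.US

open Polynomial Finset Pool.Agent.H692R2.USS Pool.Agent.Erdos456.SM
open scoped Classical

namespace GramAux

theorem block_one (j : ℕ) : ∑ n ∈ Ico (2 ^ j : ℕ) (2 ^ (j + 1)), (if n = 0 then 0 else 1 / (n : ℝ)) ≤
    (fun _ => (1 : ℝ)) j := by
  have h1 : ∀ n ∈ Ico (2 ^ j : ℕ) (2 ^ (j + 1)), (if n = 0 then 0 else 1 / (n : ℝ)) ≤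
      1 / (2 : ℝ) ^ j := by
    intro n hn
    rw [mem_Ico] at hn
    have h0 : 0 < 2 ^ j := by positivity
    rw [if_neg (by omega)]
    have : ((2 : ℝ)) ^ j ≤ n := by exact_mod_cast hn.1
    exact one_div_le_one_div_of_le (by positivity) this
  refine (sum_le_sum h1).trans ?_
  rw [sum_const, Nat.card_Ico, nsmul_eq_mul]
  have h2 : (2 ^ (j + 1) - 2 ^ j : ℕ) = 2 ^ j := by rw [pow_succ]; omega
  rw [h2]
  push_cast
  rw [mul_one_div, div_self (by positivity)]

theorem block_gr {C : ℝ} (hC : ∀ N : ℕ, ∑ n ∈ Icc 1 N, Gr n ^ 6 ≤ C * N) (j : ℕ) :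
    ∑ n ∈ Ico (2 ^ j) (2 ^ (j + 1)), (Gr n ^ 6 / (n : ℝ)) ≤ (fun _ => 2 * C) j := by
  have h1 : ∀ n ∈ Ico (2 ^ j) (2 ^ (j + 1)), (Gr n ^ 6 / (n : ℝ)) ≤
      Gr n ^ 6 * (1 / (2 : ℝ) ^ j) := by
    intro n hn
    rw [mem_Ico] at hn
    have : ((2 : ℝ)) ^ j ≤ n := by exact_mod_cast hn.1
    rw [div_eq_mul_one_div]
    exact mul_le_mul_of_nonneg_left (one_div_le_one_div_of_le (by positivity) this)
      (pow_nonneg (Gr_nonneg n) 6)
  refine (sum_le_sum h1).trans ?_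
  rw [← sum_mul]
  have h2 : ∑ n ∈ Ico (2 ^ j) (2 ^ (j + 1)), Gr n ^ 6 ≤ C * (2 : ℝ) ^ (j + 1) := by
    have h3 := hC (2 ^ (j + 1))
    push_cast at h3
    refine le_trans (sum_le_sum_of_subset_of_nonneg ?_ fun n _ _ => pow_nonneg (Gr_nonneg n) 6) h3
    intro n hn
    rw [mem_Ico] at hn
    have h0 : 0 < 2 ^ j := by positivity
    rw [mem_Icc]
    omega
  have h4 : C * (2 : ℝ) ^ (j + 1) * (1 / (2 : ℝ) ^ j) = 2 * C := by
    rw [pow_succ]; field_simp
  refine (mul_le_mul_of_nonneg_right h2 (by positivity)).trans ?_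
  rw [h4]

theorem range_eq (f : ℕ → ℝ) (h0 : f 0 = 0) (J : ℕ) :
    ∑ n ∈ Ico 1 (2 ^ J), f n = ∑ n ∈ range (2 ^ J), f n := by
  have h : 0 < 2 ^ J := by positivity
  rw [range_eq_Ico, sum_eq_sum_Ico_succ_bot h, h0, zero_add]

theorem shift (F : ℕ → ℝ) (hF : ∀ n, 0 ≤ F n) (N k : ℕ) :
    ∑ k' ∈ Ico 1 N, (if k < k' then F (k' - k) else 0) ≤ ∑ h ∈ Ico 1 N, F h := by
  rw [← sum_filter]
  have h2 : ∑ b ∈ (Ico 1 N).filter (fun b => k < b), F (b - k) =
      ∑ h ∈ ((Ico 1 N).filter (fun b => k < b)).image (fun b => b - k), F h := by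
    rw [sum_image]
    intro x hx y hy hxy
    simp only [coe_filter, Set.mem_ofPred_eq, mem_Ico] at hx hy hxy
    omega
  rw [h2]
  apply sum_le_sum_of_subset_of_nonneg
  · intro h hh
    rw [mem_image] at hh
    obtain ⟨b, hb, rfl⟩ := hh
    rw [mem_filter, mem_Ico] at hb
    rw [mem_Ico]
    omega
  · intro n _ _; exact hF n

end GramAux

open GramAux

theorem gram : Gram := by
  obtain ⟨C, hC⟩ := Pool.Agent.Erdos456.Mert.totRatio_moment
  have hC' : ∀ N : ℕ, ∑ n ∈ Icc 1 N, Gr n ^ 6 ≤ C * N := hC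
  have hC0 : 0 < C := by
    have := hC' 1
    simp [Gr] at this
    linarith
  refine ⟨8 * C, by positivity, fun l => ?_⟩
  set N := 2 ^ (l + 1) with hN
  set S : ℝ := ∑ h ∈ Ico 1 N, Gr h ^ 6 / (h : ℝ) with hS
  set H : ℝ := ∑ h ∈ Ico 1 N, 1 / (h : ℝ) with hH
  have hSb : S ≤ 2 * C * ((l : ℝ) + 1) := by
    have h1 := dyadic_sum (fun n => Gr n ^ 6 / (n : ℝ)) (fun _ => 2 * C) (by simp)
      (block_gr hC') (l + 1)
    rw [hS, hN, range_eq (fun n => Gr n ^ 6 / (n : ℝ)) (by simp)]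
    refine h1.trans (le_of_eq ?_)
    rw [sum_const, card_range, nsmul_eq_mul]
    push_cast; ring
  have hHb : H ≤ (l : ℝ) + 1 := by
    have h1 := dyadic_sum (fun n => if n = 0 then 0 else 1 / (n : ℝ)) (fun _ => 1) (by simp)
      block_one (l + 1)
    have h2 : H = ∑ n ∈ Ico 1 N, (if n = 0 then 0 else 1 / (n : ℝ)) := by
      refine sum_congr rfl fun n hn => ?_
      rw [mem_Ico] at hn
      rw [if_neg (by omega)]
    rw [h2, hN, range_eq (fun n => if n = 0 then 0 else 1 / (n : ℝ)) (by simp)]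
    refine h1.trans (le_of_eq ?_)
    rw [sum_const, card_range, nsmul_eq_mul]
    push_cast; ring
  have hS0 : 0 ≤ S := sum_nonneg fun h _ => div_nonneg (pow_nonneg (Gr_nonneg h) 6) (by positivity)
  have hH0 : 0 ≤ H := sum_nonneg fun h _ => by positivity
  set F : ℕ → ℝ := fun h => Gr h ^ 6 / (h : ℝ) with hF
  have hFn : ∀ n, 0 ≤ F n := fun n => div_nonneg (pow_nonneg (Gr_nonneg n) 6) (by positivity)
  -- the triangular sum
  set T : ℝ := ∑ k ∈ Ico 1 N, ∑ k' ∈ Ico 1 N,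
    (1 / (k : ℝ)) * (if k < k' then F (k' - k) else 0) with hT
  have hTb : T ≤ H * S := by
    rw [hH, sum_mul]
    refine sum_le_sum fun k _ => ?_
    rw [← mul_sum]
    exact mul_le_mul_of_nonneg_left (shift F hFn N k) (by positivity)
  have hterm : ∀ k ∈ Ico 1 N, ∀ k' ∈ Ico 1 N,
      (if k ≠ k' then (Gr k * Gr k' * Gr ((k : ℤ) - (k' : ℤ)).natAbs) ^ 2 / ((k : ℝ) * k')
        else 0) ≤ F k * (1 / (k' : ℝ)) + (1 / (k : ℝ)) * F k' +
        ((1 / (k : ℝ)) * (if k < k' then F (k' - k) else 0) +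
          (1 / (k' : ℝ)) * (if k' < k then F (k - k') else 0)) := by
    intro k hk k' hk'
    rw [mem_Ico] at hk hk'
    have k0 : (0 : ℝ) < k := by exact_mod_cast (by omega : 0 < k)
    have k0' : (0 : ℝ) < k' := by exact_mod_cast (by omega : 0 < k')
    have hFk := hFn k
    have hFk' := hFn k'
    have hnn : 0 ≤ (1 / (k : ℝ)) * (if k < k' then F (k' - k) else 0) := by
      refine mul_nonneg (by positivity) ?_
      split_ifs
      · exact hFn _
      · exact le_rfl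
    have hnn' : 0 ≤ (1 / (k' : ℝ)) * (if k' < k then F (k - k') else 0) := by
      refine mul_nonneg (by positivity) ?_
      split_ifs
      · exact hFn _
      · exact le_rfl
    split_ifs with hne hlt hlt' hlt'
    · omega
    · -- k < k'
      have e : ((k : ℤ) - (k' : ℤ)).natAbs = k' - k := by omega
      rw [e]
      have h1 := @amgm6 (Gr k) (Gr k') (Gr (k' - k))
      have h2 : Gr (k' - k) ^ 6 / ((k : ℝ) * k') ≤ (1 / (k : ℝ)) * F (k' - k) := by
        simp only [hF]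
        have h3 : (0 : ℝ) < ((k' - k : ℕ) : ℝ) := by exact_mod_cast (by omega : 0 < k' - k)
        have h4 : ((k' - k : ℕ) : ℝ) ≤ k' := by exact_mod_cast (Nat.sub_le k' k)
        rw [one_div_mul_eq_div, div_div]
        refine div_le_div_of_nonneg_left (pow_nonneg (Gr_nonneg _) 6) (by positivity) ?_
        nlinarith
      have h5 : (Gr k * Gr k' * Gr (k' - k)) ^ 2 / ((k : ℝ) * k') ≤
          (Gr k ^ 6 + Gr k' ^ 6 + Gr (k' - k) ^ 6) / ((k : ℝ) * k') :=
        div_le_div_of_nonneg_right h1 (by positivity)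
      have h6 : (Gr k ^ 6 + Gr k' ^ 6 + Gr (k' - k) ^ 6) / ((k : ℝ) * k') =
          F k * (1 / (k' : ℝ)) + (1 / (k : ℝ)) * F k' + Gr (k' - k) ^ 6 / ((k : ℝ) * k') := by
        simp only [hF]; field_simp
      rw [mul_zero, add_zero]
      linarith
    · -- k' < k
      have e : ((k : ℤ) - (k' : ℤ)).natAbs = k - k' := by omega
      rw [e]
      have h1 := @amgm6 (Gr k) (Gr k') (Gr (k - k'))
      have h2 : Gr (k - k') ^ 6 / ((k : ℝ) * k') ≤ (1 / (k' : ℝ)) * F (k - k') := by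
        simp only [hF]
        have h3 : (0 : ℝ) < ((k - k' : ℕ) : ℝ) := by exact_mod_cast (by omega : 0 < k - k')
        have h4 : ((k - k' : ℕ) : ℝ) ≤ k := by exact_mod_cast (Nat.sub_le k k')
        rw [one_div_mul_eq_div, div_div]
        refine div_le_div_of_nonneg_left (pow_nonneg (Gr_nonneg _) 6) (by positivity) ?_
        nlinarith
      have h5 : (Gr k * Gr k' * Gr (k - k')) ^ 2 / ((k : ℝ) * k') ≤
          (Gr k ^ 6 + Gr k' ^ 6 + Gr (k - k') ^ 6) / ((k : ℝ) * k') :=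
        div_le_div_of_nonneg_right h1 (by positivity)
      have h6 : (Gr k ^ 6 + Gr k' ^ 6 + Gr (k - k') ^ 6) / ((k : ℝ) * k') =
          F k * (1 / (k' : ℝ)) + (1 / (k : ℝ)) * F k' + Gr (k - k') ^ 6 / ((k : ℝ) * k') := by
        simp only [hF]; field_simp
      rw [mul_zero, zero_add]
      linarith
    · omega
    all_goals
      have p1 : 0 ≤ F k * (1 / (k' : ℝ)) := mul_nonneg hFk (by positivity)
      have p2 : 0 ≤ (1 / (k : ℝ)) * F k' := mul_nonneg (by positivity) hFk'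
      first
        | omega
        | (rw [mul_zero, mul_zero]; linarith)
  refine (sum_le_sum fun k hk => sum_le_sum (hterm k hk)).trans ?_
  have e1 : ∑ k ∈ Ico 1 N, ∑ k' ∈ Ico 1 N, F k * (1 / (k' : ℝ)) = S * H := by
    rw [hS, hH, sum_mul_sum]
  have e2 : ∑ k ∈ Ico 1 N, ∑ k' ∈ Ico 1 N, (1 / (k : ℝ)) * F k' = H * S := by
    rw [hS, hH, sum_mul_sum]
  have e3 : ∑ k ∈ Ico 1 N, ∑ k' ∈ Ico 1 N,
      (1 / (k' : ℝ)) * (if k' < k then F (k - k') else 0) = T := by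
    rw [hT, sum_comm]
  simp only [sum_add_distrib]
  rw [e1, e2, e3]
  have h7 : S * H ≤ (2 * C * ((l : ℝ) + 1)) * ((l : ℝ) + 1) :=
    mul_le_mul hSb hHb hH0 (by positivity)
  have h8 : T = ∑ k ∈ Ico 1 N, ∑ k' ∈ Ico 1 N,
    (1 / (k : ℝ)) * (if k < k' then F (k' - k) else 0) := rfl
  rw [← h8]
  nlinarith

end Pool.Agent.N63.US
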