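import Pool.Agent.N63.US.Stm

set_option autoImplicit false

/-!
# Project USK: mean square over `g` of the sum of `1 / k` over `k` with `g k + 1` prime
-/

namespace Pool.Agent.N63.US

open Finset Pool.Agent.Erdos456.SM
open scoped Classical

namespace LXpAux

/-- two linear forms on a dyadic interval -/
lemma pair_dyadic : ∃ C : ℝ, 0 < C ∧ ∀ k k' : ℕ, 0 < k → 0 < k' → k ≠ k' → ∀ l : ℕ,
    ∑ g ∈ Ico (2 ^ l : ℕ) (2 ^ (l + 1)),
      (if (g * k + 1).Prime ∧ (g * k' + 1).Prime then (1 : ℝ) / g else 0) ≤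
      8 * C * (Gr k * Gr k' * Gr ((k : ℤ) - (k' : ℤ)).natAbs) ^ 2 / ((l : ℝ) + 1) ^ 2 := by
  obtain ⟨C, hC, h⟩ := Pool.Agent.Erdos456.sieve_two
  refine ⟨C, hC, ?_⟩
  intro a b ha hb hab l
  obtain ⟨G, hG⟩ : ∃ G : ℝ, G = Gr a * Gr b * Gr ((a : ℤ) - (b : ℤ)).natAbs := ⟨_, rfl⟩
  rw [← hG]
  have hdab : 0 < ((a : ℤ) - (b : ℤ)).natAbs := by
    rw [Int.natAbs_pos]
    intro h0
    apply hab
    omega
  have hGD : Gr (a * b * ((a : ℤ) - (b : ℤ)).natAbs) ≤ G := by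
    rw [hG]
    refine (Gr_mul_le (Nat.mul_pos ha hb) hdab).trans ?_
    exact mul_le_mul_of_nonneg_right (Gr_mul_le ha hb) (Gr_nonneg _)
  have hN2 : 2 ≤ 2 ^ (l + 1) := by
    calc 2 = 2 ^ 1 := by norm_num
      _ ≤ 2 ^ (l + 1) := Nat.pow_le_pow_right (by norm_num) (by omega)
  have hs := h a 1 b 1 (2 ^ (l + 1)) ha hb (Nat.coprime_one_right a) (Nat.coprime_one_right b)
    (by simpa using hab) hN2
  simp only [mul_one] at hs
  have h2 : (((a * b * ((a : ℤ) - (b : ℤ)).natAbs : ℕ) : ℝ) /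
      ((Nat.totient (a * b * ((a : ℤ) - (b : ℤ)).natAbs) : ℕ) : ℝ)) ^ 2 ≤ G ^ 2 :=
    pow_le_pow_left₀ (Gr_nonneg _) hGD 2
  obtain ⟨cd, hcd⟩ : ∃ cd : ℕ, cd = ((Icc 1 (2 ^ (l + 1))).filter
      (fun n => (a * n + 1).Prime ∧ (b * n + 1).Prime)).card := ⟨_, rfl⟩
  have hlog : Real.log ((2 ^ (l + 1) : ℕ) : ℝ) = ((l : ℝ) + 1) * Real.log 2 := by
    push_cast
    rw [Real.log_pow]
    push_cast
    ring
  have hl0 : (0 : ℝ) < (l : ℝ) + 1 := by positivity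
  have hl2 : (1 / 2 : ℝ) ≤ Real.log 2 := by
    have := Real.log_two_gt_d9
    linarith
  have hsq : ((l : ℝ) + 1) ^ 2 / 4 ≤ Real.log ((2 ^ (l + 1) : ℕ) : ℝ) ^ 2 := by
    rw [hlog, mul_pow]
    have h3 : (1 / 2 : ℝ) ^ 2 ≤ Real.log 2 ^ 2 := pow_le_pow_left₀ (by norm_num) hl2 2
    have h4 := mul_le_mul_of_nonneg_left h3 (sq_nonneg ((l : ℝ) + 1))
    linarith
  have hcard : (cd : ℝ) ≤ 4 * C * G ^ 2 * (2 * 2 ^ l) / ((l : ℝ) + 1) ^ 2 := by
    have h5 : (cd : ℝ) ≤ C * (((a * b * ((a : ℤ) - (b : ℤ)).natAbs : ℕ) : ℝ) /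
        ((Nat.totient (a * b * ((a : ℤ) - (b : ℤ)).natAbs) : ℕ) : ℝ)) ^ 2 *
        ((2 ^ (l + 1) : ℕ) : ℝ) / Real.log ((2 ^ (l + 1) : ℕ) : ℝ) ^ 2 := by
      rw [hcd]
      convert hs using 3
    refine h5.trans ?_
    have e : 4 * C * G ^ 2 * (2 * 2 ^ l) / ((l : ℝ) + 1) ^ 2 =
        C * G ^ 2 * ((2 ^ (l + 1) : ℕ) : ℝ) / (((l : ℝ) + 1) ^ 2 / 4) := by
      push_cast
      field_simp
      ring
    rw [e]
    apply div_le_div₀ (by positivity) _ (by positivity) hsq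
    exact mul_le_mul_of_nonneg_right (mul_le_mul_of_nonneg_left h2 hC.le) (Nat.cast_nonneg _)
  have h2l : (0 : ℝ) < (2 : ℝ) ^ l := by positivity
  have h6 : ∀ g ∈ Ico (2 ^ l : ℕ) (2 ^ (l + 1)),
      (if (g * a + 1).Prime ∧ (g * b + 1).Prime then (1 : ℝ) / g else 0) ≤
      if (g * a + 1).Prime ∧ (g * b + 1).Prime then ((2 : ℝ) ^ l)⁻¹ else 0 := by
    intro g hg
    rw [mem_Ico] at hg
    split_ifs
    · rw [one_div]
      apply inv_anti₀ h2l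
      exact_mod_cast hg.1
    · exact le_rfl
  refine (sum_le_sum h6).trans ?_
  rw [← sum_filter, sum_const, nsmul_eq_mul]
  have h7 : (((Ico (2 ^ l : ℕ) (2 ^ (l + 1))).filter
      (fun g => (g * a + 1).Prime ∧ (g * b + 1).Prime)).card : ℝ) ≤ cd := by
    rw [hcd]
    have : ((Ico (2 ^ l : ℕ) (2 ^ (l + 1))).filter
        (fun g => (g * a + 1).Prime ∧ (g * b + 1).Prime)).card ≤
        ((Icc 1 (2 ^ (l + 1))).filter
        (fun n => (a * n + 1).Prime ∧ (b * n + 1).Prime)).card := by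
      apply card_le_card
      intro n hn
      rw [mem_filter, mem_Ico] at hn
      rw [mem_filter, mem_Icc, mul_comm a, mul_comm b]
      exact ⟨⟨le_trans (Nat.one_le_two_pow) hn.1.1, hn.1.2.le⟩, hn.2⟩
    exact_mod_cast this
  have h8 := mul_le_mul_of_nonneg_right (h7.trans hcard) (inv_nonneg.2 h2l.le)
  refine h8.trans (le_of_eq ?_)
  field_simp
  ring

/-- the diagonal -/
lemma diag (l k : ℕ) :
    ∑ g ∈ Ico (2 ^ l : ℕ) (2 ^ (l + 1)),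
      (if (g * k + 1).Prime ∧ (g * k + 1).Prime then (1 : ℝ) / g else 0) ≤ 1 := by
  have h2l : (0 : ℝ) < (2 : ℝ) ^ l := by positivity
  have h6 : ∀ g ∈ Ico (2 ^ l : ℕ) (2 ^ (l + 1)),
      (if (g * k + 1).Prime ∧ (g * k + 1).Prime then (1 : ℝ) / g else 0) ≤ ((2 : ℝ) ^ l)⁻¹ := by
    intro g hg
    rw [mem_Ico] at hg
    split_ifs
    · rw [one_div]
      apply inv_anti₀ h2l
      exact_mod_cast hg.1
    · positivity
  refine (sum_le_sum h6).trans ?_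
  rw [sum_const, Nat.card_Ico, nsmul_eq_mul]
  have : 2 ^ (l + 1) - 2 ^ l = 2 ^ l := by
    rw [pow_succ]
    omega
  rw [this]
  push_cast
  exact le_of_eq (mul_inv_cancel₀ h2l.ne')

end LXpAux

open LXpAux in
theorem lx : Gram → LX := by
  rintro ⟨CG, hCG, hG⟩
  obtain ⟨C, hC, hP⟩ := pair_dyadic
  refine ⟨2 + 8 * C * CG, by positivity, ?_⟩
  intro l
  obtain ⟨K, hK⟩ : ∃ K : Finset ℕ, K = Ico 1 (2 ^ (l + 1)) := ⟨_, rfl⟩
  have hKpos : ∀ k ∈ K, 0 < k := by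
    intro k hk
    rw [hK, mem_Ico] at hk
    omega
  -- the square of `FF`
  have hFF : ∀ g : ℕ, FF l g ^ 2 = ∑ k ∈ K, ∑ k' ∈ K,
      (if (g * k + 1).Prime ∧ (g * k' + 1).Prime then (1 : ℝ) / (k * k') else 0) := by
    intro g
    unfold FF
    rw [← hK, sum_filter, sq, sum_mul_sum]
    refine sum_congr rfl fun k _ => sum_congr rfl fun k' _ => ?_
    by_cases h1 : (g * k + 1).Prime
    · by_cases h2 : (g * k' + 1).Prime
      · rw [if_pos h1, if_pos h2, if_pos ⟨h1, h2⟩]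
        rw [div_mul_div_comm, one_mul]
      · simp only [h1, h2, and_false, if_false, mul_zero]
    · simp only [h1, false_and, if_false, zero_mul]
  have hex : ∑ g ∈ Ico (2 ^ l : ℕ) (2 ^ (l + 1)), (1 / (g : ℝ)) * FF l g ^ 2 =
      ∑ k ∈ K, ∑ k' ∈ K, (1 : ℝ) / (k * k') * ∑ g ∈ Ico (2 ^ l : ℕ) (2 ^ (l + 1)),
        (if (g * k + 1).Prime ∧ (g * k' + 1).Prime then (1 : ℝ) / g else 0) := by
    have h1 : ∀ g ∈ Ico (2 ^ l : ℕ) (2 ^ (l + 1)), (1 / (g : ℝ)) * FF l g ^ 2 =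
        ∑ k ∈ K, ∑ k' ∈ K, (1 : ℝ) / (k * k') *
          (if (g * k + 1).Prime ∧ (g * k' + 1).Prime then (1 : ℝ) / g else 0) := by
      intro g _
      rw [hFF, mul_sum]
      refine sum_congr rfl fun k _ => ?_
      rw [mul_sum]
      refine sum_congr rfl fun k' _ => ?_
      split_ifs
      · ring
      · ring
    rw [sum_congr rfl h1, sum_comm]
    refine sum_congr rfl fun k _ => ?_
    rw [sum_comm]
    refine sum_congr rfl fun k' _ => ?_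
    rw [mul_sum]
  rw [hex]
  have hterm : ∀ k ∈ K, ∀ k' ∈ K, (1 : ℝ) / (k * k') * ∑ g ∈ Ico (2 ^ l : ℕ) (2 ^ (l + 1)),
        (if (g * k + 1).Prime ∧ (g * k' + 1).Prime then (1 : ℝ) / g else 0) ≤
      (if k = k' then (1 : ℝ) / (k : ℝ) ^ 2 else 0) + 8 * C / ((l : ℝ) + 1) ^ 2 *
        (if k ≠ k' then (Gr k * Gr k' * Gr ((k : ℤ) - (k' : ℤ)).natAbs) ^ 2 / ((k : ℝ) * k')
          else 0) := by
    intro k hk k' hk'
    have p1 : (0 : ℝ) < k := by exact_mod_cast hKpos k hk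
    have p2 : (0 : ℝ) < k' := by exact_mod_cast hKpos k' hk'
    by_cases hkk : k = k'
    · subst hkk
      rw [if_pos rfl, if_neg (fun h => h rfl), mul_zero, add_zero]
      have h1 := mul_le_mul_of_nonneg_left (diag l k)
        (by positivity : (0 : ℝ) ≤ 1 / ((k : ℝ) * k))
      rw [mul_one, ← sq] at h1
      rw [← sq]
      exact h1
    · rw [if_neg hkk, if_pos hkk, zero_add]
      have h1 := mul_le_mul_of_nonneg_left (hP k k' (hKpos k hk) (hKpos k' hk') hkk l)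
        (by positivity : (0 : ℝ) ≤ 1 / ((k : ℝ) * k'))
      refine h1.trans (le_of_eq ?_)
      field_simp
  refine (sum_le_sum fun k hk => sum_le_sum fun k' hk' => hterm k hk k' hk').trans ?_
  have h1 : ∑ k ∈ K, ∑ k' ∈ K, ((if k = k' then (1 : ℝ) / (k : ℝ) ^ 2 else 0) +
      8 * C / ((l : ℝ) + 1) ^ 2 * (if k ≠ k' then
        (Gr k * Gr k' * Gr ((k : ℤ) - (k' : ℤ)).natAbs) ^ 2 / ((k : ℝ) * k') else 0)) =
      ∑ k ∈ K, (1 : ℝ) / (k : ℝ) ^ 2 + 8 * C / ((l : ℝ) + 1) ^ 2 *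
        ∑ k ∈ K, ∑ k' ∈ K, (if k ≠ k' then
        (Gr k * Gr k' * Gr ((k : ℤ) - (k' : ℤ)).natAbs) ^ 2 / ((k : ℝ) * k') else 0) := by
    rw [mul_sum, ← sum_add_distrib]
    refine sum_congr rfl fun k hk => ?_
    rw [sum_add_distrib, mul_sum, sum_ite_eq, if_pos hk]
  rw [h1]
  have h2 : ∑ k ∈ K, (1 : ℝ) / (k : ℝ) ^ 2 ≤ 2 := by
    rw [hK, sum_Ico_eq_sum_range]
    refine le_trans (le_of_eq ?_) (sum_inv_sq (2 ^ (l + 1) - 1))
    refine sum_congr rfl fun j _ => ?_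
    push_cast
    rw [add_comm]
  have h3 := hG l
  rw [← hK] at h3
  have hl0 : (0 : ℝ) < (l : ℝ) + 1 := by positivity
  have h4 := mul_le_mul_of_nonneg_left h3 (by positivity : (0 : ℝ) ≤ 8 * C / ((l : ℝ) + 1) ^ 2)
  have h5 : 8 * C / ((l : ℝ) + 1) ^ 2 * (CG * ((l : ℝ) + 1) ^ 2) = 8 * C * CG := by
    field_simp
  rw [h5] at h4
  linarith

end Pool.Agent.N63.US
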