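import Pool.Agent.N63.US.Stm
import Pool.Agent.H692R2.USS.Basic

set_option autoImplicit false

/-!
# Leibniz rule for the shift and multiplication by a binomial coefficient
-/

namespace Pool.Agent.N63.US

open Polynomial Finset Pool.Agent.H692R2.USS

namespace LeibPAux

theorem mono (i : ℕ) (c : ℤ) (u : ℕ → ℤ) (n : ℕ) :
    aeval (E ℤ) (monomial i c) u n = c * u (n + i) := by
  rw [aeval_monomial, Module.End.mul_apply, Module.algebraMap_end_apply, Pi.smul_apply,
    E_pow_apply, smul_eq_mul]

theorem mono_hasse (i b : ℕ) (c : ℤ) (w : ℕ → ℤ) (n : ℕ) :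
    aeval (E ℤ) (X ^ b * hasseDeriv b (monomial i c)) w n = (i.choose b : ℤ) * c * w (n + i) := by
  rw [hasseDeriv_monomial]
  by_cases h : b ≤ i
  · have h1 : (X ^ b * monomial (i - b) ((i.choose b : ℤ) * c) : ℤ[X])
        = monomial i ((i.choose b : ℤ) * c) := by
      rw [X_pow_mul_monomial, Nat.sub_add_cancel h]
    rw [h1, mono]
  · push Not at h
    rw [Nat.choose_eq_zero_of_lt h]
    simp

theorem vand (n i a : ℕ) :
    ((n + i).choose a : ℤ) = ∑ b ∈ range (a + 1), (n.choose (a - b) : ℤ) * (i.choose b : ℤ) := by
  rw [add_comm n i, Nat.add_choose_eq, Finset.Nat.sum_antidiagonal_eq_sum_range_succ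
    (fun x y => i.choose x * n.choose y)]
  push_cast
  exact Finset.sum_congr rfl fun b _ => mul_comm _ _

end LeibPAux

open LeibPAux

/-- Leibniz rule for the shift and multiplication by a binomial coefficient -/
theorem leib : Leib := by
  intro f a w n
  induction f using Polynomial.induction_on' with
  | add p q hp hq =>
    rw [map_add, LinearMap.add_apply, Pi.add_apply, hp, hq, ← Finset.sum_add_distrib]
    refine Finset.sum_congr rfl fun b _ => ?_
    rw [map_add, mul_add, map_add, LinearMap.add_apply, Pi.add_apply, mul_add]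
  | monomial i c =>
    rw [mono, vand, Finset.sum_mul, Finset.mul_sum]
    refine Finset.sum_congr rfl fun b _ => ?_
    rw [mono_hasse]
    ring

/-- binomial multiples of a sequence killed by `g` are killed by a power of `g` -/
theorem binAnn : BinAnn := by
  intro g w j
  induction j using Nat.strong_induction_on generalizing w with
  | _ j ih =>
    intro hw
    have h1 : aeval (E ℤ) g (fun n => (n.choose j : ℤ) * w n) =
        ∑ b ∈ range (j + 1), fun n => (n.choose (j - b) : ℤ) *
          aeval (E ℤ) (X ^ b * hasseDeriv b g) w n := by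
      funext n
      rw [leib g j w n, Finset.sum_apply]
    have h2 : Ann (g ^ j) (aeval (E ℤ) g (fun n => (n.choose j : ℤ) * w n)) := by
      rw [h1]
      refine Ann.sum _ fun b hb => ?_
      have hb' : b ≤ j := Nat.lt_succ_iff.1 (Finset.mem_range.1 hb)
      rcases Nat.eq_zero_or_pos b with rfl | hb0
      · have h3 : aeval (E ℤ) (X ^ 0 * hasseDeriv 0 g) w = 0 := by
          rw [pow_zero, one_mul, hasseDeriv_zero']
          exact hw
        have h4 : (fun n => ((n.choose (j - 0) : ℕ) : ℤ) *
            aeval (E ℤ) (X ^ 0 * hasseDeriv 0 g) w n) = (0 : ℕ → ℤ) := by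
          funext n
          rw [h3]
          simp
        rw [h4]
        unfold Ann
        rw [map_zero]
      · have h5 := ih (j - b) (by omega) (aeval (E ℤ) (X ^ b * hasseDeriv b g) w) (hw.aeval _)
        exact h5.of_dvd (pow_dvd_pow g (by omega))
    unfold Ann at h2 ⊢
    rw [pow_succ, map_mul, Module.End.mul_apply]
    exact h2

end Pool.Agent.N63.US
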