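import Pool.Agent.H692R2.USS.T1
import Pool.Agent.H692R2.USS.T5
import Pool.Agent.H692R2.USS.SplitField

set_option autoImplicit false

/-!
# Universal Skolem sets: primes splitting all small polynomials have positive relative mass
-/

namespace Pool.Agent.N63.US

open Finset Pool.Agent.H692R2.USS
open scoped Classical

theorem mass (k : ℕ) : Mass k := by
  obtain ⟨K, hF, hN, h⟩ := splitField k
  obtain ⟨c, C, hc, hm⟩ := massK bt K
  refine ⟨c, C, hc, fun L hL => (hm L hL).trans ?_⟩
  refine Finset.sum_le_sum_of_subset_of_nonneg ?_ (fun _ _ _ => by positivity)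
  intro p hp
  rw [Finset.mem_filter] at hp ⊢
  exact ⟨hp.1, hp.2.1, h p hp.2.1 hp.2.2⟩

end Pool.Agent.N63.US
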