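import Pool.Agent.N63.US.Stm

set_option autoImplicit false

/-!
# Project USK, piece Moment: the second moment inequality
-/

namespace Pool.Agent.N63.US

open Polynomial Finset Pool.Agent.H692R2.USS Pool.Agent.Erdos456.SM
open scoped Classical

namespace MomentPAux

/-- the sum of an indicator over `range M` -/
lemma sum_ind (M : ℕ) (B : Finset ℕ) (hB : B ⊆ range M) (c : ℝ) :
    ∑ n ∈ range M, (if n ∈ B then c else 0) = c * (B.card : ℝ) := by
  rw [← Finset.sum_filter]
  have : (range M).filter (fun n => n ∈ B) = B := by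
    ext x
    simp only [mem_filter]
    exact ⟨fun h => h.2, fun h => ⟨hB h, h⟩⟩
  rw [this, Finset.sum_const, nsmul_eq_mul, mul_comm]

end MomentPAux

open MomentPAux in
theorem moment : Moment := by
  intro P M A w m e hw hA hc hi
  set R : ℕ → ℝ := fun n => ∑ p ∈ P, if n ∈ A p then w p else 0 with hR
  set μ : ℝ := ∑ p ∈ P, w p * m p with hμ
  set X : ℝ := ∑ p ∈ P, w p ^ 2 * m p +
    ∑ p ∈ P, ∑ q ∈ P, (if p ≠ q then w p * w q * e p q else 0) with hX
  have h1 : ∑ n ∈ range M, R n = M * μ := by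
    rw [hR, Finset.sum_comm, hμ, Finset.mul_sum]
    refine Finset.sum_congr rfl fun p hp => ?_
    rw [sum_ind M (A p) (hA p hp), hc p hp]
    ring
  have h2 : ∑ n ∈ range M, R n ^ 2 = ∑ p ∈ P, ∑ q ∈ P, w p * w q * ((A p ∩ A q).card : ℝ) := by
    have : ∀ n ∈ range M, R n ^ 2 =
        ∑ p ∈ P, ∑ q ∈ P, if n ∈ A p ∩ A q then w p * w q else 0 := by
      intro n _
      rw [hR]
      simp only
      rw [pow_two, Finset.sum_mul_sum]
      refine Finset.sum_congr rfl fun p _ => Finset.sum_congr rfl fun q _ => ?_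
      by_cases h1 : n ∈ A p <;> by_cases h2 : n ∈ A q <;> simp [h1, h2]
    rw [Finset.sum_congr rfl this, Finset.sum_comm]
    refine Finset.sum_congr rfl fun p hp => ?_
    rw [Finset.sum_comm]
    refine Finset.sum_congr rfl fun q hq => ?_
    rw [sum_ind M (A p ∩ A q) (Finset.inter_subset_left.trans (hA p hp))]
  have h3 : ∑ p ∈ P, ∑ q ∈ P, w p * w q * ((A p ∩ A q).card : ℝ) ≤
      ∑ p ∈ P, ∑ q ∈ P, (M : ℝ) * ((w p * m p) * (w q * m q) -
        (if p = q then (w p * m p) ^ 2 else 0) + (if p = q then w p ^ 2 * m p else 0) +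
        (if p ≠ q then w p * w q * e p q else 0)) := by
    refine Finset.sum_le_sum fun p hp => Finset.sum_le_sum fun q hq => ?_
    by_cases hpq : p = q
    · subst hpq
      rw [Finset.inter_self, hc p hp]
      simp only [if_true, ne_eq, not_true_eq_false, if_false]
      apply le_of_eq
      ring
    · have h4 := hi p hp q hq hpq
      simp only [ne_eq, hpq, not_false_eq_true, if_true, if_false]
      have h5 : 0 ≤ w p * w q := mul_nonneg (hw p hp) (hw q hq)
      calc w p * w q * ((A p ∩ A q).card : ℝ) ≤ w p * w q * (M * (m p * m q + e p q)) :=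
            mul_le_mul_of_nonneg_left h4 h5
        _ = _ := by ring
  have h4 : ∑ p ∈ P, ∑ q ∈ P, (M : ℝ) * ((w p * m p) * (w q * m q) -
        (if p = q then (w p * m p) ^ 2 else 0) + (if p = q then w p ^ 2 * m p else 0) +
        (if p ≠ q then w p * w q * e p q else 0)) =
      M * (μ ^ 2 - ∑ p ∈ P, (w p * m p) ^ 2 + X) := by
    have e1 : ∑ p ∈ P, ∑ q ∈ P, (w p * m p) * (w q * m q) = μ ^ 2 := by
      rw [pow_two, hμ, Finset.sum_mul_sum]
    have e2 : ∑ p ∈ P, ∑ q ∈ P, (if p = q then (w p * m p) ^ 2 else 0) =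
        ∑ p ∈ P, (w p * m p) ^ 2 := by
      refine Finset.sum_congr rfl fun p hp => ?_
      rw [Finset.sum_ite_eq, if_pos hp]
    have e3 : ∑ p ∈ P, ∑ q ∈ P, (if p = q then w p ^ 2 * m p else 0) =
        ∑ p ∈ P, w p ^ 2 * m p := by
      refine Finset.sum_congr rfl fun p hp => ?_
      rw [Finset.sum_ite_eq, if_pos hp]
    simp_rw [← Finset.mul_sum, Finset.sum_add_distrib, Finset.sum_sub_distrib]
    rw [e1, e2, e3, hX]
    ring
  have h5 : (0 : ℝ) ≤ ∑ p ∈ P, (w p * m p) ^ 2 := Finset.sum_nonneg fun p _ => sq_nonneg _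
  have h6 : ∑ n ∈ range M, R n ^ 2 ≤ M * (μ ^ 2 + X) := by
    rw [h2]
    refine (h3.trans h4.le).trans ?_
    exact mul_le_mul_of_nonneg_left (by linarith) (Nat.cast_nonneg M)
  have h7 : ∑ n ∈ range M, (R n - μ) ^ 2 ≤ M * X := by
    have : ∑ n ∈ range M, (R n - μ) ^ 2 =
        ∑ n ∈ range M, R n ^ 2 - 2 * μ * ∑ n ∈ range M, R n + M * μ ^ 2 := by
      rw [Finset.mul_sum, ← Finset.sum_sub_distrib]
      have h8 : (M : ℝ) * μ ^ 2 = ∑ _n ∈ range M, μ ^ 2 := by simp
      rw [h8, ← Finset.sum_add_distrib]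
      refine Finset.sum_congr rfl fun n _ => ?_
      ring
    rw [this, h1]
    nlinarith [h6]
  refine le_trans ?_ h7
  have h8 : (((range M).filter (fun n => ∀ p ∈ P, n ∉ A p)).card : ℝ) * μ ^ 2 =
      ∑ n ∈ (range M).filter (fun n => ∀ p ∈ P, n ∉ A p), (R n - μ) ^ 2 := by
    rw [← nsmul_eq_mul, ← Finset.sum_const]
    refine Finset.sum_congr rfl fun n hn => ?_
    have h9 : R n = 0 := by
      rw [hR]
      refine Finset.sum_eq_zero fun p hp => ?_
      rw [if_neg ((Finset.mem_filter.mp hn).2 p hp)]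
    rw [h9]
    ring
  rw [h8]
  exact Finset.sum_le_sum_of_subset_of_nonneg (Finset.filter_subset _ _)
    fun n _ _ => sq_nonneg _

end Pool.Agent.N63.US
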