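import Pool.Agent.N63.US.Stm

set_option autoImplicit false

/-!
# Project USK, PairCount (helper966): residues in intervals for two moduli
-/

namespace Pool.Agent.N63.US

open Finset
open scoped Classical

namespace PairCountPAux

theorem card_class (β W' g c : ℕ) (_hg : 0 < g) :
    ((Ico β (β + W')).filter (fun r' => r' % g = c)).card ≤ W' / g + 1 := by
  have h : ((Ico β (β + W')).filter (fun r' => r' % g = c)).card ≤ (range (W' / g + 1)).card := by
    refine card_le_card_of_injOn (fun r' => (r' - β) / g) ?_ ?_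
    · intro r' hr'
      simp only [coe_filter, Set.mem_ofPred_eq, mem_Ico] at hr'
      simp only [coe_range, Set.mem_Iio]
      exact Nat.lt_succ_of_le (Nat.div_le_div_right (by omega))
    · intro x hx y hy hxy
      simp only [coe_filter, Set.mem_ofPred_eq, mem_Ico] at hx hy
      have e1 : (x - β) ≡ (y - β) [MOD g] := by
        have h1 : x ≡ y [MOD g] := hx.2.trans hy.2.symm
        have h2 : x - β + β ≡ y - β + β [MOD g] := by
          rw [Nat.sub_add_cancel hx.1.1, Nat.sub_add_cancel hy.1.1]
          exact h1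
        exact Nat.ModEq.add_right_cancel' β h2
      have e2 := Nat.div_add_mod (x - β) g
      have e3 := Nat.div_add_mod (y - β) g
      have e4 : (x - β) / g = (y - β) / g := hxy
      have e5 : (x - β) % g = (y - β) % g := e1
      rw [e4, e5, e3] at e2
      have := hx.1.1
      have := hy.1.1
      omega
  rwa [card_range] at h

theorem card_two (a b M r r' : ℕ) (ha : 0 < a) (hb : 0 < b) (haM : a ∣ M) (hbM : b ∣ M) :
    ((range M).filter (fun n => n % a = r ∧ n % b = r')).card ≤ M / Nat.lcm a b := by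
  have hl : 0 < Nat.lcm a b := Nat.lcm_pos ha hb
  have h : ((range M).filter (fun n => n % a = r ∧ n % b = r')).card ≤
      (range (M / Nat.lcm a b)).card := by
    refine card_le_card_of_injOn (fun n => n / Nat.lcm a b) ?_ ?_
    · intro n hn
      simp only [coe_filter, Set.mem_ofPred_eq, mem_range] at hn
      simp only [coe_range, Set.mem_Iio]
      exact Nat.div_lt_div_of_lt_of_dvd (Nat.lcm_dvd haM hbM) hn.1
    · intro x hx y hy hxy
      simp only [coe_filter, Set.mem_ofPred_eq, mem_range] at hx hy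
      have h1 : x ≡ y [MOD a] := hx.2.1.trans hy.2.1.symm
      have h2 : x ≡ y [MOD b] := hx.2.2.trans hy.2.2.symm
      have h3 : a ∣ ((y : ℤ) - x).natAbs := Int.natCast_dvd.1 h1.dvd
      have h4 : b ∣ ((y : ℤ) - x).natAbs := Int.natCast_dvd.1 h2.dvd
      have h5 : x ≡ y [MOD Nat.lcm a b] :=
        (Nat.modEq_iff_dvd).2 (Int.natCast_dvd.2 (Nat.lcm_dvd h3 h4))
      have e2 := Nat.div_add_mod x (Nat.lcm a b)
      have e3 := Nat.div_add_mod y (Nat.lcm a b)
      have e4 : x / Nat.lcm a b = y / Nat.lcm a b := hxy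
      have e5 : x % Nat.lcm a b = y % Nat.lcm a b := h5
      rw [← e2, ← e3, e4, e5]
  rwa [card_range] at h

end PairCountPAux

/-- numbers with prescribed intervals of residues for two moduli -/
theorem pairCount : PairCount := by
  intro a b M β W W' ha hb haM hbM _ _
  have hg : 0 < Nat.gcd a b := Nat.gcd_pos_of_pos_left b ha
  have hl : 0 < Nat.lcm a b := Nat.lcm_pos ha hb
  have hgl : Nat.gcd a b * Nat.lcm a b = a * b := Nat.gcd_mul_lcm a b
  have hsub : (range M).filter (fun n => (β ≤ n % a ∧ n % a < β + W) ∧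
      (β ≤ n % b ∧ n % b < β + W')) ⊆
      (Ico β (β + W)).biUnion fun r =>
        ((Ico β (β + W')).filter (fun r' => r' % Nat.gcd a b = r % Nat.gcd a b)).biUnion fun r' =>
          (range M).filter (fun n => n % a = r ∧ n % b = r') := by
    intro n hn
    rw [mem_filter] at hn
    rw [mem_biUnion]
    refine ⟨n % a, mem_Ico.2 hn.2.1, ?_⟩
    rw [mem_biUnion]
    refine ⟨n % b, mem_filter.2 ⟨mem_Ico.2 hn.2.2, ?_⟩, mem_filter.2 ⟨hn.1, rfl, rfl⟩⟩
    rw [Nat.mod_mod_of_dvd n (Nat.gcd_dvd_right a b), Nat.mod_mod_of_dvd n (Nat.gcd_dvd_left a b)]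
  have hcard : ((range M).filter (fun n => (β ≤ n % a ∧ n % a < β + W) ∧
      (β ≤ n % b ∧ n % b < β + W'))).card ≤
      W * ((W' / Nat.gcd a b + 1) * (M / Nat.lcm a b)) := by
    refine (card_le_card hsub).trans (card_biUnion_le.trans ?_)
    calc ∑ r ∈ Ico β (β + W), (((Ico β (β + W')).filter
          (fun r' => r' % Nat.gcd a b = r % Nat.gcd a b)).biUnion fun r' =>
          (range M).filter (fun n => n % a = r ∧ n % b = r')).card
        ≤ ∑ _r ∈ Ico β (β + W), (W' / Nat.gcd a b + 1) * (M / Nat.lcm a b) := by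
          refine sum_le_sum fun r _ => card_biUnion_le.trans ?_
          calc ∑ r' ∈ (Ico β (β + W')).filter (fun r' => r' % Nat.gcd a b = r % Nat.gcd a b),
                ((range M).filter (fun n => n % a = r ∧ n % b = r')).card
              ≤ ∑ _r' ∈ (Ico β (β + W')).filter (fun r' => r' % Nat.gcd a b = r % Nat.gcd a b),
                M / Nat.lcm a b :=
                sum_le_sum fun r' _ => PairCountPAux.card_two a b M r r' ha hb haM hbM
            _ = ((Ico β (β + W')).filter
                (fun r' => r' % Nat.gcd a b = r % Nat.gcd a b)).card * (M / Nat.lcm a b) := by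
                rw [sum_const, smul_eq_mul]
            _ ≤ _ := Nat.mul_le_mul_right _ (PairCountPAux.card_class _ _ _ _ hg)
      _ = W * ((W' / Nat.gcd a b + 1) * (M / Nat.lcm a b)) := by
          rw [sum_const, smul_eq_mul, Nat.card_Ico, Nat.add_sub_cancel_left]
  have ha' : (0 : ℝ) < a := by exact_mod_cast ha
  have hb' : (0 : ℝ) < b := by exact_mod_cast hb
  have hg' : (0 : ℝ) < Nat.gcd a b := by exact_mod_cast hg
  have hl' : (0 : ℝ) < Nat.lcm a b := by exact_mod_cast hl
  have hgl' : (Nat.gcd a b : ℝ) * Nat.lcm a b = a * b := by exact_mod_cast hgl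
  calc (((range M).filter (fun n => (β ≤ n % a ∧ n % a < β + W) ∧
      (β ≤ n % b ∧ n % b < β + W'))).card : ℝ)
      ≤ ((W * ((W' / Nat.gcd a b + 1) * (M / Nat.lcm a b)) : ℕ) : ℝ) := Nat.cast_le.2 hcard
    _ = (W : ℝ) * ((((W' / Nat.gcd a b : ℕ) : ℝ) + 1) * ((M / Nat.lcm a b : ℕ) : ℝ)) := by
        push_cast
        ring
    _ ≤ (W : ℝ) * (((W' : ℝ) / Nat.gcd a b + 1) * ((M : ℝ) / Nat.lcm a b)) := by
        refine mul_le_mul_of_nonneg_left ?_ (Nat.cast_nonneg _)
        refine mul_le_mul (add_le_add Nat.cast_div_le le_rfl) Nat.cast_div_le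
          (Nat.cast_nonneg _) (by positivity)
    _ = M * ((W : ℝ) * W' / (a * b) + (Nat.gcd a b : ℝ) * W / (a * b)) := by
        rw [← hgl']
        field_simp

end Pool.Agent.N63.US
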