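import Pool.Agent.TH997.US.Stm
import Pool.Agent.Erdos456.SecondMoment

set_option autoImplicit false

/-!
# Project USK: universal Skolem sets of density one, statements of the new pieces

The design is that of `Pool/Agent/H692R2/USS/Iface.lean` and `Pool/Agent/TH997/US/Stm.lean`
(starting library).  The statements below are the new intermediate pieces.
-/

namespace Pool.Agent.N63.US

open Polynomial Finset Pool.Agent.H692R2.USS Pool.Agent.Erdos456.SM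
open scoped Classical

/-! ## the gcd sum -/

/-- sum of `1 / k` over `1 ≤ k < 2 ^ (l + 1)` with `g k + 1` prime -/
noncomputable def FF (l g : ℕ) : ℝ :=
  ∑ k ∈ (Ico 1 (2 ^ (l + 1))).filter (fun k => (g * k + 1).Prime), (1 : ℝ) / k

/-- weighted off-diagonal sum -/
def Gram : Prop := ∃ C : ℝ, 0 < C ∧ ∀ l : ℕ,
  ∑ k ∈ Ico 1 (2 ^ (l + 1)), ∑ k' ∈ Ico 1 (2 ^ (l + 1)),
    (if k ≠ k' then (Gr k * Gr k' * Gr ((k : ℤ) - (k' : ℤ)).natAbs) ^ 2 / ((k : ℝ) * k') else 0) ≤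
      C * ((l : ℝ) + 1) ^ 2

/-- mean square of `FF` -/
def LX : Prop := ∃ C : ℝ, 0 < C ∧ ∀ l : ℕ,
  ∑ g ∈ Ico (2 ^ l : ℕ) (2 ^ (l + 1)), (1 / (g : ℝ)) * FF l g ^ 2 ≤ C

/-- the inner double sum -/
noncomputable def UU (L g : ℕ) : ℝ :=
  ∑ k' ∈ (Ico 1 (2 ^ L)).filter (fun k' => (g * k' + 1).Prime),
    ∑ k ∈ (Ico 1 k').filter (fun k => (g * k + 1).Prime),
      1 / ((k : ℝ) * k' * ((Nat.log 2 (g * k' + 1) : ℝ) + 1))

/-- the gcd sum as a triple sum -/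
def Conv : Prop := ∀ L : ℕ,
  ∑ p' ∈ (Finset.range (2 ^ L)).filter Nat.Prime, ∑ p ∈ (Finset.range p').filter Nat.Prime,
    ((Nat.gcd (p - 1) (p' - 1) : ℕ) : ℝ) /
      (((p : ℝ) - 1) * ((p' : ℝ) - 1) * ((Nat.log 2 p' : ℝ) + 1)) ≤
    ∑ l ∈ range L, ∑ g ∈ Ico (2 ^ l : ℕ) (2 ^ (l + 1)), (1 / (g : ℝ)) * UU L g

/-- the inner double sum for one `g` -/
def TriG : Prop := ∃ C : ℝ, 0 < C ∧ ∀ L l g : ℕ, 2 ^ l ≤ g → g < 2 ^ (l + 1) →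
  UU L g ≤ C * (FF l g ^ 2 + Gr g ^ 2) / ((l : ℝ) + 1)

/-! ## one block -/

/-- numbers with prescribed intervals of residues for two moduli -/
def PairCount : Prop := ∀ (a b M β W W' : ℕ), 0 < a → 0 < b → a ∣ M → b ∣ M →
  β + W ≤ a → β + W' ≤ b →
  (((range M).filter (fun n => (β ≤ n % a ∧ n % a < β + W) ∧
    (β ≤ n % b ∧ n % b < β + W'))).card : ℝ) ≤
    M * ((W : ℝ) * W' / (a * b) + (Nat.gcd a b : ℝ) * W / (a * b))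

/-- second moment inequality -/
def Moment : Prop := ∀ (P : Finset ℕ) (M : ℕ) (A : ℕ → Finset ℕ) (w m : ℕ → ℝ) (e : ℕ → ℕ → ℝ),
  (∀ p ∈ P, 0 ≤ w p) → (∀ p ∈ P, A p ⊆ range M) → (∀ p ∈ P, ((A p).card : ℝ) = M * m p) →
  (∀ p ∈ P, ∀ q ∈ P, p ≠ q → ((A p ∩ A q).card : ℝ) ≤ M * (m p * m q + e p q)) →
  (((range M).filter (fun n => ∀ p ∈ P, n ∉ A p)).card : ℝ) * (∑ p ∈ P, w p * m p) ^ 2 ≤
    M * (∑ p ∈ P, w p ^ 2 * m p + ∑ p ∈ P, ∑ q ∈ P, if p ≠ q then w p * w q * e p q else 0)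

/-! ## non-generic classes -/

def BadCl : Prop := ∀ k p : ℕ, 1 ≤ k → p.Prime → ∃ B : Finset ℕ, B ⊆ range p ∧
  (B.card : ℝ) ≤ k * 2 ^ (k + 1) * (p : ℝ) ^ (1 / 4 : ℝ) ∧ ∀ n, ¬ Generic k p n → n % p ∈ B

/-! ## operators -/

/-- Leibniz rule for the shift and multiplication by a binomial coefficient -/
def Leib : Prop := ∀ (f : ℤ[X]) (a : ℕ) (w : ℕ → ℤ) (n : ℕ),
  aeval (E ℤ) f (fun n => (n.choose a : ℤ) * w n) n =
    ∑ b ∈ range (a + 1), (n.choose (a - b) : ℤ) * aeval (E ℤ) (X ^ b * hasseDeriv b f) w n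

/-- binomial multiples of a sequence killed by `g` are killed by a power of `g` -/
def BinAnn : Prop := ∀ (g : ℤ[X]) (w : ℕ → ℤ) (j : ℕ), Ann g w →
  Ann (g ^ (j + 1)) (fun n => (n.choose j : ℤ) * w n)

/-- the radical of a monic polynomial -/
def E1a : Prop := ∀ χ : ℤ[X], χ.Monic → χ.coeff 0 ≠ 0 →
  ∃ (g s t : ℤ[X]) (rr : ℤ) (m : ℕ), g.Monic ∧ g.coeff 0 ≠ 0 ∧
    s * g + t * derivative g = C rr ∧ rr ≠ 0 ∧ 1 ≤ m ∧ χ ∣ g ^ m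

/-- the decomposition of a sequence killed by `g ^ m` -/
def E1b : Prop := ∀ (g s t : ℤ[X]) (rr : ℤ), g.coeff 0 ≠ 0 →
  s * g + t * derivative g = C rr → rr ≠ 0 → ∀ (m : ℕ) (u : ℕ → ℤ), 1 ≤ m → Ann (g ^ m) u →
  ∃ (D : ℕ) (v : ℕ → ℕ → ℤ), 1 ≤ D ∧ (∀ j < m, Ann g (v j)) ∧
    ∀ n : ℕ, (D : ℤ) * u n = ∑ j ∈ Finset.range m, (n.choose j : ℤ) * v j n

theorem e1_of (ha : E1a) (hb : E1b) : Pool.Agent.TH997.US.E1 := by
  intro χ u hχ h0 hu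
  obtain ⟨g, s, t, rr, m, h1, h2, h3, h4, h5, h6⟩ := ha χ hχ h0
  obtain ⟨D, v, h7, h8, h9⟩ := hb g s t rr h2 h3 h4 m u h5 (hu.of_dvd h6)
  exact ⟨g, s, t, rr, m, D, v, h1, h2, h3, h4, h5, h7, h8, h9⟩

end Pool.Agent.N63.US
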