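import Pool.Agent.N63.US.Stm

set_option autoImplicit false

/-!
# Project USK, second part: certificates which allow classes of zeros

With these the zeros in the universal Skolem set are computed completely, not only their existence.
-/

namespace Pool.Agent.N63.US

open Polynomial Finset Pool.Agent.H692R2.USS Pool.Agent.TH997.US
open scoped Classical

/-- a sequence killed by `g` which vanishes at the first `deg g` elements of a residue class
vanishes on the class -/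
def SubZ : Prop := ∀ (g : ℤ[X]) (v : ℕ → ℤ) (r T : ℕ), g.Monic → Ann g v → 1 ≤ T →
  (∀ l < g.natDegree, v (r + T * l) = 0) → ∀ l, v (r + T * l) = 0

/-- all coded sequences vanish on the class of `r` modulo `T` -/
def Van (m T : ℕ) (G : List Z) (V : List (List Z)) (r : ℕ) : Prop :=
  ∀ j < m, ∀ l < G.length, (run G (V.getD j []) (r + T * l)).1 =
    (run G (V.getD j []) (r + T * l)).2

/-- the check of certificates, with classes of zeros allowed -/
def ChkV (p : List Z × List Z) (k m D p0 T Vb Bd : ℕ) (G Sg Tg Q W : List Z) (R : Z)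
    (V : List (List Z)) : Prop :=
  5 ≤ k ∧ 1 ≤ G.length ∧ G.length ≤ k ∧ (∀ i < G.length, lez (lc G i) k) ∧
  (lc G 0).1 ≠ (lc G 0).2 ∧
  (∀ i < G.length + Sg.length + Tg.length + 2, BezAt G Sg Tg R i) ∧
  R.1 ≠ R.2 ∧ lez R k ∧ 1 ≤ m ∧ m ≤ k ∧ 1 ≤ D ∧
  (∀ j < m, (V.getD j []).length = G.length ∧ ∀ i < G.length, lez (lc (V.getD j []) i) Vb) ∧
  m * m.factorial * Vb < 2 ^ k ∧
  (∀ n < p.1.length + m * G.length, DecAt p m D G V n) ∧
  p0.Prime ∧ 3 ≤ p0 ∧ 1 ≤ T ∧ T ≤ k ∧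
  (∀ i < G.length + Q.length + W.length + T + 2, PerAt G Q W p0 T i) ∧
  (∀ r < T, Van m T G V r ∨ ∃ j < m, ∃ l < Bd, (run G (V.getD j []) (r + T * l)).1 ≠
    (run G (V.getD j []) (r + T * l)).2 ∧
    ¬ ((run G (V.getD j []) (r + T * l)).2 + 3 ^ (k / 2) ≤ (run G (V.getD j []) (r + T * l)).1 ∨
      (run G (V.getD j []) (r + T * l)).1 + 3 ^ (k / 2) ≤ (run G (V.getD j []) (r + T * l)).2))

/-- soundness -/
def F1V : Prop := ∀ (p : List Z × List Z) (k m D p0 T Vb Bd : ℕ) (G Sg Tg Q W : List Z) (R : Z)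
    (V : List (List Z)), p.1.length = p.2.length → 1 ≤ p.1.length →
  ChkV p k m D p0 T Vb Bd G Sg Tg Q W R V →
  ∃ (g s t q w : ℤ[X]) (rr : ℤ) (v : ℕ → ℕ → ℤ), CD (sq p) k g s t q w rr m D p0 T v ∧
    ∀ r < T, (Van m T G V r → ∀ j < m, ∀ l, v j (r + T * l) = 0) ∧
      (¬ Van m T G V r → ∃ j < m, ∃ l, v j (r + T * l) ≠ 0 ∧ |v j (r + T * l)| < 3 ^ (k / 2))

/-- completeness -/
def F2V : Prop := ∀ (p : List Z × List Z) (k : ℕ) (g s t q w : ℤ[X]) (rr : ℤ) (m D p0 T : ℕ)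
    (v : ℕ → ℕ → ℤ), p.1.length = p.2.length → 1 ≤ p.1.length →
  CD (sq p) k g s t q w rr m D p0 T v →
  (∀ r < T, (∀ j < m, ∀ l, v j (r + T * l) = 0) ∨
    ∃ j < m, ∃ l, v j (r + T * l) ≠ 0 ∧ |v j (r + T * l)| < 3 ^ (k / 2)) →
  ∃ (k' Vb Bd : ℕ) (G Sg Tg Q W : List Z) (R : Z) (V : List (List Z)),
    ChkV p k' m D p0 T Vb Bd G Sg Tg Q W R V

/-- type of the certificates -/
abbrev CT : Type := (ℕ × ℕ × ℕ × ℕ × ℕ × ℕ × ℕ) ×
  (List Z × List Z × List Z × List Z × List Z) × Z × List (List Z)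

/-- computability of the check, and of the list of the classes of zeros -/
def F3V : Prop := ComputablePred (fun x : (List Z × List Z) × CT =>
    ChkV x.1 x.2.1.1 x.2.1.2.1 x.2.1.2.2.1 x.2.1.2.2.2.1 x.2.1.2.2.2.2.1 x.2.1.2.2.2.2.2.1
      x.2.1.2.2.2.2.2.2 x.2.2.1.1 x.2.2.1.2.1 x.2.2.1.2.2.1 x.2.2.1.2.2.2.1 x.2.2.1.2.2.2.2
      x.2.2.2.1 x.2.2.2.2) ∧
  Computable (fun c : CT => (List.range c.1.2.2.2.2.1).filter
    (fun r => decide (Van c.1.2.1 c.1.2.2.2.2.1 c.2.1.1 c.2.2.2 r)))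

end Pool.Agent.N63.US
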