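import Pool.Agent.N63.US.Stm2
import Pool.Agent.H692R2.USS.Basic

/-!
# Project USK (helper63), subtask 3142: vanishing along a residue class from an initial segment (helper157)
-/

set_option autoImplicit false

namespace Pool.Agent.N63.US

open Polynomial Finset Pool.Agent.H692R2.USS

namespace SubZpAux

/-- the characteristic polynomial of the `T`-th power of the class of `X` modulo `g` -/
theorem exists_char {g : ℤ[X]} (hg : g.Monic) (T : ℕ) :
    ∃ h : ℤ[X], h.Monic ∧ h.natDegree = g.natDegree ∧ g ∣ expand ℤ T h := by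
  have hfree : Module.Free ℤ (AdjoinRoot g) := hg.free_adjoinRoot
  have hfin : Module.Finite ℤ (AdjoinRoot g) := hg.finite_adjoinRoot
  refine ⟨(Algebra.lmul ℤ (AdjoinRoot g) (AdjoinRoot.root g ^ T)).charpoly,
    LinearMap.charpoly_monic _, ?_, ?_⟩
  · rw [LinearMap.charpoly_natDegree, (AdjoinRoot.powerBasis' hg).finrank,
      AdjoinRoot.powerBasis'_dim]
  · rw [← AdjoinRoot.mk_eq_zero, ← AdjoinRoot.aeval_eq, expand_aeval]
    have h1 := LinearMap.aeval_self_charpoly (Algebra.lmul ℤ (AdjoinRoot g) (AdjoinRoot.root g ^ T))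
    rw [aeval_algHom_apply] at h1
    have h2 := congrArg (fun f : Module.End ℤ (AdjoinRoot g) => f 1) h1
    simpa using h2

end SubZpAux

open SubZpAux in
/-- SubZ -/
theorem subZ : SubZ := by
  intro g v r T hg hv hT h0
  obtain ⟨h, hm, hd, hdvd⟩ := exists_char hg T
  have h1 : Ann (expand ℤ T h) v := hv.of_dvd hdvd
  have h2 : Ann h (fun l => v (r + T * l)) := by
    rw [ann_iff (Nat.lt_succ_self _)]
    intro n
    unfold Ann at h1
    rw [expand_aeval] at h1
    have h3 := congrFun h1 (r + T * n)
    rw [aeval_eq_sum_range' (Nat.lt_succ_self _), LinearMap.sum_apply, Finset.sum_apply] at h3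
    rw [Pi.zero_apply] at h3
    rw [← h3]
    apply Finset.sum_congr rfl
    intro i _
    rw [LinearMap.smul_apply, Pi.smul_apply, ← pow_mul, E_pow_apply, smul_eq_mul]
    congr 2
    ring
  exact h2.eq_zero hm (fun l hl => h0 l (by rwa [hd] at hl))

end Pool.Agent.N63.US
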