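import Pool.Agent.N63.US.Stm

/-!
# The inner double sum for one `g` (`BT → TriG`)
-/

set_option autoImplicit false

namespace Pool.Agent.N63.US

open Finset Pool.Agent.H692R2.USS Pool.Agent.Erdos456.SM
open scoped Classical

namespace TriGpAux

/-- the indicator of the primes `g k + 1`, divided by `k` -/
noncomputable def rho (g k : ℕ) : ℝ := if (g * k + 1).Prime then 1 / (k : ℝ) else 0

/-- the logarithmic weight -/
noncomputable def W (g k : ℕ) : ℝ := 1 / ((Nat.log 2 (g * k + 1) : ℝ) + 1)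

/-- sums over an initial segment -/
noncomputable def A (g n : ℕ) : ℝ := ∑ k ∈ range n, rho g k

/-- the double sum -/
noncomputable def U (g J : ℕ) : ℝ := ∑ k ∈ range (2 ^ J), rho g k * W g k * A g k

theorem rho_nonneg (g k : ℕ) : 0 ≤ rho g k := by
  unfold rho
  split_ifs
  · positivity
  · exact le_rfl

theorem rho_zero (g : ℕ) : rho g 0 = 0 := by
  unfold rho
  simp

theorem W_nonneg (g k : ℕ) : 0 ≤ W g k := by
  unfold W
  positivity

theorem A_nonneg (g n : ℕ) : 0 ≤ A g n := Finset.sum_nonneg fun k _ => rho_nonneg g k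

theorem A_mono (g : ℕ) {n m : ℕ} (h : n ≤ m) : A g n ≤ A g m :=
  Finset.sum_le_sum_of_subset_of_nonneg (Finset.range_subset_range.2 h)
    fun k _ _ => rho_nonneg g k

theorem term_nonneg (g k : ℕ) : 0 ≤ rho g k * W g k * A g k :=
  mul_nonneg (mul_nonneg (rho_nonneg g k) (W_nonneg g k)) (A_nonneg g k)

theorem U_mono (g : ℕ) {n m : ℕ} (h : n ≤ m) : U g n ≤ U g m :=
  Finset.sum_le_sum_of_subset_of_nonneg
    (Finset.range_subset_range.2 (Nat.pow_le_pow_right (by norm_num) h))
    fun k _ _ => term_nonneg g k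

theorem sum_Ico_one (f : ℕ → ℝ) (h0 : f 0 = 0) (n : ℕ) :
    ∑ k ∈ Ico 1 n, f k = ∑ k ∈ range n, f k := by
  refine Finset.sum_subset (fun x hx => ?_) (fun x hx hx' => ?_)
  · rw [mem_Ico] at hx
    exact mem_range.2 hx.2
  · rw [mem_Ico] at hx'
    rw [mem_range] at hx
    have : x = 0 := by omega
    rw [this, h0]

theorem FF_eq (l g : ℕ) : FF l g = A g (2 ^ (l + 1)) := by
  unfold FF A
  rw [Finset.sum_filter, sum_Ico_one _ (by simp)]
  rfl

theorem UU_eq (L g : ℕ) : UU L g = U g L := by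
  unfold UU U
  rw [Finset.sum_filter, sum_Ico_one _ (by simp)]
  refine Finset.sum_congr rfl fun k' _ => ?_
  unfold rho
  split_ifs with h
  · rw [Finset.sum_filter, sum_Ico_one _ (by simp)]
    unfold A W
    rw [Finset.mul_sum]
    refine Finset.sum_congr rfl fun k _ => ?_
    unfold rho
    split_ifs
    · rw [one_div_mul_one_div, one_div_mul_one_div]
      congr 1
      ring
    · rw [mul_zero]
  · ring

theorem W_le_l {l g k : ℕ} (hg : 2 ^ l ≤ g) (hk : 1 ≤ k) : W g k ≤ 1 / ((l : ℝ) + 1) := by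
  unfold W
  have h1 : l ≤ Nat.log 2 (g * k + 1) := by
    have h2 : 2 ^ l ≤ g * k + 1 := by
      have : g * 1 ≤ g * k := Nat.mul_le_mul_left g hk
      omega
    exact Nat.le_log_of_pow_le (by norm_num) h2
  have h3 : (l : ℝ) ≤ (Nat.log 2 (g * k + 1) : ℝ) := by exact_mod_cast h1
  exact one_div_le_one_div_of_le (by positivity) (by linarith)

theorem W_le_J {J g k : ℕ} (hg : 1 ≤ g) (hk : 2 ^ J ≤ k) : W g k ≤ 1 / ((J : ℝ) + 1) := by
  unfold W
  have h1 : J ≤ Nat.log 2 (g * k + 1) := by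
    have h2 : 2 ^ J ≤ g * k + 1 := by
      have : 1 * k ≤ g * k := Nat.mul_le_mul_right k hg
      omega
    exact Nat.le_log_of_pow_le (by norm_num) h2
  have h3 : (J : ℝ) ≤ (Nat.log 2 (g * k + 1) : ℝ) := by exact_mod_cast h1
  exact one_div_le_one_div_of_le (by positivity) (by linarith)

/-- one dyadic block -/
theorem block {C : ℝ} (hC : ∀ q l : ℕ, 1 ≤ q →
    (((Finset.Ico (2 ^ l) (2 ^ (l + 1))).filter (fun k => (q * k + 1).Prime)).card : ℝ) ≤
      C * ((q : ℝ) / (Nat.totient q)) * 2 ^ l / ((l : ℝ) + 1)) {g : ℕ} (hg : 1 ≤ g) (J : ℕ) :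
    ∑ k ∈ Ico (2 ^ J) (2 ^ (J + 1)), rho g k ≤ C * Gr g / ((J : ℝ) + 1) := by
  have h1 : ∑ k ∈ Ico (2 ^ J) (2 ^ (J + 1)), rho g k ≤
      ∑ k ∈ (Ico (2 ^ J) (2 ^ (J + 1))).filter (fun k => (g * k + 1).Prime), 1 / (2 : ℝ) ^ J := by
    rw [Finset.sum_filter]
    refine Finset.sum_le_sum fun k hk => ?_
    rw [mem_Ico] at hk
    unfold rho
    split_ifs
    · have h2 : (2 : ℝ) ^ J ≤ k := by exact_mod_cast hk.1
      exact one_div_le_one_div_of_le (by positivity) h2
    · exact le_rfl
  refine h1.trans ?_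
  rw [Finset.sum_const, nsmul_eq_mul]
  have h2 := hC g J hg
  calc (((Ico (2 ^ J) (2 ^ (J + 1))).filter (fun k => (g * k + 1).Prime)).card : ℝ) *
      (1 / (2 : ℝ) ^ J) ≤ (C * ((g : ℝ) / (Nat.totient g)) * 2 ^ J / ((J : ℝ) + 1)) *
        (1 / (2 : ℝ) ^ J) := mul_le_mul_of_nonneg_right h2 (by positivity)
    _ = C * Gr g / ((J : ℝ) + 1) := by
      unfold Gr
      have h3 : (2 : ℝ) ^ J ≠ 0 := by positivity
      have h4 : ((J : ℝ) + 1) ≠ 0 := by positivity
      field_simp

end TriGpAux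

open TriGpAux in
/-- **TriG** -/
theorem triG : BT → TriG := by
  rintro ⟨C, hC0, hC⟩
  refine ⟨1 + C + C ^ 2, by positivity, fun L l g hg1 hg2 => ?_⟩
  have hg : 1 ≤ g := le_trans (Nat.one_le_two_pow) hg1
  have hG0 : 0 ≤ Gr g := Gr_nonneg g
  set D : ℝ := C * Gr g with hD
  have hD0 : 0 ≤ D := mul_nonneg hC0.le hG0
  rw [UU_eq, FF_eq]
  set F : ℝ := A g (2 ^ (l + 1)) with hF
  have hF0 : 0 ≤ F := A_nonneg g _
  set m : ℕ := l + 1 with hm
  have hm0 : (0 : ℝ) < m := by
    rw [hm]
    positivity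
  have hmR : (l : ℝ) + 1 = m := by
    rw [hm]
    push_cast
    rfl
  rw [hmR]
  -- the first part
  have hU0 : U g m ≤ F ^ 2 / m := by
    unfold U
    calc ∑ k ∈ range (2 ^ m), rho g k * W g k * A g k
        ≤ ∑ k ∈ range (2 ^ m), rho g k * (1 / (m : ℝ) * F) := by
          refine Finset.sum_le_sum fun k hk => ?_
          rw [mem_range] at hk
          rcases Nat.eq_zero_or_pos k with h0 | h0
          · rw [h0, rho_zero]
            simp
          · rw [mul_assoc]
            refine mul_le_mul_of_nonneg_left ?_ (rho_nonneg g k)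
            have h1 : W g k ≤ 1 / (m : ℝ) := by
              rw [← hmR]
              exact W_le_l hg1 h0
            exact mul_le_mul h1 (A_mono g hk.le) (A_nonneg g k) (by positivity)
      _ = F ^ 2 / m := by
          rw [← Finset.sum_mul]
          change F * (1 / (m : ℝ) * F) = _
          ring
  -- the function `h`
  set h : ℕ → ℝ := fun J => ∑ i ∈ Ico m J, 1 / ((i : ℝ) + 1) with hh
  have hs : ∀ J, m ≤ J → h (J + 1) = h J + 1 / ((J : ℝ) + 1) := fun J hJ => by
    rw [hh]
    exact Finset.sum_Ico_succ_top hJ _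
  have hh0 : ∀ J, 0 ≤ h J := fun J => Finset.sum_nonneg fun i _ => by positivity
  have hA : ∀ J, m ≤ J → A g (2 ^ J) ≤ F + D * h J := by
    intro J hJ
    induction J, hJ using Nat.le_induction with
    | base =>
      have : h m = 0 := by
        rw [hh]
        simp
      rw [this, mul_zero, add_zero]
    | succ J hJ ih =>
      have h1 : A g (2 ^ (J + 1)) = A g (2 ^ J) + ∑ k ∈ Ico (2 ^ J) (2 ^ (J + 1)), rho g k :=
        (Finset.sum_range_add_sum_Ico _ (Nat.pow_le_pow_right (by norm_num) (Nat.le_succ J))).symm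
      have h2 := block hC hg J
      rw [h1, hs J hJ]
      have h3 : D * (h J + 1 / ((J : ℝ) + 1)) = D * h J + C * Gr g / ((J : ℝ) + 1) := by
        rw [hD]
        ring
      rw [h3]
      linarith
  have hU : ∀ J, m ≤ J → U g J ≤ F ^ 2 / m + D * F * (1 / m - 1 / J) +
      D ^ 2 * (1 / m - 1 / J - h J / J) := by
    intro J hJ
    induction J, hJ using Nat.le_induction with
    | base =>
      have : h m = 0 := by
        rw [hh]
        simp
      rw [this]
      simpa using hU0
    | succ J hJ ih =>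
      have hJ0 : (0 : ℝ) < J := by
        have : 0 < J := by omega
        exact_mod_cast this
      have h1 : U g (J + 1) = U g J +
          ∑ k ∈ Ico (2 ^ J) (2 ^ (J + 1)), rho g k * W g k * A g k :=
        (Finset.sum_range_add_sum_Ico _ (Nat.pow_le_pow_right (by norm_num) (Nat.le_succ J))).symm
      have h2 : ∑ k ∈ Ico (2 ^ J) (2 ^ (J + 1)), rho g k * W g k * A g k ≤
          D / ((J : ℝ) + 1) * (1 / ((J : ℝ) + 1) * (F + D * h (J + 1))) := by
        calc ∑ k ∈ Ico (2 ^ J) (2 ^ (J + 1)), rho g k * W g k * A g k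
            ≤ ∑ k ∈ Ico (2 ^ J) (2 ^ (J + 1)), rho g k *
                (1 / ((J : ℝ) + 1) * (F + D * h (J + 1))) := by
              refine Finset.sum_le_sum fun k hk => ?_
              rw [mem_Ico] at hk
              rw [mul_assoc]
              refine mul_le_mul_of_nonneg_left ?_ (rho_nonneg g k)
              exact mul_le_mul (W_le_J hg hk.1)
                ((A_mono g hk.2.le).trans (hA (J + 1) (by omega))) (A_nonneg g k) (by positivity)
          _ = (∑ k ∈ Ico (2 ^ J) (2 ^ (J + 1)), rho g k) *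
                (1 / ((J : ℝ) + 1) * (F + D * h (J + 1))) := by rw [Finset.sum_mul]
          _ ≤ _ := by
              refine mul_le_mul_of_nonneg_right (block hC hg J) ?_
              have := hh0 (J + 1)
              positivity
      rw [h1]
      refine (add_le_add ih h2).trans ?_
      have e1 : h J = h (J + 1) - 1 / ((J : ℝ) + 1) := by
        rw [hs J hJ]
        ring
      rw [e1]
      set H : ℝ := h (J + 1) with hH
      have hH0 : 0 ≤ H := hh0 _
      push_cast
      have e2 : (F ^ 2 / m + D * F * (1 / m - 1 / ((J : ℝ) + 1)) +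
          D ^ 2 * (1 / m - 1 / ((J : ℝ) + 1) - H / ((J : ℝ) + 1))) -
          (F ^ 2 / m + D * F * (1 / m - 1 / J) +
            D ^ 2 * (1 / m - 1 / J - (H - 1 / ((J : ℝ) + 1)) / J) +
            D / ((J : ℝ) + 1) * (1 / ((J : ℝ) + 1) * (F + D * H))) =
          (D * F + D ^ 2 * H) * (1 / (J * ((J : ℝ) + 1) ^ 2)) := by
        field_simp
        ring
      have e3 : 0 ≤ (D * F + D ^ 2 * H) * (1 / (J * ((J : ℝ) + 1) ^ 2)) :=
        mul_nonneg (add_nonneg (mul_nonneg hD0 hF0) (mul_nonneg (sq_nonneg D) hH0))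
          (one_div_nonneg.2 (mul_nonneg hJ0.le (sq_nonneg _)))
      linarith
  -- conclusion
  set J := max L m with hJ
  have h1 := (U_mono g (le_max_left L m)).trans (hU J (le_max_right L m))
  refine h1.trans ?_
  have hJ0 : (0 : ℝ) < J := by
    have : m ≤ J := le_max_right L m
    have : 0 < J := by omega
    exact_mod_cast this
  have h2 : F ^ 2 / m + D * F * (1 / m - 1 / J) + D ^ 2 * (1 / m - 1 / J - h J / J) ≤
      (F ^ 2 + D * F + D ^ 2) / m := by
    have h3 : 0 ≤ D * F * (1 / J) := by positivity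
    have h4 : 0 ≤ D ^ 2 * (1 / J + h J / J) := by
      have := hh0 J
      positivity
    have h5 : (F ^ 2 + D * F + D ^ 2) / m = F ^ 2 / m + D * F * (1 / m) + D ^ 2 * (1 / m) := by
      ring
    rw [h5]
    nlinarith
  refine h2.trans ?_
  refine div_le_div_of_nonneg_right ?_ hm0.le
  have h3 : F * Gr g ≤ F ^ 2 + Gr g ^ 2 := by nlinarith [sq_nonneg (F - Gr g), sq_nonneg F, sq_nonneg (Gr g)]
  have h4 : D * F = C * (F * Gr g) := by
    rw [hD]
    ring
  have h5 : D ^ 2 = C ^ 2 * Gr g ^ 2 := by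
    rw [hD]
    ring
  rw [h4, h5]
  nlinarith [mul_le_mul_of_nonneg_left h3 hC0.le, mul_nonneg (sq_nonneg C) (sq_nonneg F),
    sq_nonneg (Gr g)]

end Pool.Agent.N63.US
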